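import Pool.Agent.Lib.MP_b2e5b9_co.Fat.Defs

/-!
# Two-dimensional position systems: curves, labels, local structure at a vertex
-/

set_option autoImplicit false

open Set Filter
open scoped Topology

namespace HyperplaneTransversals

/-- Counting by a relation. -/
theorem encard_le_of_rel {α β : Type*} (s : Set α) (t : Set β) (R : α → β → Prop)
    (h1 : ∀ x ∈ s, ∃ y ∈ t, R x y)
    (h2 : ∀ x ∈ s, ∀ x' ∈ s, ∀ y ∈ t, R x y → R x' y → x = x') : s.encard ≤ t.encard := by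
  classical
  rcases s.eq_empty_or_nonempty with rfl | ⟨x₀, hx₀⟩
  · simp
  obtain ⟨y₀, -⟩ := h1 x₀ hx₀
  have : Nonempty β := ⟨y₀⟩
  choose! f hf using h1
  refine Set.encard_le_encard_of_injOn (f := f) (fun x hx => (hf x hx).1) ?_
  intro x hx x' hx' hxx
  exact h2 x hx x' hx' (f x) (hf x hx).1 (hf x hx).2 (hxx ▸ (hf x' hx').2)

theorem sign_pm {x : ℝ} (hx : x = 1 ∨ x = -1) (y : ℝ) :
    SignType.sign (x * y) = if x = 1 then SignType.sign y else -SignType.sign y := by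
  rcases hx with rfl | rfl
  · simp
  · have : ¬ ((-1 : ℝ) = 1) := by norm_num
    rw [if_neg this, neg_one_mul, Left.sign_neg]

theorem pm_mul_self {x : ℝ} (hx : x = 1 ∨ x = -1) : x * x = 1 := by
  rcases hx with rfl | rfl <;> norm_num

theorem pm_mul {x y : ℝ} (hx : x = 1 ∨ x = -1) (hy : y = 1 ∨ y = -1) : x * y = 1 ∨ x * y = -1 := by
  rcases hx with rfl | rfl <;> rcases hy with rfl | rfl <;> norm_num

theorem pm_abs {x : ℝ} (hx : x = 1 ∨ x = -1) : |x| = 1 := by
  rcases hx with rfl | rfl <;> norm_num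

namespace PosSys

variable {ι M : Type} [TopologicalSpace M] (P : PosSys ι M)

/-- The points with all positions in `[-1, 1]`. -/
def T : Set M := {h | ∀ l, |P.pos l h| ≤ 1}

/-- The curve of the label `a = (B, δ, ω)` parametrised by the position relative to `E`. -/
def cur (E : ι) (a : ι × ℝ × ℝ) (r : ℝ) : M := P.pt E a.1 a.2.2 r a.2.1

/-- Labels. -/
structure IsLab (E F : ι) (a : ι × ℝ × ℝ) : Prop where
  neE : a.1 ≠ E
  neF : a.1 ≠ F
  del : a.2.1 = 1 ∨ a.2.1 = -1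
  ome : a.2.2 = 1 ∨ a.2.2 = -1

/-- The curve of the label `a` passes through `v`. -/
def Thru (E : ι) (a : ι × ℝ × ℝ) (v : M) : Prop := P.pos a.1 v = a.2.1 ∧ P.sgn E a.1 v = a.2.2

/-- The type of a label at a point. -/
def typ (E F : ι) (a : ι × ℝ × ℝ) (v : M) : ℝ := a.2.1 * a.2.2 * P.sgn E F v

/-- The point of the curve of `a` with parameter `r` is not tangent to any other body. -/
def sf (E : ι) (a : ι × ℝ × ℝ) (r : ℝ) : Prop := ∀ l, l ≠ a.1 → |P.pos l (P.cur E a r)| < 1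

/-- The excess of the curve of `a` with respect to the label `b`. -/
def ex (E : ι) (a b : ι × ℝ × ℝ) (r : ℝ) : ℝ := b.2.1 * P.pos b.1 (P.cur E a r) - 1

variable {P} {E F : ι} {a b c : ι × ℝ × ℝ} {v : M} {r : ℝ}

theorem typ_mem (ha : IsLab E F a) : P.typ E F a v = 1 ∨ P.typ E F a v = -1 :=
  pm_mul (pm_mul ha.del ha.ome) (P.sgn_mem E F v)

theorem abs_del (ha : IsLab E F a) : |a.2.1| ≤ 1 := (pm_abs ha.del).le

theorem cur_posE (ha : IsLab E F a) (hr : |r| ≤ 1) : P.pos E (P.cur E a r) = r :=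
  P.pt_pos₁ E a.1 ha.neE.symm _ ha.ome _ _ hr (abs_del ha)

theorem cur_posB (ha : IsLab E F a) (hr : |r| ≤ 1) : P.pos a.1 (P.cur E a r) = a.2.1 :=
  P.pt_pos₂ E a.1 ha.neE.symm _ ha.ome _ _ hr (abs_del ha)

theorem cur_sgn (ha : IsLab E F a) (hr : |r| ≤ 1) : P.sgn E a.1 (P.cur E a r) = a.2.2 :=
  P.pt_sgn E a.1 ha.neE.symm _ ha.ome _ _ hr (abs_del ha)

theorem thru_cur (ha : IsLab E F a) (hr : |r| ≤ 1) : P.Thru E a (P.cur E a r) :=
  ⟨cur_posB ha hr, cur_sgn ha hr⟩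

theorem cur_eq (ha : IsLab E F a) (hv : |P.pos E v| ≤ 1) (h : P.Thru E a v) :
    P.cur E a (P.pos E v) = v := by
  have h1 : |P.pos a.1 v| ≤ 1 := by rw [h.1]; exact abs_del ha
  have := P.pt_unique E a.1 ha.neE.symm v hv h1
  rw [h.1, h.2] at this
  exact this

theorem eq_of_pos {i j : ι} (hij : i ≠ j) {u w : M} (hi : |P.pos i u| ≤ 1) (hj : |P.pos j u| ≤ 1)
    (h1 : P.pos i u = P.pos i w) (h2 : P.pos j u = P.pos j w) (h3 : P.sgn i j u = P.sgn i j w) :
    u = w := by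
  rw [← P.pt_unique i j hij u hi hj, ← P.pt_unique i j hij w (h1 ▸ hi) (h2 ▸ hj), h1, h2, h3]

theorem cur_contOn (ha : IsLab E F a) : ContinuousOn (P.cur E a) (Icc (-1) 1) := by
  have h := P.pt_cont E a.1 ha.neE.symm a.2.2 ha.ome
  have : P.cur E a = (fun q : ℝ × ℝ => P.pt E a.1 a.2.2 q.1 q.2) ∘ fun r => (r, a.2.1) := by
    funext r
    rfl
  rw [this]
  refine h.comp (by fun_prop) ?_
  intro r hr
  exact ⟨abs_le.2 ⟨hr.1, hr.2⟩, abs_del ha⟩

theorem cur_contAt (ha : IsLab E F a) (hr : |r| < 1) : ContinuousAt (P.cur E a) r :=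
  (cur_contOn ha).continuousAt (Icc_mem_nhds (abs_lt.1 hr).1 (abs_lt.1 hr).2)

/-- Two positions are taken at most twice. -/
theorem three_pts {i j : ι} (hij : i ≠ j) {u w z : M} (hi : |P.pos i u| ≤ 1)
    (hj : |P.pos j u| ≤ 1) (h1 : P.pos i u = P.pos i w) (h2 : P.pos j u = P.pos j w)
    (h3 : P.pos i u = P.pos i z) (h4 : P.pos j u = P.pos j z) : u = w ∨ u = z ∨ w = z := by
  rcases P.sgn_mem i j u with hu | hu <;> rcases P.sgn_mem i j w with hw | hw <;>
    rcases P.sgn_mem i j z with hz | hz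
  · exact Or.inl (eq_of_pos hij hi hj h1 h2 (by rw [hu, hw]))
  · exact Or.inl (eq_of_pos hij hi hj h1 h2 (by rw [hu, hw]))
  · exact Or.inr (Or.inl (eq_of_pos hij hi hj h3 h4 (by rw [hu, hz])))
  · exact Or.inr (Or.inr (eq_of_pos hij (h1 ▸ hi) (h2 ▸ hj) (h1 ▸ h3) (h2 ▸ h4) (by rw [hw, hz])))
  · exact Or.inr (Or.inr (eq_of_pos hij (h1 ▸ hi) (h2 ▸ hj) (h1 ▸ h3) (h2 ▸ h4) (by rw [hw, hz])))
  · exact Or.inr (Or.inl (eq_of_pos hij hi hj h3 h4 (by rw [hu, hz])))
  · exact Or.inl (eq_of_pos hij hi hj h1 h2 (by rw [hu, hw]))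
  · exact Or.inl (eq_of_pos hij hi hj h1 h2 (by rw [hu, hw]))

/-- The orientation is locally constant in the open square. -/
theorem sgn_eventually {i j : ι} (hij : i ≠ j) (hi : |P.pos i v| < 1) (hj : |P.pos j v| < 1) :
    ∀ᶠ h in 𝓝 v, P.sgn i j h = P.sgn i j v := by
  have hc := (P.sgn_closed i j hij (-P.sgn i j v)).isOpen_compl.mem_nhds (x := v) (by
    intro hmem
    have h3 : P.sgn i j v = -P.sgn i j v := hmem.2.2
    rcases P.sgn_mem i j v with h | h <;> rw [h] at h3 <;> norm_num at h3)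
  have h1 : ∀ᶠ h in 𝓝 v, |P.pos i h| < 1 :=
    ((P.cont_pos i).abs.continuousAt.eventually_lt continuousAt_const hi)
  have h2 : ∀ᶠ h in 𝓝 v, |P.pos j h| < 1 :=
    ((P.cont_pos j).abs.continuousAt.eventually_lt continuousAt_const hj)
  filter_upwards [hc, h1, h2] with u hh h1 h2
  have h4 : P.sgn i j u ≠ -P.sgn i j v := fun h3 => hh ⟨h1.le, h2.le, h3⟩
  rcases P.sgn_mem i j v with h | h <;> rcases P.sgn_mem i j u with h' | h' <;>
    rw [h, h'] at h4 ⊢ <;> norm_num at h4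

/-- The orientation is constant along a path in the closed square. -/
theorem sgn_const {i j : ι} (hij : i ≠ j) {f : ℝ → M} {x y : ℝ} (hxy : x ≤ y)
    (hf : ContinuousOn f (Icc x y))
    (h : ∀ r ∈ Icc x y, |P.pos i (f r)| ≤ 1 ∧ |P.pos j (f r)| ≤ 1) :
    P.sgn i j (f x) = P.sgn i j (f y) := by
  by_contra hne
  have hpre := (isPreconnected_Icc (a := x) (b := y))
  rw [isPreconnected_closed_iff] at hpre
  have hcl : ∀ ε : ℝ, ∃ t : Set ℝ, IsClosed t ∧ Icc x y ∩ t = {r | r ∈ Icc x y ∧ P.sgn i j (f r) = ε} := by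
    intro ε
    obtain ⟨t, ht, htt⟩ := (continuousOn_iff_isClosed.1 hf) _ (P.sgn_closed i j hij ε)
    refine ⟨t, ht, ?_⟩
    rw [inter_comm, ← htt]
    ext r
    constructor
    · rintro ⟨h1, h2⟩
      exact ⟨h2, h1.2.2⟩
    · rintro ⟨h1, h2⟩
      exact ⟨⟨(h r h1).1, (h r h1).2, h2⟩, h1⟩
  obtain ⟨t, ht, htt⟩ := hcl 1
  obtain ⟨t', ht', htt'⟩ := hcl (-1)
  have key : ∀ ε : ℝ, ∀ r ∈ Icc x y, P.sgn i j (f r) = ε → (ε = 1 → r ∈ t) ∧ (ε = -1 → r ∈ t') := by
    intro ε r hr hε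
    constructor
    · rintro rfl
      have : r ∈ Icc x y ∩ t := by rw [htt]; exact ⟨hr, hε⟩
      exact this.2
    · rintro rfl
      have : r ∈ Icc x y ∩ t' := by rw [htt']; exact ⟨hr, hε⟩
      exact this.2
  have hx : x ∈ Icc x y := left_mem_Icc.2 hxy
  have hy : y ∈ Icc x y := right_mem_Icc.2 hxy
  have := hpre t t' ht ht' (by
    intro r hr
    rcases P.sgn_mem i j (f r) with h1 | h1
    · exact Or.inl ((key 1 r hr h1).1 rfl)
    · exact Or.inr ((key (-1) r hr h1).2 rfl)) (by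
    rcases P.sgn_mem i j (f x) with h1 | h1
    · exact ⟨x, hx, (key 1 x hx h1).1 rfl⟩
    · rcases P.sgn_mem i j (f y) with h2 | h2
      · exact ⟨y, hy, (key 1 y hy h2).1 rfl⟩
      · exact absurd (h1.trans h2.symm) hne) (by
    rcases P.sgn_mem i j (f x) with h1 | h1
    · rcases P.sgn_mem i j (f y) with h2 | h2
      · exact absurd (h1.trans h2.symm) hne
      · exact ⟨y, hy, (key (-1) y hy h2).2 rfl⟩
    · exact ⟨x, hx, (key (-1) x hx h1).2 rfl⟩)
  obtain ⟨r, hr, hr1, hr2⟩ := this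
  have e1 : r ∈ Icc x y ∩ t := ⟨hr, hr1⟩
  have e2 : r ∈ Icc x y ∩ t' := ⟨hr, hr2⟩
  rw [htt] at e1
  rw [htt'] at e2
  have := e1.2.symm.trans e2.2
  norm_num at this

/-- Local structure at a point: comparison with one label. -/
theorem local_one (hEF : E ≠ F) (ha : IsLab E F a) (hE : |P.pos E v| < 1) (hF : |P.pos F v| ≤ 1)
    (h : P.Thru E a v) :
    ∀ᶠ u in 𝓝 v, SignType.sign (a.2.1 * P.pos a.1 u - 1) =
      SignType.sign (P.typ E F a v * (P.pos F u - P.pos F (P.cur E a (P.pos E u)))) := by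
  have hB : |P.pos a.1 v| ≤ 1 := by rw [h.1]; exact abs_del ha
  have hm := P.mono E F a.1 hEF ha.neE.symm ha.neF.symm v hE.le hF hB
  have hcur : Tendsto (fun u => P.cur E a (P.pos E u)) (𝓝 v) (𝓝 v) := by
    have h1 : ContinuousAt (P.cur E a) (P.pos E v) := cur_contAt ha hE
    have h2 : ContinuousAt (fun u => P.cur E a (P.pos E u)) v :=
      ContinuousAt.comp (g := P.cur E a) h1 (P.cont_pos E).continuousAt
    have h3 := h2.tendsto
    simp only [cur_eq ha hE.le h] at h3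
    exact h3
  have hE' : ∀ᶠ u in 𝓝 v, |P.pos E u| < 1 :=
    ((P.cont_pos E).abs.continuousAt.eventually_lt continuousAt_const hE)
  have := (tendsto_id.prodMk_nhds hcur).eventually hm
  filter_upwards [this, hE'] with u hu hEu
  have h1 := hu (by simp only [id]; rw [cur_posE ha hEu.le])
  simp only [id] at h1
  rw [cur_posB ha hEu.le] at h1
  have h2 : a.2.1 * P.pos a.1 u - 1 = a.2.1 * (P.pos a.1 u - a.2.1) := by
    rw [mul_sub, pm_mul_self ha.del]
  have h3 : P.typ E F a v * (P.pos F u - P.pos F (P.cur E a (P.pos E u))) =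
      a.2.1 * (P.sgn E F v * P.sgn E a.1 v * (P.pos F u - P.pos F (P.cur E a (P.pos E u)))) := by
    rw [typ, h.2]
    ring
  rw [h2, h3, sign_mul, sign_mul (a.2.1), h1]

/-- The speed with which two curves through a point cross. -/
def kap (P : PosSys ι M) (E : ι) (a b : ι × ℝ × ℝ) (v : M) : ℝ := b.2.1 * P.sgn a.1 E v * P.sgn a.1 b.1 v

theorem kap_mem (hb : IsLab E F b) : kap P E a b v = 1 ∨ kap P E a b v = -1 :=
  pm_mul (pm_mul hb.del (P.sgn_mem _ _ v)) (P.sgn_mem _ _ v)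

theorem local_two (hab : a.1 ≠ b.1) (ha : IsLab E F a) (hb : IsLab E F b)
    (hE : |P.pos E v| < 1) (hta : P.Thru E a v) (htb : P.Thru E b v) :
    ∀ᶠ r in 𝓝 (P.pos E v), SignType.sign (P.ex E a b r) =
      SignType.sign (kap P E a b v * (r - P.pos E v)) := by
  have hA : |P.pos a.1 v| ≤ 1 := by rw [hta.1]; exact abs_del ha
  have hB : |P.pos b.1 v| ≤ 1 := by rw [htb.1]; exact abs_del hb
  have hm := P.mono a.1 E b.1 ha.neE hab hb.neE.symm v hA hE.le hB
  have hcur : Tendsto (P.cur E a) (𝓝 (P.pos E v)) (𝓝 v) := by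
    have h1 : ContinuousAt (P.cur E a) (P.pos E v) := cur_contAt ha hE
    have h3 := h1.tendsto
    rwa [cur_eq ha hE.le hta] at h3
  have hr' : ∀ᶠ r in 𝓝 (P.pos E v), |r| < 1 :=
    continuous_abs.continuousAt.eventually_lt continuousAt_const hE
  have := (hcur.prodMk_nhds (tendsto_const_nhds (x := v))).eventually hm
  filter_upwards [this, hr'] with r hu hr
  have h1 := hu (by rw [cur_posB ha hr.le, hta.1])
  rw [cur_posE ha hr.le] at h1
  have h2 : P.ex E a b r = b.2.1 * (P.pos b.1 (P.cur E a r) - P.pos b.1 v) := by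
    rw [ex, htb.1, mul_sub, pm_mul_self hb.del]
  have h3 : kap P E a b v * (r - P.pos E v) =
      b.2.1 * (P.sgn a.1 E v * P.sgn a.1 b.1 v * (r - P.pos E v)) := by
    rw [kap]; ring
  rw [h2, h3, sign_mul, sign_mul (b.2.1), h1]

theorem local_ex (hEF : E ≠ F) (ha : IsLab E F a) (hb : IsLab E F b)
    (hE : |P.pos E v| < 1) (hF : |P.pos F v| ≤ 1) (hta : P.Thru E a v) (htb : P.Thru E b v) :
    ∀ᶠ r in 𝓝 (P.pos E v), SignType.sign (P.ex E a b r) =
      SignType.sign (P.typ E F b v * (P.pos F (P.cur E a r) - P.pos F (P.cur E b r))) := by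
  have h := local_one hEF hb hE hF htb
  have hcur : Tendsto (P.cur E a) (𝓝 (P.pos E v)) (𝓝 v) := by
    have h1 : ContinuousAt (P.cur E a) (P.pos E v) := cur_contAt ha hE
    have h3 := h1.tendsto
    rwa [cur_eq ha hE.le hta] at h3
  have hr' : ∀ᶠ r in 𝓝 (P.pos E v), |r| < 1 :=
    continuous_abs.continuousAt.eventually_lt continuousAt_const hE
  filter_upwards [hcur.eventually h, hr'] with r hu hr
  rw [cur_posE ha hr.le] at hu
  exact hu

/-- Labels of the same type: exactly one of the curves is cut off. -/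
theorem ex_same (hEF : E ≠ F) (ha : IsLab E F a) (hb : IsLab E F b)
    (hE : |P.pos E v| < 1) (hF : |P.pos F v| ≤ 1) (hta : P.Thru E a v) (htb : P.Thru E b v)
    (ht : P.typ E F a v = P.typ E F b v) :
    ∀ᶠ r in 𝓝 (P.pos E v), SignType.sign (P.ex E b a r) = -SignType.sign (P.ex E a b r) := by
  filter_upwards [local_ex hEF ha hb hE hF hta htb, local_ex hEF hb ha hE hF htb hta] with r h1 h2
  rw [h1, h2, ht, sign_mul, sign_mul, ← mul_neg, ← Left.sign_neg, neg_sub]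

/-- Labels of different types: both curves are cut off, or none. -/
theorem ex_diff (hEF : E ≠ F) (ha : IsLab E F a) (hb : IsLab E F b)
    (hE : |P.pos E v| < 1) (hF : |P.pos F v| ≤ 1) (hta : P.Thru E a v) (htb : P.Thru E b v)
    (ht : P.typ E F a v = -P.typ E F b v) :
    ∀ᶠ r in 𝓝 (P.pos E v), SignType.sign (P.ex E b a r) = SignType.sign (P.ex E a b r) := by
  filter_upwards [local_ex hEF ha hb hE hF hta htb, local_ex hEF hb ha hE hF htb hta] with r h1 h2
  rw [h1, h2, ht, neg_mul, ← mul_neg, neg_sub]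

end PosSys

end HyperplaneTransversals
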