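import Pool.Agent.Lib.MP_b2e5b9_co.Fat.Core1

/-!
# First and last exposures, births of gaps
-/

set_option autoImplicit false

open Set Filter
open scoped Topology

namespace HyperplaneTransversals

/-- The end of a free interval. -/
theorem exists_end {J : Set ℝ} (hJ : IsOpen J) {r x : ℝ} (hr : ∀ᶠ y in 𝓝[>] r, y ∈ J)
    (hx : r < x) (hxJ : x ∉ J) : ∃ e, r < e ∧ e ≤ x ∧ Ioo r e ⊆ J ∧ e ∉ J := by
  obtain ⟨y, hy, hyJ⟩ := (mem_nhdsGT_iff_exists_Ioo_subset.1 hr)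
  have hry : r < y := hy
  have hxy : y ≤ x := by
    by_contra h
    exact hxJ (hyJ ⟨hx, not_le.1 h⟩)
  set z := (r + y) / 2 with hz
  have hrz : r < z := by rw [hz]; linarith
  have hzy : z < y := by rw [hz]; linarith
  have hcl : IsClosed (Jᶜ ∩ Ici z) := hJ.isClosed_compl.inter isClosed_Ici
  have hne : (Jᶜ ∩ Ici z).Nonempty := ⟨x, hxJ, (hzy.le.trans hxy)⟩
  have hbd : BddBelow (Jᶜ ∩ Ici z) := ⟨z, fun u hu => hu.2⟩
  have hmem := hcl.csInf_mem hne hbd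
  refine ⟨sInf (Jᶜ ∩ Ici z), hrz.trans_le hmem.2, csInf_le hbd ⟨hxJ, hzy.le.trans hxy⟩, ?_, hmem.1⟩
  intro u hu
  by_contra huJ
  rcases lt_or_ge u z with h | h
  · exact huJ (hyJ ⟨hu.1, h.trans hzy⟩)
  · exact absurd (csInf_le hbd ⟨huJ, h⟩) (not_le.2 hu.2)

namespace PosSys

variable {ι M : Type} [TopologicalSpace M] (P : PosSys ι M)

/-- First exposure. -/
def Fst (E : ι) (a : ι × ℝ × ℝ) (v : M) : Prop := ∀ r ∈ Ico (-1) (P.pos E v), P.cur E a r ∉ P.T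

/-- Last exposure. -/
def Lst (E : ι) (a : ι × ℝ × ℝ) (v : M) : Prop := ∀ r ∈ Ioc (P.pos E v) 1, P.cur E a r ∉ P.T

variable {P} {E F : ι} {a b c : ι × ℝ × ℝ} {v : M} {r : ℝ}

theorem ex_contOn (ha : IsLab E F a) : ContinuousOn (P.ex E a b) (Icc (-1) 1) := by
  unfold ex
  exact (continuousOn_const.mul ((P.cont_pos b.1).comp_continuousOn (cur_contOn ha))).sub
    continuousOn_const

theorem ex_nonpos (hb : IsLab E F b) (h : |P.pos b.1 (P.cur E a r)| ≤ 1) : P.ex E a b r ≤ 0 := by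
  unfold ex
  have := abs_le.1 h
  rcases hb.del with h1 | h1 <;> rw [h1] <;> linarith

theorem ex_neg (hb : IsLab E F b) (h : |P.pos b.1 (P.cur E a r)| < 1) : P.ex E a b r < 0 := by
  unfold ex
  have := abs_lt.1 h
  rcases hb.del with h1 | h1 <;> rw [h1] <;> linarith

theorem pos_of_ex_zero (hb : IsLab E F b) (h : P.ex E a b r = 0) :
    P.pos b.1 (P.cur E a r) = b.2.1 := by
  unfold ex at h
  rcases hb.del with h1 | h1 <;> rw [h1] at h ⊢ <;> linarith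

theorem third_before (ha : IsLab E F a) (hb : IsLab E F b) {r₀ : ℝ} (hr₀ : |r₀| < 1)
    (hr : r ∈ Ico (-1) r₀) (h1 : P.cur E a r ∈ P.T)
    (hex : ∀ᶠ y in 𝓝[<] r₀, 0 < P.ex E a b y) :
    ∃ y ∈ Ico (-1) r₀, P.pos b.1 (P.cur E a y) = b.2.1 := by
  have h2 : ∀ᶠ y in 𝓝[<] r₀, y ∈ Ioo r r₀ := Ioo_mem_nhdsLT hr.2
  obtain ⟨y, hy1, hy2⟩ := (hex.and h2).exists
  have hlt := abs_lt.1 hr₀
  have hsub : Icc r y ⊆ Icc (-1) 1 := fun z hz => ⟨hr.1.trans hz.1, by linarith [hz.2, hy2.2]⟩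
  have := intermediate_value_Icc hy2.1.le ((ex_contOn (P := P) (b := b) ha).mono hsub)
  obtain ⟨z, hz, hz0⟩ := this ⟨ex_nonpos hb (h1 b.1), hy1.le⟩
  exact ⟨z, ⟨hr.1.trans hz.1, hz.2.trans_lt hy2.2⟩, pos_of_ex_zero hb hz0⟩

theorem third_after (ha : IsLab E F a) (hb : IsLab E F b) {r₀ : ℝ} (hr₀ : |r₀| < 1)
    (hr : r ∈ Ioc r₀ 1) (h1 : P.cur E a r ∈ P.T)
    (hex : ∀ᶠ y in 𝓝[>] r₀, 0 < P.ex E a b y) :
    ∃ y ∈ Ioc r₀ 1, P.pos b.1 (P.cur E a y) = b.2.1 := by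
  have h2 : ∀ᶠ y in 𝓝[>] r₀, y ∈ Ioo r₀ r := Ioo_mem_nhdsGT hr.1
  obtain ⟨y, hy1, hy2⟩ := (hex.and h2).exists
  have hlt := abs_lt.1 hr₀
  have hsub : Icc y r ⊆ Icc (-1) 1 := fun z hz => ⟨by linarith [hz.1, hy2.1], hz.2.trans hr.2⟩
  have := intermediate_value_Icc' hy2.2.le ((ex_contOn (P := P) (b := b) ha).mono hsub)
  obtain ⟨z, hz, hz0⟩ := this ⟨ex_nonpos hb (h1 b.1), hy1.le⟩
  exact ⟨z, ⟨hy2.1.trans_le hz.1, hz.2.trans hr.2⟩, pos_of_ex_zero hb hz0⟩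

/-- Three common points of two curves. -/
theorem no_three (hab : a.1 ≠ b.1) (ha : IsLab E F a) (hb : IsLab E F b) {u w z : M}
    (hu1 : P.pos a.1 u = a.2.1) (hu2 : P.pos b.1 u = b.2.1)
    (hw1 : P.pos a.1 w = a.2.1) (hw2 : P.pos b.1 w = b.2.1)
    (hz1 : P.pos a.1 z = a.2.1) (hz2 : P.pos b.1 z = b.2.1)
    (h1 : P.pos E u < P.pos E w) (h2 : P.pos E w < P.pos E z) : False := by
  rcases three_pts hab (by rw [hu1]; exact abs_del ha) (by rw [hu2]; exact abs_del hb)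
    (hu1.trans hw1.symm) (hu2.trans hw2.symm) (hu1.trans hz1.symm) (hu2.trans hz2.symm) with
    h | h | h <;> have h' := congrArg (P.pos E) h <;> linarith

theorem fl_aux (hab : a.1 ≠ b.1) (ha : IsLab E F a) (hb : IsLab E F b)
    (hE : |P.pos E v| < 1) (hta : P.Thru E a v) (htb : P.Thru E b v)
    (h1 : ∀ᶠ r in 𝓝[<] (P.pos E v), 0 < P.ex E a b r)
    (h2 : ∀ᶠ r in 𝓝[>] (P.pos E v), 0 < P.ex E b a r) : P.Fst E a v ∨ P.Lst E b v := by
  by_contra hcon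
  rw [not_or] at hcon
  obtain ⟨hc1, hc2⟩ := hcon
  unfold Fst at hc1
  unfold Lst at hc2
  push Not at hc1 hc2
  obtain ⟨r1, hr1, hT1⟩ := hc1
  obtain ⟨r2, hr2, hT2⟩ := hc2
  obtain ⟨y1, hy1, hp1⟩ := third_before ha hb hE hr1 hT1 h1
  obtain ⟨y2, hy2, hp2⟩ := third_after hb ha hE hr2 hT2 h2
  have hlt := abs_lt.1 hE
  have e1 : |y1| ≤ 1 := abs_le.2 ⟨hy1.1, by linarith [hy1.2]⟩
  have e2 : |y2| ≤ 1 := abs_le.2 ⟨by linarith [hy2.1], hy2.2⟩
  refine no_three (u := P.cur E a y1) (w := v) (z := P.cur E b y2) hab ha hb (cur_posB ha e1) hp1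
    hta.1 htb.1 hp2 (cur_posB hb e2) ?_ ?_
  · rw [cur_posE ha e1]; exact hy1.2
  · rw [cur_posE hb e2]; exact hy2.1

theorem sign_before {f : ℝ → ℝ} {r₀ k : ℝ} (hk : k = -1)
    (h : ∀ᶠ r in 𝓝 r₀, SignType.sign (f r) = SignType.sign (k * (r - r₀))) :
    (∀ᶠ r in 𝓝[<] r₀, 0 < f r) ∧ ∀ᶠ r in 𝓝[>] r₀, f r < 0 := by
  subst hk
  constructor
  · filter_upwards [h.filter_mono nhdsWithin_le_nhds, self_mem_nhdsWithin] with r h1 h2
    have h2' : r < r₀ := h2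
    rw [← sign_eq_one_iff, h1, sign_eq_one_iff]
    linarith
  · filter_upwards [h.filter_mono nhdsWithin_le_nhds, self_mem_nhdsWithin] with r h1 h2
    have h2' : r₀ < r := h2
    rw [← sign_eq_neg_one_iff, h1, sign_eq_neg_one_iff]
    linarith

theorem sign_after {f : ℝ → ℝ} {r₀ k : ℝ} (hk : k = 1)
    (h : ∀ᶠ r in 𝓝 r₀, SignType.sign (f r) = SignType.sign (k * (r - r₀))) :
    (∀ᶠ r in 𝓝[<] r₀, f r < 0) ∧ ∀ᶠ r in 𝓝[>] r₀, 0 < f r := by
  subst hk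
  constructor
  · filter_upwards [h.filter_mono nhdsWithin_le_nhds, self_mem_nhdsWithin] with r h1 h2
    have h2' : r < r₀ := h2
    rw [← sign_eq_neg_one_iff, h1, sign_eq_neg_one_iff]
    linarith
  · filter_upwards [h.filter_mono nhdsWithin_le_nhds, self_mem_nhdsWithin] with r h1 h2
    have h2' : r₀ < r := h2
    rw [← sign_eq_one_iff, h1, sign_eq_one_iff]
    linarith

theorem fl (hEF : E ≠ F) (hab : a.1 ≠ b.1) (ha : IsLab E F a) (hb : IsLab E F b)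
    (hE : |P.pos E v| < 1) (hF : |P.pos F v| ≤ 1) (hta : P.Thru E a v) (htb : P.Thru E b v)
    (ht : P.typ E F a v = P.typ E F b v) :
    ∃ c, IsLab E F c ∧ P.Thru E c v ∧ (P.Fst E c v ∨ P.Lst E c v) := by
  have h1 := local_two hab ha hb hE hta htb
  have h2 := ex_same hEF ha hb hE hF hta htb ht
  have h3 : ∀ᶠ r in 𝓝 (P.pos E v), SignType.sign (P.ex E b a r) =
      SignType.sign (-kap P E a b v * (r - P.pos E v)) := by
    filter_upwards [h1, h2] with r h1 h2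
    rw [h2, h1, neg_mul, Left.sign_neg]
  rcases kap_mem (P := P) (v := v) (a := a) hb with hk | hk
  · have e1 := sign_after hk h1
    have e2 := sign_before (by rw [hk]) h3
    rcases fl_aux hab.symm hb ha hE htb hta e2.1 e1.2 with h | h
    · exact ⟨b, hb, htb, Or.inl h⟩
    · exact ⟨a, ha, hta, Or.inr h⟩
  · have e1 := sign_before hk h1
    have e2 := sign_after (by rw [hk]; norm_num) h3
    rcases fl_aux hab ha hb hE hta htb e1.1 e2.2 with h | h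
    · exact ⟨a, ha, hta, Or.inl h⟩
    · exact ⟨b, hb, htb, Or.inr h⟩

theorem fst_of_two (hab : a.1 ≠ b.1) (ha : IsLab E F a) (hb : IsLab E F b)
    (hE : |P.pos E v| < 1) (hta : P.Thru E a v) (htb : P.Thru E b v) {w : M}
    (hwa : P.Thru E a w) (hwb : P.Thru E b w) (hvw : P.pos E v < P.pos E w)
    (h1 : ∀ᶠ r in 𝓝[<] (P.pos E v), 0 < P.ex E a b r) : P.Fst E a v := by
  intro r hr hT
  obtain ⟨y1, hy1, hp1⟩ := third_before ha hb hE hr hT h1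
  have hlt := abs_lt.1 hE
  have e1 : |y1| ≤ 1 := abs_le.2 ⟨hy1.1, by linarith [hy1.2]⟩
  refine no_three (u := P.cur E a y1) (w := v) (z := w) hab ha hb (cur_posB ha e1) hp1
    hta.1 htb.1 hwa.1 hwb.1 ?_ hvw
  rw [cur_posE ha e1]; exact hy1.2

end PosSys

end HyperplaneTransversals
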