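import Pool.Agent.Lib.MP_b2e5b9_co.Fat.Core2

/-!
# Births of gaps
-/

set_option autoImplicit false

open Set Filter
open scoped Topology

namespace HyperplaneTransversals

namespace PosSys

variable {ι M : Type} [TopologicalSpace M] (P : PosSys ι M)

/-- Two labels of the same type pass through `v`. -/
def Multi (E F : ι) (v : M) : Prop :=
  v ∈ P.T ∧ |P.pos E v| < 1 ∧ |P.pos F v| < 1 ∧ ∃ a b, IsLab E F a ∧ IsLab E F b ∧ a.1 ≠ b.1 ∧
    P.Thru E a v ∧ P.Thru E b v ∧ P.typ E F a v = P.typ E F b v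

/-- The data of a gap between the curves of `a` and `b`, starting at `v` and open until `e`. -/
structure Gap (E F : ι) (t : ℝ) (a b : ι × ℝ × ℝ) (v : M) (e : ℝ) : Prop where
  hEF : E ≠ F
  ha : IsLab E F a
  hb : IsLab E F b
  hab : a.1 ≠ b.1
  hE : |P.pos E v| < 1
  hF : |P.pos F v| < 1
  hta : P.Thru E a v
  htb : P.Thru E b v
  lt : P.pos E v < e
  le : e ≤ 1
  ty : P.typ E F a v = -t
  tp : t = 1 ∨ t = -1
  sfa : ∀ r ∈ Ioo (P.pos E v) e, P.sf E a r
  sfb : ∀ r ∈ Ioo (P.pos E v) e, P.sf E b r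
  slt : ∀ r ∈ Ioo (P.pos E v) e, t * P.pos F (P.cur E a r) < t * P.pos F (P.cur E b r)
  sga : ∀ r ∈ Icc (P.pos E v) e, P.sgn E F (P.cur E a r) = P.sgn E F v
  sgb : ∀ r ∈ Icc (P.pos E v) e, P.sgn E F (P.cur E b r) = P.sgn E F v
  simple : ∀ c, IsLab E F c → P.Thru E c v → c = a ∨ c = b
  ex_pos : ∀ᶠ r in 𝓝[<] (P.pos E v), 0 < P.ex E a b r

variable {P} {E F : ι} {a b c : ι × ℝ × ℝ} {v : M} {r e t : ℝ}

theorem abs_of_between {x y z t : ℝ} (ht : t = 1 ∨ t = -1) (hx : |x| < 1) (hz : |z| < 1)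
    (h1 : t * x < t * y) (h2 : t * y < t * z) : |y| < 1 := by
  rw [abs_lt] at *
  rcases ht with rfl | rfl <;> constructor <;> linarith [hx.1, hx.2, hz.1, hz.2]

/-- No other curve runs inside the gap. -/
theorem Gap.free (g : P.Gap E F t a b v e) (hc : IsLab E F c) (hr : r ∈ Ioo (P.pos E v) e)
    (hs : P.sgn E F (P.cur E c r) = P.sgn E F v)
    (h1 : t * P.pos F (P.cur E a r) < t * P.pos F (P.cur E c r))
    (h2 : t * P.pos F (P.cur E c r) < t * P.pos F (P.cur E b r)) : False := by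
  set r₀ := P.pos E v with hr₀
  have hlt := abs_lt.1 g.hE
  have habs : ∀ r ∈ Ioo r₀ e, |r| < 1 := fun r hr =>
    abs_lt.2 ⟨by linarith [hr.1], by linarith [hr.2, g.le]⟩
  set G : Set ℝ := {r | r ∈ Ioo r₀ e ∧ P.sgn E F (P.cur E c r) = P.sgn E F v ∧
    t * P.pos F (P.cur E a r) < t * P.pos F (P.cur E c r) ∧
    t * P.pos F (P.cur E c r) < t * P.pos F (P.cur E b r)} with hG
  have hcont : ∀ {d : ι × ℝ × ℝ}, IsLab E F d → ∀ {y : ℝ}, |y| < 1 →
      ContinuousAt (fun y => t * P.pos F (P.cur E d y)) y := by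
    intro d hd y hy
    exact continuousAt_const.mul
      (ContinuousAt.comp (g := P.pos F) (P.cont_pos F).continuousAt (cur_contAt hd hy))
  have hopen : IsOpen G := by
    rw [isOpen_iff_mem_nhds]
    rintro y ⟨hy, hy1, hy2, hy3⟩
    have hya := habs y hy
    have k1 : ∀ᶠ z in 𝓝 y, z ∈ Ioo r₀ e := Ioo_mem_nhds hy.1 hy.2
    have k2 := (hcont g.ha hya).eventually_lt (hcont hc hya) hy2
    have k3 := (hcont hc hya).eventually_lt (hcont g.hb hya) hy3
    have hF' : |P.pos F (P.cur E c y)| < 1 :=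
      abs_of_between g.tp (g.sfa y hy F g.ha.neF.symm) (g.sfb y hy F g.hb.neF.symm) hy2 hy3
    have k4 := (cur_contAt (P := P) hc hya).eventually
      (sgn_eventually (P := P) g.hEF (by rw [cur_posE hc hya.le]; exact hya) hF')
    filter_upwards [k1, k2, k3, k4] with z z1 z2 z3 z4
    exact ⟨z1, z4.trans hy1, z2, z3⟩
  -- limits of points of `G`
  have hlim : ∀ y, y ∈ Icc r₀ e → |y| < 1 → y ∈ closure G →
      P.sgn E F (P.cur E c y) = P.sgn E F v ∧
      t * P.pos F (P.cur E a y) ≤ t * P.pos F (P.cur E c y) ∧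
      t * P.pos F (P.cur E c y) ≤ t * P.pos F (P.cur E b y) := by
    intro y hy hya hcl
    have hfr := mem_closure_iff_frequently.1 hcl
    refine ⟨?_, ?_, ?_⟩
    · have h3 : P.cur E c y ∈ {h | |P.pos E h| ≤ 1 ∧ |P.pos F h| ≤ 1 ∧ P.sgn E F h = P.sgn E F v} := by
        refine (P.sgn_closed E F g.hEF _).mem_of_frequently_of_tendsto ?_
          (cur_contAt (P := P) hc hya).tendsto
        refine hfr.mono ?_
        rintro z ⟨hz, hz1, hz2, hz3⟩
        exact ⟨by rw [cur_posE hc (habs z hz).le]; exact (habs z hz).le,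
          (abs_of_between g.tp (g.sfa z hz F g.ha.neF.symm) (g.sfb z hz F g.hb.neF.symm) hz2 hz3).le,
          hz1⟩
      exact h3.2.2
    · have h3 : t * P.pos F (P.cur E c y) - t * P.pos F (P.cur E a y) ∈ Ici (0 : ℝ) := by
        refine isClosed_Ici.mem_of_frequently_of_tendsto ?_
          ((hcont hc hya).sub (hcont g.ha hya)).tendsto
        refine hfr.mono ?_
        rintro z ⟨hz, hz1, hz2, hz3⟩
        exact sub_nonneg.2 hz2.le
      exact sub_nonneg.1 h3
    · have h3 : t * P.pos F (P.cur E b y) - t * P.pos F (P.cur E c y) ∈ Ici (0 : ℝ) := by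
        refine isClosed_Ici.mem_of_frequently_of_tendsto ?_
          ((hcont g.hb hya).sub (hcont hc hya)).tendsto
        refine hfr.mono ?_
        rintro z ⟨hz, hz1, hz2, hz3⟩
        exact sub_nonneg.2 hz3.le
      exact sub_nonneg.1 h3
  -- two curves through the same point of the column
  have hsame : ∀ {d : ι × ℝ × ℝ}, IsLab E F d → ∀ {y : ℝ}, y ∈ Ioo r₀ e → P.sf E d y →
      P.sgn E F (P.cur E d y) = P.sgn E F v → P.sgn E F (P.cur E c y) = P.sgn E F v →
      t * P.pos F (P.cur E d y) = t * P.pos F (P.cur E c y) → d = c := by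
    intro d hd y hy hsf e1 e2 e3
    have hya := habs y hy
    have e4 : P.pos F (P.cur E d y) = P.pos F (P.cur E c y) := by
      rcases g.tp with h | h <;> rw [h] at e3 <;> linarith
    have e5 : P.cur E d y = P.cur E c y :=
      eq_of_pos g.hEF (by rw [cur_posE hd hya.le]; exact hya.le) (hsf F hd.neF.symm).le
        (by rw [cur_posE hd hya.le, cur_posE hc hya.le]) e4 (e1.trans e2.symm)
    have e6 : d.1 = c.1 := by
      by_contra hne
      have := hsf c.1 (fun h => hne h.symm)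
      rw [e5, cur_posB hc hya.le, pm_abs hc.del] at this
      exact lt_irrefl _ this
    have e7 : d.2.1 = c.2.1 := by
      rw [← cur_posB (P := P) hd hya.le, ← cur_posB (P := P) hc hya.le, e5, e6]
    have e8 : d.2.2 = c.2.2 := by
      rw [← cur_sgn (P := P) hd hya.le, ← cur_sgn (P := P) hc hya.le, e5, e6]
    exact Prod.ext e6 (Prod.ext e7 e8)
  have hclosed : closure G ∩ Ioo r₀ e ⊆ G := by
    rintro y ⟨hy1, hy2⟩
    obtain ⟨l1, l2, l3⟩ := hlim y ⟨hy2.1.le, hy2.2.le⟩ (habs y hy2) hy1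
    have hyI : y ∈ Icc r₀ e := ⟨hy2.1.le, hy2.2.le⟩
    refine ⟨hy2, l1, lt_of_le_of_ne l2 ?_, lt_of_le_of_ne l3 ?_⟩
    · intro h
      have hac := hsame g.ha hy2 (g.sfa y hy2) (g.sga y hyI) l1 h
      rw [hac] at h1
      exact lt_irrefl _ h1
    · intro h
      have hbc := hsame g.hb hy2 (g.sfb y hy2) (g.sgb y hyI) l1 h.symm
      rw [hbc] at h2
      exact lt_irrefl _ h2
  have hall : Ioo r₀ e ⊆ G :=
    isPreconnected_Ioo.subset_of_closure_inter_subset hopen ⟨r, hr, hr, hs, h1, h2⟩ hclosed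
  have hr₀cl : r₀ ∈ closure G := by
    refine closure_mono hall ?_
    rw [closure_Ioo g.lt.ne]
    exact left_mem_Icc.2 g.lt.le
  obtain ⟨l1, l2, l3⟩ := hlim r₀ (left_mem_Icc.2 g.lt.le) g.hE hr₀cl
  have ea : P.cur E a r₀ = v := cur_eq g.ha g.hE.le g.hta
  have eb : P.cur E b r₀ = v := cur_eq g.hb g.hE.le g.htb
  rw [ea] at l2
  rw [eb] at l3
  have e4 : P.pos F v = P.pos F (P.cur E c r₀) := by
    have := le_antisymm l2 l3
    rcases g.tp with h | h <;> rw [h] at this <;> linarith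
  have e5 : v = P.cur E c r₀ :=
    eq_of_pos g.hEF g.hE.le g.hF.le (by rw [cur_posE hc g.hE.le]) e4 l1.symm
  have e6 : P.Thru E c v := by
    rw [e5]
    exact thru_cur hc g.hE.le
  rcases g.simple c hc e6 with h | h
  · rw [h] at h1; exact lt_irrefl _ h1
  · rw [h] at h2; exact lt_irrefl _ h2

/-- What happens at the end of a gap, when the curve of `a` stops being free. -/
theorem Gap.at_end (g : P.Gap E F t a b v e) (he : e < 1) (hsf : ¬ P.sf E a e) :
    P.Fst E a v ∨ |P.pos F (P.cur E a e)| = 1 ∨ P.Multi E F (P.cur E a e) := by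
  set r₀ := P.pos E v with hr₀
  have hlt := abs_lt.1 g.hE
  have hea : |e| < 1 := abs_lt.2 ⟨by linarith [g.lt], he⟩
  have hcont : ∀ {d : ι × ℝ × ℝ}, IsLab E F d → ∀ l, ContinuousAt (fun y => P.pos l (P.cur E d y)) e :=
    fun hd l => ContinuousAt.comp (g := P.pos l) (P.cont_pos l).continuousAt (cur_contAt hd hea)
  have hbef : ∀ᶠ y in 𝓝[<] e, y ∈ Ioo r₀ e := Ioo_mem_nhdsLT g.lt
  set w := P.cur E a e with hw
  have hwa : P.Thru E a w := thru_cur g.ha hea.le
  have hwE : P.pos E w = e := cur_posE g.ha hea.le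
  have hwT : w ∈ P.T := by
    intro l
    by_cases hl : l = a.1
    · rw [hl, hwa.1]
      exact abs_del g.ha
    · have : Tendsto (fun y => |P.pos l (P.cur E a y)|) (𝓝[<] e) (𝓝 |P.pos l w|) :=
        ((hcont g.ha l).abs.tendsto).mono_left nhdsWithin_le_nhds
      refine le_of_tendsto this ?_
      filter_upwards [hbef] with y hy
      exact (g.sfa y hy l hl).le
  obtain ⟨l, hl1, hl2⟩ : ∃ l, l ≠ a.1 ∧ |P.pos l w| = 1 := by
    unfold sf at hsf
    push Not at hsf
    obtain ⟨l, hl, hl'⟩ := hsf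
    exact ⟨l, hl, le_antisymm (hwT l) hl'⟩
  have hlE : l ≠ E := by
    rintro rfl
    rw [hwE] at hl2
    exact hea.ne hl2
  by_cases hFw : |P.pos F w| = 1
  · exact Or.inr (Or.inl hFw)
  have hFw' : |P.pos F w| < 1 := lt_of_le_of_ne (hwT F) hFw
  have hlF : l ≠ F := by
    rintro rfl
    exact hFw hl2
  set c : ι × ℝ × ℝ := (l, P.pos l w, P.sgn E l w) with hc
  have hcl : IsLab E F c := ⟨hlE, hlF, by
    rcases abs_choice (P.pos l w) with h | h
    · left; change P.pos l w = 1; rw [← h, hl2]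
    · right; change P.pos l w = -1; rw [hl2] at h; linarith, P.sgn_mem E l w⟩
  have hwc : P.Thru E c w := ⟨rfl, rfl⟩
  have hwE' : |P.pos E w| < 1 := by rw [hwE]; exact hea
  by_cases htt : P.typ E F a w = P.typ E F c w
  · exact Or.inr (Or.inr ⟨hwT, hwE', hFw', a, c, g.ha, hcl, fun h => hl1 h.symm, hwa, hwc, htt⟩)
  have hsga : P.sgn E F w = P.sgn E F v := g.sga e (right_mem_Icc.2 g.lt.le)
  have hta : P.typ E F a w = -t := by
    rw [← g.ty, typ, typ, hsga]
  have htc : P.typ E F c w = t := by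
    rcases typ_mem (P := P) (v := w) hcl with h | h <;> rcases g.tp with h' | h' <;>
      rw [hta, h, h'] at htt <;> rw [h, h'] <;> norm_num at htt
  have hcure : P.cur E c e = w := by
    rw [← hwE]
    exact cur_eq hcl (by rw [hwE]; exact hea.le) hwc
  -- before `e` the curve of `c` is beyond that of `a`
  have hb1 : ∀ᶠ y in 𝓝[<] e, t * P.pos F (P.cur E a y) < t * P.pos F (P.cur E c y) := by
    have h3 := local_ex g.hEF g.ha hcl hwE' hFw'.le hwa hwc
    rw [hwE] at h3
    filter_upwards [hbef, h3.filter_mono nhdsWithin_le_nhds] with y hy hy'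
    have h4 := ex_neg hcl (g.sfa y hy l hl1)
    rw [← sign_eq_neg_one_iff, hy', htc, sign_eq_neg_one_iff] at h4
    linarith
  have hle : t * P.pos F w ≤ t * P.pos F (P.cur E b e) := by
    have l1 : Tendsto (fun y => t * P.pos F (P.cur E a y)) (𝓝[<] e) (𝓝 (t * P.pos F w)) :=
      ((continuousAt_const.mul (hcont g.ha F)).tendsto).mono_left nhdsWithin_le_nhds
    have l2 : Tendsto (fun y => t * P.pos F (P.cur E b y)) (𝓝[<] e)
        (𝓝 (t * P.pos F (P.cur E b e))) :=
      ((continuousAt_const.mul (hcont g.hb F)).tendsto).mono_left nhdsWithin_le_nhds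
    refine le_of_tendsto_of_tendsto l1 l2 ?_
    filter_upwards [hbef] with y hy
    exact (g.slt y hy).le
  rcases hle.lt_or_eq with hlt' | heq
  · -- the curve of `c` enters the gap
    exfalso
    have h5 : ∀ᶠ y in 𝓝 e, t * P.pos F (P.cur E c y) < t * P.pos F (P.cur E b y) := by
      refine (continuousAt_const.mul (hcont hcl F)).eventually_lt
        (continuousAt_const.mul (hcont g.hb F)) ?_
      change t * P.pos F (P.cur E c e) < t * P.pos F (P.cur E b e)
      rw [hcure]
      exact hlt'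
    have h6 : ∀ᶠ y in 𝓝 e, P.sgn E F (P.cur E c y) = P.sgn E F w := by
      have := (cur_contAt (P := P) hcl hea).tendsto
      rw [hcure] at this
      exact this.eventually (sgn_eventually g.hEF hwE' hFw')
    obtain ⟨y, hy1, hy2, hy3, hy4⟩ := (hbef.and (hb1.and
      ((h5.filter_mono nhdsWithin_le_nhds).and (h6.filter_mono nhdsWithin_le_nhds)))).exists
    exact g.free hcl hy1 (hy4.trans hsga) hy2 hy3
  · -- the gap closes at `e`
    left
    have e1 : P.pos F w = P.pos F (P.cur E b e) := by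
      rcases g.tp with h | h <;> rw [h] at heq <;> linarith
    have e2 : w = P.cur E b e :=
      eq_of_pos g.hEF (by rw [hwE]; exact hea.le) hFw'.le
        (by rw [hwE, cur_posE g.hb hea.le]) e1 (hsga.trans (g.sgb e (right_mem_Icc.2 g.lt.le)).symm)
    have hwb : P.Thru E b w := by
      rw [e2]
      exact thru_cur g.hb hea.le
    exact fst_of_two g.hab g.ha g.hb g.hE g.hta g.htb hwa hwb (by rw [hwE]; exact g.lt) g.ex_pos

end PosSys

end HyperplaneTransversals
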