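import Pool.Agent.Lib.MP_b2e5b9_co.Fat.Core3

/-!
# Births of gaps: charging
-/

set_option autoImplicit false

open Set Filter
open scoped Topology

namespace HyperplaneTransversals

namespace PosSys

variable {ι M : Type} [TopologicalSpace M] (P : PosSys ι M)

/-- The interior vertices: tangent to two bodies, but not to `E` or `F`. -/
def Vb (E F : ι) : Set M :=
  {v | v ∈ P.T ∧ |P.pos E v| < 1 ∧ |P.pos F v| < 1 ∧
    ∃ l l', l ≠ l' ∧ |P.pos l v| = 1 ∧ |P.pos l' v| = 1}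

/-- `v` is charged to the end `e` of a free piece of the curve of `x`. -/
def Charge (E F : ι) (v : M) (x : ι × ℝ × ℝ) (e : ℝ) : Prop :=
  IsLab E F x ∧ P.Thru E x v ∧ P.pos E v < e ∧ e ≤ 1 ∧ (∀ r ∈ Ioo (P.pos E v) e, P.sf E x r) ∧
    (e = 1 ∨ |P.pos F (P.cur E x e)| = 1 ∨ P.Multi E F (P.cur E x e))

variable {P} {E F : ι} {a b c : ι × ℝ × ℝ} {v : M} {r e t : ℝ}

/-- The label of a tangent body. -/
theorem exists_lab {l : ι} (hE : l ≠ E) (hF : l ≠ F) (h : |P.pos l v| = 1) :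
    ∃ a : ι × ℝ × ℝ, IsLab E F a ∧ P.Thru E a v ∧ a.1 = l := by
  refine ⟨(l, P.pos l v, P.sgn E l v), ⟨hE, hF, ?_, P.sgn_mem E l v⟩, ⟨rfl, rfl⟩, rfl⟩
  rcases abs_choice (P.pos l v) with h1 | h1
  · left; change P.pos l v = 1; rw [← h1, h]
  · right; change P.pos l v = -1; rw [h] at h1; linarith

theorem lab_eq (hta : P.Thru E a v) (htb : P.Thru E b v) (h : a.1 = b.1) : a = b := by
  refine Prod.ext h (Prod.ext ?_ ?_)
  · rw [← hta.1, ← htb.1, h]
  · rw [← hta.2, ← htb.2, h]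

theorem sf_after [Finite ι] (hE : |P.pos E v| < 1) (ha : IsLab E F a) (hb : IsLab E F b)
    (hta : P.Thru E a v) (htb : P.Thru E b v)
    (hs : ∀ l, l ≠ a.1 → l ≠ b.1 → |P.pos l v| < 1)
    (hex : ∀ᶠ r in 𝓝[>] (P.pos E v), P.ex E a b r < 0) :
    ∀ᶠ r in 𝓝[>] (P.pos E v), P.sf E a r := by
  have hcur : Tendsto (P.cur E a) (𝓝[>] (P.pos E v)) (𝓝 v) := by
    have h1 : ContinuousAt (P.cur E a) (P.pos E v) := cur_contAt ha hE
    have h3 := h1.tendsto
    rw [cur_eq ha hE.le hta] at h3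
    exact h3.mono_left nhdsWithin_le_nhds
  have h1 : ∀ᶠ r in 𝓝[>] (P.pos E v), ∀ l, l ≠ a.1 → l ≠ b.1 → |P.pos l (P.cur E a r)| < 1 := by
    rw [eventually_all]
    intro l
    by_cases h : l ≠ a.1 ∧ l ≠ b.1
    · have h2 := hcur.eventually
        ((P.cont_pos l).abs.continuousAt.eventually_lt continuousAt_const (hs l h.1 h.2))
      filter_upwards [h2] with r hr _ _
      exact hr
    · exact Eventually.of_forall fun r h1 h2 => absurd ⟨h1, h2⟩ h
  have h2 : ∀ᶠ r in 𝓝[>] (P.pos E v), 0 < b.2.1 * P.pos b.1 (P.cur E a r) := by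
    have h3 : 0 < b.2.1 * P.pos b.1 v := by
      rw [htb.1, pm_mul_self hb.del]
      exact one_pos
    exact hcur.eventually
      ((continuousAt_const (y := (0 : ℝ))).eventually_lt
        (continuousAt_const.mul (P.cont_pos b.1).continuousAt) h3)
  filter_upwards [h1, h2, hex] with r hr1 hr2 hr3 l hl
  by_cases hlb : l = b.1
  · rw [hlb, abs_lt]
    unfold ex at hr3
    rcases hb.del with h | h <;> rw [h] at hr2 hr3 <;> constructor <;> linarith
  · exact hr1 l hl hlb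

/-- The openness of the free set. -/
theorem isOpen_sf [Finite ι] (ha : IsLab E F a) : IsOpen {r | r ∈ Ioo (-1) 1 ∧ P.sf E a r} := by
  rw [isOpen_iff_mem_nhds]
  rintro y ⟨hy, hy1⟩
  have hya : |y| < 1 := abs_lt.2 hy
  have k1 : ∀ᶠ z in 𝓝 y, z ∈ Ioo (-1 : ℝ) 1 := Ioo_mem_nhds hy.1 hy.2
  have k2 : ∀ᶠ z in 𝓝 y, P.sf E a z := by
    unfold sf
    rw [eventually_all]
    intro l
    by_cases hl : l = a.1
    · exact Eventually.of_forall fun z h => absurd hl h
    · have h1 : ContinuousAt (fun z => |P.pos l (P.cur E a z)|) y :=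
        (ContinuousAt.comp (g := P.pos l) (P.cont_pos l).continuousAt (cur_contAt ha hya)).abs
      have h2 := h1.eventually_lt (continuousAt_const (y := (1 : ℝ))) (hy1 l hl)
      filter_upwards [h2] with z hz _
      exact hz
  filter_upwards [k1, k2] with z h1 h2
  exact ⟨h1, h2⟩

/-- The main lemma on births. -/
theorem birth [Finite ι] (hEF : E ≠ F) (hab : a.1 ≠ b.1) (ha : IsLab E F a) (hb : IsLab E F b)
    (hE : |P.pos E v| < 1) (hF : |P.pos F v| < 1)
    (hta : P.Thru E a v) (htb : P.Thru E b v)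
    (hty : P.typ E F a v = -P.typ E F b v)
    (hs : ∀ l, l ≠ a.1 → l ≠ b.1 → |P.pos l v| < 1) (hk : kap P E a b v = -1) :
    P.Fst E a v ∨ P.Fst E b v ∨ ∃ x e, P.Charge E F v x e := by
  set r₀ := P.pos E v with hr₀
  have hlt := abs_lt.1 hE
  have l2 := local_two hab ha hb hE hta htb
  obtain ⟨eb1, eb2⟩ := sign_before hk l2
  have ed := ex_diff hEF ha hb hE hF.le hta htb hty
  have eb3 : ∀ᶠ r in 𝓝[<] r₀, 0 < P.ex E b a r := by
    filter_upwards [eb1, ed.filter_mono nhdsWithin_le_nhds] with r h1 h2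
    rw [← sign_eq_one_iff, h2, sign_eq_one_iff]
    exact h1
  have eb4 : ∀ᶠ r in 𝓝[>] r₀, P.ex E b a r < 0 := by
    filter_upwards [eb2, ed.filter_mono nhdsWithin_le_nhds] with r h1 h2
    rw [← sign_eq_neg_one_iff, h2, sign_eq_neg_one_iff]
    exact h1
  have hsa := sf_after hE ha hb hta htb hs eb2
  have hsb := sf_after hE hb ha htb hta (fun l h1 h2 => hs l h2 h1) eb4
  set t := P.typ E F b v with ht
  have htp : t = 1 ∨ t = -1 := typ_mem hb
  set J : Set ℝ := {r | r ∈ Ioo (-1) 1 ∧ P.sf E a r} ∩ {r | r ∈ Ioo (-1) 1 ∧ P.sf E b r} with hJ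
  have hJo : IsOpen J := (isOpen_sf ha).inter (isOpen_sf hb)
  have hJa : ∀ᶠ r in 𝓝[>] r₀, r ∈ J := by
    have : ∀ᶠ r in 𝓝[>] r₀, r ∈ Ioo (-1 : ℝ) 1 :=
      (Ioo_mem_nhds hlt.1 hlt.2 : Ioo (-1 : ℝ) 1 ∈ 𝓝 r₀) |> fun h =>
        Filter.Eventually.filter_mono nhdsWithin_le_nhds h
    filter_upwards [hsa, hsb, this] with r h1 h2 h3
    exact ⟨⟨h3, h1⟩, ⟨h3, h2⟩⟩
  obtain ⟨e, he1, he2, he3, he4⟩ := exists_end hJo hJa hlt.2 (fun h => lt_irrefl _ h.1.1.2)
  have hsub : ∀ r ∈ Icc r₀ e, r ∈ Icc (-1 : ℝ) 1 := fun r hr =>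
    ⟨by linarith [hr.1], hr.2.trans he2⟩
  have hsg : ∀ {d : ι × ℝ × ℝ}, IsLab E F d → P.Thru E d v → (∀ r ∈ Ioo r₀ e, P.sf E d r) →
      ∀ r ∈ Icc r₀ e, P.sgn E F (P.cur E d r) = P.sgn E F v := by
    intro d hd htd hsd r hr
    have hcl : ∀ y ∈ Icc r₀ e, |P.pos F (P.cur E d y)| ≤ 1 := by
      -- closure of the open interval
      have hcont : ContinuousOn (fun y => |P.pos F (P.cur E d y)|) (Icc r₀ e) :=
        (((P.cont_pos F).comp_continuousOn (cur_contOn hd)).mono hsub).abs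
      have h1 : Icc r₀ e = closure (Ioo r₀ e) := (closure_Ioo he1.ne).symm
      intro y hy
      have h2 : y ∈ closure (Ioo r₀ e) := h1 ▸ hy
      have h3 : (fun y => |P.pos F (P.cur E d y)|) y ∈ Iic (1 : ℝ) := by
        have := ContinuousWithinAt.mem_closure_image
          (((hcont y hy).mono Ioo_subset_Icc_self)) h2
        refine (isClosed_Iic.closure_subset_iff.2 ?_) this
        rintro _ ⟨z, hz, rfl⟩
        exact (hsd z hz F hd.neF.symm).le
      exact h3
    have := sgn_const (P := P) hEF (f := P.cur E d) hr.1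
      ((cur_contOn hd).mono fun y hy => hsub y ⟨hy.1, hy.2.trans hr.2⟩) (by
        intro y hy
        have hy' : y ∈ Icc r₀ e := ⟨hy.1, hy.2.trans hr.2⟩
        refine ⟨?_, hcl y hy'⟩
        rw [cur_posE hd (abs_le.2 (hsub y hy'))]
        exact abs_le.2 (hsub y hy'))
    rw [← this, cur_eq hd hE.le htd]
  have hsfa : ∀ r ∈ Ioo r₀ e, P.sf E a r := fun r hr => (he3 hr).1.2
  have hsfb : ∀ r ∈ Ioo r₀ e, P.sf E b r := fun r hr => (he3 hr).2.2
  have hga := hsg ha hta hsfa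
  have hgb := hsg hb htb hsfb
  have habs : ∀ r ∈ Ioo r₀ e, |r| < 1 := fun r hr => abs_lt.2 (he3 hr).1.1
  -- the curves do not meet on the open interval
  have hne : ∀ r ∈ Ioo r₀ e, P.pos F (P.cur E a r) ≠ P.pos F (P.cur E b r) := by
    intro r hr h
    have hra := habs r hr
    have hrI : r ∈ Icc r₀ e := ⟨hr.1.le, hr.2.le⟩
    have e5 : P.cur E a r = P.cur E b r :=
      eq_of_pos hEF (by rw [cur_posE ha hra.le]; exact hra.le) (hsfa r hr F ha.neF.symm).le
        (by rw [cur_posE ha hra.le, cur_posE hb hra.le]) h ((hga r hrI).trans (hgb r hrI).symm)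
    have := hsfa r hr b.1 (fun h => hab h.symm)
    rw [e5, cur_posB hb hra.le, pm_abs hb.del] at this
    exact lt_irrefl _ this
  have hslt0 : ∀ᶠ r in 𝓝[>] r₀, t * P.pos F (P.cur E a r) < t * P.pos F (P.cur E b r) := by
    have h3 := local_ex hEF ha hb hE hF.le hta htb
    filter_upwards [eb2, h3.filter_mono nhdsWithin_le_nhds] with r h1 h2
    rw [← sign_eq_neg_one_iff, h2, sign_eq_neg_one_iff] at h1
    linarith
  have hslt : ∀ r ∈ Ioo r₀ e, t * P.pos F (P.cur E a r) < t * P.pos F (P.cur E b r) := by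
    intro r hr
    by_contra hcon
    obtain ⟨y, hy1, hy2⟩ := (hslt0.and (Ioo_mem_nhdsGT hr.1)).exists
    have hsub' : Icc y r ⊆ Icc (-1) 1 := fun z hz =>
      hsub z ⟨hy2.1.le.trans hz.1, hz.2.trans hr.2.le⟩
    have hcont : ContinuousOn
        (fun z => t * P.pos F (P.cur E a z) - t * P.pos F (P.cur E b z)) (Icc y r) :=
      (continuousOn_const.mul ((P.cont_pos F).comp_continuousOn ((cur_contOn ha).mono hsub'))).sub
        (continuousOn_const.mul ((P.cont_pos F).comp_continuousOn ((cur_contOn hb).mono hsub')))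
    obtain ⟨z, hz, hz0⟩ := intermediate_value_Icc hy2.2.le hcont
      ⟨sub_nonpos.2 hy1.le, sub_nonneg.2 (not_lt.1 hcon)⟩
    have hz' : z ∈ Ioo r₀ e := ⟨hy2.1.trans_le hz.1, hz.2.trans_lt hr.2⟩
    apply hne z hz'
    have hz0' : t * P.pos F (P.cur E a z) - t * P.pos F (P.cur E b z) = 0 := hz0
    rcases htp with h | h <;> rw [h] at hz0' <;> linarith
  have hsimple : ∀ c, IsLab E F c → P.Thru E c v → c = a ∨ c = b := by
    intro c hc htc
    by_cases h1 : c.1 = a.1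
    · exact Or.inl (lab_eq htc hta h1)
    · by_cases h2 : c.1 = b.1
      · exact Or.inr (lab_eq htc htb h2)
      · exfalso
        have := hs c.1 h1 h2
        rw [htc.1, pm_abs hc.del] at this
        exact lt_irrefl _ this
  have ga : P.Gap E F t a b v e :=
    ⟨hEF, ha, hb, hab, hE, hF, hta, htb, he1, he2, hty, htp, hsfa, hsfb, hslt, hga, hgb, hsimple,
      eb1⟩
  have gb : P.Gap E F (-t) b a v e :=
    ⟨hEF, hb, ha, hab.symm, hE, hF, htb, hta, he1, he2, by rw [neg_neg], by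
      rcases htp with h | h <;> rw [h] <;> norm_num, hsfb, hsfa,
      fun r hr => by have := hslt r hr; linarith, hgb, hga,
      fun c hc htc => (hsimple c hc htc).symm, eb3⟩
  rcases he2.lt_or_eq with he | he
  · by_cases hsa' : P.sf E a e
    · have hsb' : ¬ P.sf E b e := fun h =>
        he4 ⟨⟨⟨by linarith, he⟩, hsa'⟩, ⟨⟨by linarith, he⟩, h⟩⟩
      rcases gb.at_end he hsb' with h | h
      · exact Or.inr (Or.inl h)
      · exact Or.inr (Or.inr ⟨b, e, hb, htb, he1, he2, hsfb, Or.inr h⟩)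
    · rcases ga.at_end he hsa' with h | h
      · exact Or.inl h
      · exact Or.inr (Or.inr ⟨a, e, ha, hta, he1, he2, hsfa, Or.inr h⟩)
  · exact Or.inr (Or.inr ⟨a, e, ha, hta, he1, he2, hsfa, Or.inl he⟩)

end PosSys

end HyperplaneTransversals
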