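import Pool.Agent.Lib.MP_b2e5b9_co.Fat.Core4

/-!
# Counting the vertices of a two-dimensional position system
-/

set_option autoImplicit false

open Set Filter
open scoped Topology

namespace HyperplaneTransversals

/-- The set of signs. -/
def pmSet : Set ℝ := {1, -1}

theorem mem_pmSet {x : ℝ} : x ∈ pmSet ↔ x = 1 ∨ x = -1 := by
  simp [pmSet]

theorem encard_pmSet : pmSet.encard ≤ 2 := by
  unfold pmSet
  exact (Set.encard_pair (by norm_num : (1 : ℝ) ≠ -1)).le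

namespace PosSys

variable {ι M : Type} [TopologicalSpace M] (P : PosSys ι M)

/-- Change of signs of the positions. -/
noncomputable def twist (θ : ι → ℝ) (hθ : ∀ i, θ i = 1 ∨ θ i = -1) : PosSys ι M where
  pos i h := θ i * P.pos i h
  sgn i j h := θ i * θ j * P.sgn i j h
  pt i j ε x y := P.pt i j (θ i * θ j * ε) (θ i * x) (θ j * y)
  cont_pos i := continuous_const.mul (P.cont_pos i)
  sgn_mem i j h := pm_mul (pm_mul (hθ i) (hθ j)) (P.sgn_mem i j h)
  sgn_closed i j hij ε := by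
    have h := P.sgn_closed i j hij (θ i * θ j * ε)
    convert h using 1
    ext u
    have e1 : |θ i * P.pos i u| = |P.pos i u| := by rw [abs_mul, pm_abs (hθ i), one_mul]
    have e2 : |θ j * P.pos j u| = |P.pos j u| := by rw [abs_mul, pm_abs (hθ j), one_mul]
    simp only [Set.mem_ofPred_eq, e1, e2]
    have e3 : (θ i * θ j * P.sgn i j u = ε) ↔ P.sgn i j u = θ i * θ j * ε := by
      have h2 := pm_mul_self (pm_mul (hθ i) (hθ j))
      constructor
      · rintro rfl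
        rw [← mul_assoc, h2, one_mul]
      · intro h3
        rw [h3, ← mul_assoc, h2, one_mul]
    rw [e3]
  pt_cont i j hij ε hε := by
    have h := P.pt_cont i j hij (θ i * θ j * ε) (pm_mul (pm_mul (hθ i) (hθ j)) hε)
    refine h.comp (f := fun q : ℝ × ℝ => (θ i * q.1, θ j * q.2)) (by fun_prop) ?_
    rintro q ⟨h1, h2⟩
    refine ⟨?_, ?_⟩
    · change |θ i * q.1| ≤ 1
      rw [abs_mul, pm_abs (hθ i), one_mul]
      exact h1
    · change |θ j * q.2| ≤ 1
      rw [abs_mul, pm_abs (hθ j), one_mul]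
      exact h2
  pt_pos₁ i j hij ε hε x y hx hy := by
    rw [P.pt_pos₁ i j hij _ (pm_mul (pm_mul (hθ i) (hθ j)) hε), ← mul_assoc, pm_mul_self (hθ i),
      one_mul]
    · rwa [abs_mul, pm_abs (hθ i), one_mul]
    · rwa [abs_mul, pm_abs (hθ j), one_mul]
  pt_pos₂ i j hij ε hε x y hx hy := by
    rw [P.pt_pos₂ i j hij _ (pm_mul (pm_mul (hθ i) (hθ j)) hε), ← mul_assoc, pm_mul_self (hθ j),
      one_mul]
    · rwa [abs_mul, pm_abs (hθ i), one_mul]
    · rwa [abs_mul, pm_abs (hθ j), one_mul]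
  pt_sgn i j hij ε hε x y hx hy := by
    rw [P.pt_sgn i j hij _ (pm_mul (pm_mul (hθ i) (hθ j)) hε), ← mul_assoc,
      pm_mul_self (pm_mul (hθ i) (hθ j)), one_mul]
    · rwa [abs_mul, pm_abs (hθ i), one_mul]
    · rwa [abs_mul, pm_abs (hθ j), one_mul]
  pt_unique i j hij h hi hj := by
    rw [abs_mul, pm_abs (hθ i), one_mul] at hi
    rw [abs_mul, pm_abs (hθ j), one_mul] at hj
    rw [← mul_assoc, pm_mul_self (pm_mul (hθ i) (hθ j)), one_mul, ← mul_assoc,
      pm_mul_self (hθ i), one_mul, ← mul_assoc, pm_mul_self (hθ j), one_mul]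
    exact P.pt_unique i j hij h hi hj
  mono i j k hij hik hjk h₀ hi hj hk := by
    rw [abs_mul, pm_abs (hθ i), one_mul] at hi
    rw [abs_mul, pm_abs (hθ j), one_mul] at hj
    rw [abs_mul, pm_abs (hθ k), one_mul] at hk
    filter_upwards [P.mono i j k hij hik hjk h₀ hi hj hk] with p hp hpi
    have h1 : P.pos i p.1 = P.pos i p.2 := by
      rcases hθ i with h | h <;> rw [h] at hpi <;> linarith
    have h2 := hp h1
    rw [← mul_sub, sign_mul, h2, ← sign_mul]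
    congr 1
    have e1 := pm_mul_self (hθ i)
    have e2 := pm_mul_self (hθ j)
    calc θ k * (P.sgn i j h₀ * P.sgn i k h₀ * (P.pos j p.1 - P.pos j p.2))
        = (θ i * θ i) * (θ j * θ j) * (θ k * (P.sgn i j h₀ * P.sgn i k h₀ *
          (P.pos j p.1 - P.pos j p.2))) := by rw [e1, e2]; ring
      _ = _ := by ring

variable {P} {E F : ι} {a b c : ι × ℝ × ℝ} {v : M} {r e t : ℝ}

theorem encard_lab [Fintype ι] : {a : ι × ℝ × ℝ | IsLab E F a}.encard ≤ 4 * Fintype.card ι := by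
  have h : {a : ι × ℝ × ℝ | IsLab E F a} ⊆ (Set.univ : Set ι) ×ˢ (pmSet ×ˢ pmSet) := by
    rintro a ha
    exact ⟨mem_univ _, mem_pmSet.2 ha.del, mem_pmSet.2 ha.ome⟩
  refine (Set.encard_le_encard h).trans ?_
  rw [Set.encard_prod, Set.encard_prod, Set.encard_univ, ENat.card_eq_coe_fintype_card]
  calc (Fintype.card ι : ℕ∞) * (pmSet.encard * pmSet.encard)
      ≤ (Fintype.card ι : ℕ∞) * (2 * 2) := by
        gcongr <;> exact encard_pmSet
    _ = 4 * Fintype.card ι := by rw [mul_comm]; norm_num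

/-- The points that are a first or last exposure. -/
def FL (P : PosSys ι M) (E F : ι) : Set M :=
  {v | v ∈ P.T ∧ ∃ a, IsLab E F a ∧ P.Thru E a v ∧ (P.Fst E a v ∨ P.Lst E a v)}

theorem encard_FL [Fintype ι] : (P.FL E F).encard ≤ 8 * Fintype.card ι := by
  have h := encard_le_of_rel (P.FL E F) ({a : ι × ℝ × ℝ | IsLab E F a} ×ˢ pmSet)
    (fun v p => v ∈ P.T ∧ IsLab E F p.1 ∧ P.Thru E p.1 v ∧
      ((p.2 = 1 ∧ P.Fst E p.1 v) ∨ (p.2 = -1 ∧ P.Lst E p.1 v))) ?_ ?_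
  · refine h.trans ?_
    rw [Set.encard_prod]
    calc {a : ι × ℝ × ℝ | IsLab E F a}.encard * pmSet.encard
        ≤ (4 * Fintype.card ι) * 2 := by
          gcongr
          · exact encard_lab
          · exact encard_pmSet
      _ = 8 * Fintype.card ι := by ring
  · rintro v ⟨hv, a, ha, hta, h | h⟩
    · exact ⟨(a, 1), ⟨ha, mem_pmSet.2 (Or.inl rfl)⟩, hv, ha, hta, Or.inl ⟨rfl, h⟩⟩
    · exact ⟨(a, -1), ⟨ha, mem_pmSet.2 (Or.inr rfl)⟩, hv, ha, hta, Or.inr ⟨rfl, h⟩⟩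
  · rintro v - v' - ⟨a, s⟩ - ⟨hv, ha, hta, h⟩ ⟨hv', -, hta', h'⟩
    have e1 : P.cur E a (P.pos E v) = v := cur_eq ha (hv E) hta
    have e2 : P.cur E a (P.pos E v') = v' := cur_eq ha (hv' E) hta'
    have b1 := abs_le.1 (hv E)
    have b2 := abs_le.1 (hv' E)
    have e3 : P.pos E v = P.pos E v' := by
      rcases lt_trichotomy (P.pos E v) (P.pos E v') with h1 | h1 | h1
      · exfalso
        rcases h with ⟨hs, h⟩ | ⟨hs, h⟩ <;> rcases h' with ⟨hs', h'⟩ | ⟨hs', h'⟩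
        · exact h' _ ⟨b1.1, h1⟩ (by simp only []; rw [e1]; exact hv)
        · simp only [] at hs hs'; rw [hs] at hs'; norm_num at hs'
        · simp only [] at hs hs'; rw [hs] at hs'; norm_num at hs'
        · exact h _ ⟨h1, b2.2⟩ (by simp only []; rw [e2]; exact hv')
      · exact h1
      · exfalso
        rcases h with ⟨hs, h⟩ | ⟨hs, h⟩ <;> rcases h' with ⟨hs', h'⟩ | ⟨hs', h'⟩
        · exact h _ ⟨b2.1, h1⟩ (by simp only []; rw [e2]; exact hv')
        · simp only [] at hs hs'; rw [hs] at hs'; norm_num at hs'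
        · simp only [] at hs hs'; rw [hs] at hs'; norm_num at hs'
        · exact h' _ ⟨h1, b1.2⟩ (by simp only []; rw [e1]; exact hv)
    rw [← e1, ← e2, e3]

theorem multi_subset (hEF : E ≠ F) : {v | P.Multi E F v} ⊆ P.FL E F := by
  rintro v ⟨hv, hE, hF, a, b, ha, hb, hab, hta, htb, ht⟩
  exact ⟨hv, fl hEF hab ha hb hE hF.le hta htb ht⟩

/-- Ends of free pieces. -/
def Ends (P : PosSys ι M) (E F : ι) (W : Set M) : Set ((ι × ℝ × ℝ) × ℝ) :=
  {p | IsLab E F p.1 ∧ p.2 ∈ Ioc (-1) 1 ∧ (∀ᶠ r in 𝓝[<] p.2, P.sf E p.1 r) ∧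
    (p.2 = 1 ∨ |P.pos F (P.cur E p.1 p.2)| = 1 ∨ P.cur E p.1 p.2 ∈ W)}

theorem encard_Ends [Fintype ι] (hEF : E ≠ F) {W : Set M}
    (hW : ∀ w ∈ W, |P.pos E w| < 1 ∧ |P.pos F w| < 1) :
    (P.Ends E F W).encard ≤ 12 * Fintype.card ι + 2 * W.encard := by
  have hsub : P.Ends E F W ⊆ {p | p ∈ P.Ends E F W ∧ p.2 = 1} ∪
      ({p | p ∈ P.Ends E F W ∧ |P.pos F (P.cur E p.1 p.2)| = 1} ∪
        {p | p ∈ P.Ends E F W ∧ P.cur E p.1 p.2 ∈ W}) := by
    intro p hp
    rcases hp.2.2.2 with h | h | h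
    · exact Or.inl ⟨hp, h⟩
    · exact Or.inr (Or.inl ⟨hp, h⟩)
    · exact Or.inr (Or.inr ⟨hp, h⟩)
  have h1 : {p | p ∈ P.Ends E F W ∧ p.2 = 1}.encard ≤ 4 * Fintype.card ι := by
    refine (encard_le_of_rel _ {a : ι × ℝ × ℝ | IsLab E F a} (fun p a => p.1 = a) ?_ ?_).trans
      encard_lab
    · rintro p ⟨hp, -⟩
      exact ⟨p.1, hp.1, rfl⟩
    · rintro p ⟨-, hp⟩ p' ⟨-, hp'⟩ a - rfl h'
      exact Prod.ext h'.symm (hp.trans hp'.symm)
  have h2 : {p | p ∈ P.Ends E F W ∧ |P.pos F (P.cur E p.1 p.2)| = 1}.encard ≤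
      8 * Fintype.card ι := by
    refine (encard_le_of_rel _ ((Set.univ : Set ι) ×ˢ (pmSet ×ˢ (pmSet ×ˢ pmSet)))
      (fun p q => p.1.1 = q.1 ∧ p.1.2.1 = q.2.1 ∧ P.pos F (P.cur E p.1 p.2) = q.2.2.1 ∧
        P.sgn F q.1 (P.cur E p.1 p.2) = q.2.2.2) ?_ ?_).trans ?_
    · rintro p ⟨hp, h⟩
      refine ⟨(p.1.1, p.1.2.1, P.pos F (P.cur E p.1 p.2), P.sgn F p.1.1 (P.cur E p.1 p.2)),
        ⟨mem_univ _, mem_pmSet.2 hp.1.del, ?_, mem_pmSet.2 (P.sgn_mem _ _ _)⟩, rfl, rfl, rfl, rfl⟩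
      rw [mem_pmSet]
      rcases abs_choice (P.pos F (P.cur E p.1 p.2)) with h1 | h1
      · left; change P.pos F (P.cur E p.1 p.2) = 1; rw [← h1, h]
      · right; change P.pos F (P.cur E p.1 p.2) = -1; rw [h] at h1; linarith
    · rintro p ⟨hp, h⟩ p' ⟨hp', h'⟩ q - ⟨e1, e2, e3, e4⟩ ⟨e1', e2', e3', e4'⟩
      have b1 : |p.2| ≤ 1 := abs_le.2 ⟨hp.2.1.1.le, hp.2.1.2⟩
      have b2 : |p'.2| ≤ 1 := abs_le.2 ⟨hp'.2.1.1.le, hp'.2.1.2⟩
      have k1 : P.pos p.1.1 (P.cur E p.1 p.2) = p.1.2.1 := cur_posB hp.1 b1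
      have k2 : P.pos p'.1.1 (P.cur E p'.1 p'.2) = p'.1.2.1 := cur_posB hp'.1 b2
      have hBB : p.1.1 = p'.1.1 := e1.trans e1'.symm
      have hw : P.cur E p.1 p.2 = P.cur E p'.1 p'.2 := by
        refine eq_of_pos (i := F) (j := p.1.1) hp.1.neF.symm h.le (by rw [k1]; exact abs_del hp.1)
          (e3.trans e3'.symm) ?_ ?_
        · rw [k1, hBB, k2, e2, e2']
        · rw [e1, e4, e4']
      have hr : p.2 = p'.2 := by
        rw [← cur_posE (P := P) hp.1 b1, ← cur_posE (P := P) hp'.1 b2, hw]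
      refine Prod.ext (lab_eq (P := P) (v := P.cur E p.1 p.2) (thru_cur hp.1 b1) ?_ hBB) hr
      rw [hw]
      exact thru_cur hp'.1 b2
    · rw [Set.encard_prod, Set.encard_prod, Set.encard_prod, Set.encard_univ,
        ENat.card_eq_coe_fintype_card]
      calc (Fintype.card ι : ℕ∞) * (pmSet.encard * (pmSet.encard * pmSet.encard))
          ≤ (Fintype.card ι : ℕ∞) * (2 * (2 * 2)) := by
            gcongr <;> exact encard_pmSet
        _ = 8 * Fintype.card ι := by rw [mul_comm]; norm_num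
  have h3 : {p | p ∈ P.Ends E F W ∧ P.cur E p.1 p.2 ∈ W}.encard ≤ 2 * W.encard := by
    refine (encard_le_of_rel _ (W ×ˢ pmSet)
      (fun p q => P.cur E p.1 p.2 = q.1 ∧ P.typ E F p.1 q.1 = q.2) ?_ ?_).trans ?_
    · rintro p ⟨hp, h⟩
      exact ⟨(P.cur E p.1 p.2, P.typ E F p.1 (P.cur E p.1 p.2)), ⟨h, mem_pmSet.2 (typ_mem hp.1)⟩,
        rfl, rfl⟩
    · rintro p ⟨hp, h⟩ p' ⟨hp', h'⟩ q - ⟨e1, e2⟩ ⟨e1', e2'⟩
      have b1 : |p.2| ≤ 1 := abs_le.2 ⟨hp.2.1.1.le, hp.2.1.2⟩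
      have b2 : |p'.2| ≤ 1 := abs_le.2 ⟨hp'.2.1.1.le, hp'.2.1.2⟩
      have k1 : P.pos E q.1 = p.2 := by rw [← e1]; exact cur_posE hp.1 b1
      have k2 : P.pos E q.1 = p'.2 := by rw [← e1']; exact cur_posE hp'.1 b2
      have hr : p.2 = p'.2 := k1.symm.trans k2
      have hqE : |P.pos E q.1| < 1 := by rw [← e1]; exact (hW _ h).1
      have hqF : |P.pos F q.1| < 1 := by rw [← e1]; exact (hW _ h).2
      have t1 : P.Thru E p.1 q.1 := by rw [← e1]; exact thru_cur hp.1 b1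
      have t2 : P.Thru E p'.1 q.1 := by rw [← e1']; exact thru_cur hp'.1 b2
      refine Prod.ext (lab_eq t1 t2 ?_) hr
      by_contra hne
      have hs := ex_same hEF hp.1 hp'.1 hqE hqF.le t1 t2 (e2.trans e2'.symm)
      rw [k1] at hs
      have hp2 := hp'.2.2.1
      rw [← hr] at hp2
      obtain ⟨r, hr1, hr2, hr3⟩ :=
        (hp.2.2.1.and (hp2.and (hs.filter_mono nhdsWithin_le_nhds))).exists
      have f1 := ex_neg hp'.1 (hr1 p'.1.1 (fun h => hne h.symm))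
      have f2 := ex_neg hp.1 (hr2 p.1.1 (fun h => hne h))
      rw [← sign_eq_neg_one_iff] at f1 f2
      rw [f1, f2] at hr3
      exact absurd hr3 (by decide)
    · rw [Set.encard_prod, mul_comm]
      gcongr
      exact encard_pmSet
  calc (P.Ends E F W).encard ≤ _ := Set.encard_le_encard hsub
    _ ≤ _ := Set.encard_union_le _ _
    _ ≤ 4 * Fintype.card ι + (8 * Fintype.card ι + 2 * W.encard) := by
      gcongr
      exact (Set.encard_union_le _ _).trans (by gcongr)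
    _ = 12 * Fintype.card ι + 2 * W.encard := by ring

/-- The charged vertices. -/
def Ch (P : PosSys ι M) (E F : ι) : Set M := {v | v ∈ P.Vb E F ∧ ∃ x e, P.Charge E F v x e}

theorem encard_Ch [Fintype ι] (hEF : E ≠ F) : (P.Ch E F).encard ≤ 28 * Fintype.card ι := by
  have h := encard_le_of_rel (P.Ch E F) (P.Ends E F {v | P.Multi E F v})
    (fun v p => P.Charge E F v p.1 p.2) ?_ ?_
  · refine h.trans ((encard_Ends hEF ?_).trans ?_)
    · intro w hw
      exact ⟨hw.2.1, hw.2.2.1⟩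
    · calc 12 * (Fintype.card ι : ℕ∞) + 2 * {v | P.Multi E F v}.encard
          ≤ 12 * Fintype.card ι + 2 * (8 * Fintype.card ι) := by
            gcongr
            exact (Set.encard_le_encard (multi_subset hEF)).trans encard_FL
        _ = 28 * Fintype.card ι := by ring
  · rintro v ⟨hv, x, e, hx, htx, hlt, hle, hsf, hend⟩
    have hb := abs_lt.1 hv.2.1
    refine ⟨(x, e), ⟨hx, ⟨by linarith, hle⟩, ?_, hend⟩, hx, htx, hlt, hle, hsf, hend⟩
    filter_upwards [Ioo_mem_nhdsLT hlt] with r hr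
    exact hsf r hr
  · rintro v ⟨hv, -⟩ v' ⟨hv', -⟩ ⟨x, e⟩ - ⟨hx, htx, hlt, hle, hsf, hend⟩
      ⟨-, htx', hlt', -, hsf', -⟩
    have key : ∀ {u u' : M}, u ∈ P.Vb E F → u' ∈ P.Vb E F → P.Thru E x u' →
        P.pos E u' < e → (∀ r ∈ Ioo (P.pos E u) e, P.sf E x r) → ¬ P.pos E u < P.pos E u' := by
      intro u u' hu hu' ht hl hs hlt
      have := hs _ ⟨hlt, hl⟩
      unfold sf at this
      rw [cur_eq hx hu'.2.1.le ht] at this
      obtain ⟨-, -, -, l, l', hll, h1, h2⟩ := hu'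
      by_cases h3 : l = x.1
      · have := this l' (fun h4 => hll (h3.trans h4.symm))
        rw [h2] at this
        exact lt_irrefl _ this
      · have := this l h3
        rw [h1] at this
        exact lt_irrefl _ this
    have e3 : P.pos E v = P.pos E v' :=
      le_antisymm (not_lt.1 (key hv' hv htx hlt hsf')) (not_lt.1 (key hv hv' htx' hlt' hsf))
    rw [← cur_eq hx hv.2.1.le htx, ← cur_eq hx hv'.2.1.le htx', e3]

end PosSys

end HyperplaneTransversals
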