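import Pool.Agent.Lib.MP_b2e5b9_co.Fat.Core5

/-!
# Vertices and edges of a two-dimensional position system: linear bounds
-/

set_option autoImplicit false

open Set Filter
open scoped Topology

namespace HyperplaneTransversals

namespace PosSys

variable {ι M : Type} [TopologicalSpace M] (P : PosSys ι M)

open Classical in
/-- Reversal of the direction of the sweep. -/
noncomputable def rev (E : ι) : PosSys ι M :=
  P.twist (fun i => if i = E then -1 else 1) (fun i => by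
    by_cases h : i = E
    · right; simp [h]
    · left; simp [h])

variable {P} {E F : ι} {a b c : ι × ℝ × ℝ} {v : M} {r e t : ℝ}

theorem rev_posE : (P.rev E).pos E v = -P.pos E v := by
  simp [rev, twist]

theorem rev_pos {l : ι} (h : l ≠ E) : (P.rev E).pos l v = P.pos l v := by
  simp [rev, twist, h]

theorem rev_abs (l : ι) : |(P.rev E).pos l v| = |P.pos l v| := by
  by_cases h : l = E
  · rw [h, rev_posE, abs_neg]
  · rw [rev_pos h]

theorem rev_sgnE {l : ι} (h : l ≠ E) : (P.rev E).sgn E l v = -P.sgn E l v := by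
  simp [rev, twist, h]

theorem rev_sgnE' {l : ι} (h : l ≠ E) : (P.rev E).sgn l E v = -P.sgn l E v := by
  simp [rev, twist, h]

theorem rev_sgn {l l' : ι} (h : l ≠ E) (h' : l' ≠ E) : (P.rev E).sgn l l' v = P.sgn l l' v := by
  simp [rev, twist, h, h']

theorem Vb_subset [Finite ι] (hEF : E ≠ F) :
    P.Vb E F ⊆ (P.FL E F ∪ P.Ch E F) ∪ ((P.rev E).FL E F ∪ (P.rev E).Ch E F) := by
  intro v hv
  obtain ⟨hT, hE, hF, l, l', hll, hl, hl'⟩ := id hv
  have hne : ∀ k, |P.pos k v| = 1 → k ≠ E ∧ k ≠ F := by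
    intro k hk
    constructor
    · rintro rfl; exact hE.ne hk
    · rintro rfl; exact hF.ne hk
  obtain ⟨a, ha, hta, hal⟩ := exists_lab (P := P) (hne l hl).1 (hne l hl).2 hl
  obtain ⟨b, hb, htb, hbl⟩ := exists_lab (P := P) (hne l' hl').1 (hne l' hl').2 hl'
  have hab : a.1 ≠ b.1 := by rw [hal, hbl]; exact hll
  by_cases hty : P.typ E F a v = P.typ E F b v
  · exact Or.inl (Or.inl ⟨hT, fl hEF hab ha hb hE hF.le hta htb hty⟩)
  have hty' : P.typ E F a v = -P.typ E F b v := by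
    rcases typ_mem (P := P) (v := v) ha with h | h <;>
      rcases typ_mem (P := P) (v := v) hb with h' | h'
    · exact absurd (h.trans h'.symm) hty
    · rw [h, h']; norm_num
    · rw [h, h']
    · exact absurd (h.trans h'.symm) hty
  by_cases hs : ∀ k, k ≠ a.1 → k ≠ b.1 → |P.pos k v| < 1
  · rcases kap_mem (P := P) (v := v) (a := a) hb with hk | hk
    · -- use the reversed system
      have ha' : IsLab E F (a.1, a.2.1, -a.2.2) := ⟨ha.neE, ha.neF, ha.del, by
        rcases ha.ome with h | h <;> rw [h] <;> norm_num⟩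
      have hb' : IsLab E F (b.1, b.2.1, -b.2.2) := ⟨hb.neE, hb.neF, hb.del, by
        rcases hb.ome with h | h <;> rw [h] <;> norm_num⟩
      have hta' : (P.rev E).Thru E (a.1, a.2.1, -a.2.2) v :=
        ⟨by rw [rev_pos ha.neE]; exact hta.1, by
          simp only []; rw [rev_sgnE ha.neE, hta.2]⟩
      have htb' : (P.rev E).Thru E (b.1, b.2.1, -b.2.2) v :=
        ⟨by rw [rev_pos hb.neE]; exact htb.1, by
          simp only []; rw [rev_sgnE hb.neE, htb.2]⟩
      have hT' : v ∈ (P.rev E).T := fun k => by rw [rev_abs]; exact hT k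
      have hEr : |(P.rev E).pos E v| < 1 := by rw [rev_abs]; exact hE
      have hFr : |(P.rev E).pos F v| < 1 := by rw [rev_abs]; exact hF
      have htyp : ∀ d : ι × ℝ × ℝ, (P.rev E).typ E F (d.1, d.2.1, -d.2.2) v = P.typ E F d v := by
        intro d
        unfold typ
        rw [rev_sgnE hEF.symm]
        ring
      have hkap : kap (P.rev E) E (a.1, a.2.1, -a.2.2) (b.1, b.2.1, -b.2.2) v = -1 := by
        unfold kap at hk ⊢
        simp only []
        rw [rev_sgnE' ha.neE, rev_sgn ha.neE hb.neE]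
        rw [← hk]
        ring
      rcases birth (P := P.rev E) (a := (a.1, a.2.1, -a.2.2)) (b := (b.1, b.2.1, -b.2.2))
        hEF hab ha' hb' hEr hFr hta' htb'
        (by rw [htyp, htyp, hty']) (fun k h1 h2 => by rw [rev_abs]; exact hs k h1 h2) hkap with
        h | h | h
      · exact Or.inr (Or.inl ⟨hT', _, ha', hta', Or.inl h⟩)
      · exact Or.inr (Or.inl ⟨hT', _, hb', htb', Or.inl h⟩)
      · exact Or.inr (Or.inr ⟨⟨hT', hEr, hFr, l, l', hll, by rw [rev_abs]; exact hl,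
          by rw [rev_abs]; exact hl'⟩, h⟩)
    · rcases birth hEF hab ha hb hE hF hta htb hty' hs hk with h | h | h
      · exact Or.inl (Or.inl ⟨hT, a, ha, hta, Or.inl h⟩)
      · exact Or.inl (Or.inl ⟨hT, b, hb, htb, Or.inl h⟩)
      · exact Or.inl (Or.inr ⟨hv, h⟩)
  · push Not at hs
    obtain ⟨k, hka, hkb, hk⟩ := hs
    have hk' : |P.pos k v| = 1 := le_antisymm (hT k) hk
    obtain ⟨c, hc, htc, hck⟩ := exists_lab (P := P) (hne k hk').1 (hne k hk').2 hk'
    by_cases h1 : P.typ E F a v = P.typ E F c v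
    · exact Or.inl (Or.inl ⟨hT, fl hEF (by rw [hck]; exact hka.symm) ha hc hE hF.le hta htc h1⟩)
    · have h2 : P.typ E F b v = P.typ E F c v := by
        rcases typ_mem (P := P) (v := v) hc with h | h <;>
          rcases typ_mem (P := P) (v := v) hb with h' | h' <;>
          rw [hty', h, h'] at h1 <;> rw [h, h'] <;> norm_num at h1
      exact Or.inl (Or.inl ⟨hT, fl hEF (by rw [hck]; exact hkb.symm) hb hc hE hF.le htb htc h2⟩)

theorem encard_Vb [Fintype ι] (hEF : E ≠ F) : (P.Vb E F).encard ≤ 72 * Fintype.card ι := by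
  calc (P.Vb E F).encard ≤ _ := Set.encard_le_encard (Vb_subset hEF)
    _ ≤ _ := Set.encard_union_le _ _
    _ ≤ (8 * Fintype.card ι + 28 * Fintype.card ι) + (8 * Fintype.card ι + 28 * Fintype.card ι) := by
      gcongr
      · exact (Set.encard_union_le _ _).trans (add_le_add encard_FL (encard_Ch hEF))
      · exact (Set.encard_union_le _ _).trans (add_le_add encard_FL (encard_Ch hEF))
    _ = 72 * Fintype.card ι := by ring

/-- The points tangent to `B` and to another body, with the value `δ` or any value at `B`. -/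
theorem encard_tangent [Fintype ι] (B : ι) :
    {v | |P.pos B v| = 1 ∧ ∃ l, l ≠ B ∧ |P.pos l v| = 1}.encard ≤ 8 * Fintype.card ι := by
  refine (encard_le_of_rel _ ((Set.univ : Set ι) ×ˢ (pmSet ×ˢ (pmSet ×ˢ pmSet)))
    (fun v q => q.1 ≠ B ∧ |P.pos q.1 v| = 1 ∧ P.pos B v = q.2.1 ∧ P.pos q.1 v = q.2.2.1 ∧
      P.sgn B q.1 v = q.2.2.2) ?_ ?_).trans ?_
  · rintro v ⟨h, l, hl, hl'⟩
    have habs : ∀ x : ℝ, |x| = 1 → x ∈ pmSet := by
      intro x hx
      rw [mem_pmSet]
      rcases abs_choice x with h1 | h1 <;> rw [hx] at h1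
      · left; exact h1.symm
      · right; linarith
    exact ⟨(l, P.pos B v, P.pos l v, P.sgn B l v),
      ⟨mem_univ _, habs _ h, habs _ hl', mem_pmSet.2 (P.sgn_mem _ _ _)⟩, hl, hl', rfl, rfl, rfl⟩
  · rintro v ⟨hv, -⟩ v' ⟨hv', -⟩ q - ⟨e1, e2, e3, e4, e5⟩ ⟨-, e2', e3', e4', e5'⟩
    exact eq_of_pos e1.symm hv.le e2.le (e3.trans e3'.symm) (e4.trans e4'.symm) (e5.trans e5'.symm)
  · rw [Set.encard_prod, Set.encard_prod, Set.encard_prod, Set.encard_univ,
      ENat.card_eq_coe_fintype_card]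
    calc (Fintype.card ι : ℕ∞) * (pmSet.encard * (pmSet.encard * pmSet.encard))
        ≤ (Fintype.card ι : ℕ∞) * (2 * (2 * 2)) := by
          gcongr <;> exact encard_pmSet
      _ = 8 * Fintype.card ι := by rw [mul_comm]; norm_num

/-- The vertices of a two-dimensional position system. -/
def V (P : PosSys ι M) : Set M := {v | v ∈ P.T ∧ ∃ l l', l ≠ l' ∧ |P.pos l v| = 1 ∧ |P.pos l' v| = 1}

theorem encard_V [Fintype ι] (hEF : E ≠ F) : P.V.encard ≤ 88 * Fintype.card ι := by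
  have hsub : P.V ⊆ ({v | |P.pos E v| = 1 ∧ ∃ l, l ≠ E ∧ |P.pos l v| = 1} ∪
      {v | |P.pos F v| = 1 ∧ ∃ l, l ≠ F ∧ |P.pos l v| = 1}) ∪ P.Vb E F := by
    rintro v ⟨hT, l, l', hll, h1, h2⟩
    have key : ∀ B, |P.pos B v| = 1 → ∃ k, k ≠ B ∧ |P.pos k v| = 1 := by
      intro B _
      by_cases h : l = B
      · exact ⟨l', fun h' => hll (h.trans h'.symm), h2⟩
      · exact ⟨l, h, h1⟩
    by_cases hE : |P.pos E v| = 1
    · exact Or.inl (Or.inl ⟨hE, key E hE⟩)
    by_cases hF : |P.pos F v| = 1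
    · exact Or.inl (Or.inr ⟨hF, key F hF⟩)
    · exact Or.inr ⟨hT, lt_of_le_of_ne (hT E) hE, lt_of_le_of_ne (hT F) hF, l, l', hll, h1, h2⟩
  calc P.V.encard ≤ _ := Set.encard_le_encard hsub
    _ ≤ _ := Set.encard_union_le _ _
    _ ≤ (8 * Fintype.card ι + 8 * Fintype.card ι) + 72 * Fintype.card ι := by
      gcongr
      · exact (Set.encard_union_le _ _).trans (add_le_add (encard_tangent E) (encard_tangent F))
      · exact encard_Vb hEF
    _ = 88 * Fintype.card ι := by ring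

/-- The edge stratum: tangent to `B` with value `δ`, crossing all others. -/
def edge (P : PosSys ι M) (B : ι) (δ : ℝ) : Set M :=
  {h | P.pos B h = δ ∧ ∀ l, l ≠ B → |P.pos l h| < 1}

/-- Ends of the free pieces of the two curves of `(B, δ)`. -/
def CE (P : PosSys ι M) (E B : ι) (δ : ℝ) : Set (ℝ × ℝ) :=
  {p | (p.1 = 1 ∨ p.1 = -1) ∧ p.2 ∈ Ioc (-1) 1 ∧ (∀ᶠ r in 𝓝[<] p.2, P.sf E (B, δ, p.1) r) ∧
    ¬ (p.2 < 1 ∧ P.sf E (B, δ, p.1) p.2)}

theorem ncomp_edge_le [Finite ι] {B : ι} (hBE : B ≠ E) {δ : ℝ} (hδ : δ = 1 ∨ δ = -1) :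
    ncomp (P.edge B δ) ≤ (P.CE E B δ).encard := by
  have hlab : ∀ ω : ℝ, (ω = 1 ∨ ω = -1) → IsLab E E (B, δ, ω) := fun ω hω => ⟨hBE, hBE, hδ, hω⟩
  refine encard_le_of_rel _ _ (fun K p => ∃ r, r ∈ Ioo (-1) p.2 ∧
    (∀ y ∈ Ico r p.2, P.sf E (B, δ, p.1) y) ∧
    K = connectedComponentIn (P.edge B δ) (P.cur E (B, δ, p.1) r)) ?_ ?_
  · rintro K ⟨h, hh, rfl⟩
    have hE : |P.pos E h| < 1 := hh.2 E hBE.symm
    have hb := abs_lt.1 hE
    set ω := P.sgn E B h with hω
    have hla := hlab ω (P.sgn_mem E B h)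
    have hthru : P.Thru E (B, δ, ω) h := ⟨hh.1, rfl⟩
    have hcur : P.cur E (B, δ, ω) (P.pos E h) = h := cur_eq hla hE.le hthru
    have hsf : P.sf E (B, δ, ω) (P.pos E h) := by
      intro l hl
      rw [hcur]
      exact hh.2 l hl
    have hopen := isOpen_sf (P := P) hla
    have hmem : P.pos E h ∈ {r | r ∈ Ioo (-1) 1 ∧ P.sf E (B, δ, ω) r} := ⟨hb, hsf⟩
    have hev : ∀ᶠ y in 𝓝[>] (P.pos E h), y ∈ {r | r ∈ Ioo (-1) 1 ∧ P.sf E (B, δ, ω) r} :=
      Filter.Eventually.filter_mono nhdsWithin_le_nhds (hopen.mem_nhds hmem)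
    obtain ⟨e, he1, he2, he3, he4⟩ := exists_end hopen hev hb.2 (fun h => lt_irrefl _ h.1.2)
    refine ⟨(ω, e), ⟨P.sgn_mem E B h, ⟨by linarith, he2⟩, ?_, ?_⟩, P.pos E h, ⟨hb.1, he1⟩, ?_, ?_⟩
    · filter_upwards [Ioo_mem_nhdsLT he1] with r hr
      exact (he3 hr).2
    · rintro ⟨h1, h2⟩
      exact he4 ⟨⟨by linarith, h1⟩, h2⟩
    · rintro y ⟨hy1, hy2⟩
      rcases hy1.eq_or_lt with h1 | h1
      · rw [← h1]; exact hsf
      · exact (he3 ⟨h1, hy2⟩).2
    · simp only []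
      rw [hcur]
  · rintro K - K' - ⟨ω, e⟩ ⟨hω, he, -, -⟩ ⟨r, hr, hsf, rfl⟩ ⟨r', hr', hsf', rfl⟩
    have hla := hlab ω hω
    simp only [] at hr hr' hsf hsf' he ⊢
    have key : ∀ s s', s ∈ Ioo (-1) e → s' ∈ Ioo (-1) e → s ≤ s' →
        (∀ y ∈ Ico s e, P.sf E (B, δ, ω) y) →
        connectedComponentIn (P.edge B δ) (P.cur E (B, δ, ω) s) =
        connectedComponentIn (P.edge B δ) (P.cur E (B, δ, ω) s') := by
      intro s s' hs hs' hss hsf
      have hsub : Icc s s' ⊆ Icc (-1) 1 := fun y hy => ⟨hs.1.le.trans hy.1,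
        (hy.2.trans hs'.2.le).trans he.2⟩
      have hpre : IsPreconnected (P.cur E (B, δ, ω) '' Icc s s') :=
        isPreconnected_Icc.image _ ((cur_contOn hla).mono hsub)
      have himg : P.cur E (B, δ, ω) '' Icc s s' ⊆ P.edge B δ := by
        rintro _ ⟨y, hy, rfl⟩
        refine ⟨cur_posB hla (abs_le.2 (hsub hy)), ?_⟩
        exact hsf y ⟨hy.1, hy.2.trans_lt hs'.2⟩
      refine connectedComponentIn_eq ?_
      exact hpre.subset_connectedComponentIn ⟨s, left_mem_Icc.2 hss, rfl⟩ himg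
        ⟨s', right_mem_Icc.2 hss, rfl⟩
    rcases le_total r r' with h | h
    · exact key r r' hr hr' h hsf
    · exact (key r' r hr' hr h hsf').symm

theorem CE_point {B : ι} (hBE : B ≠ E) {δ : ℝ} (hδ : δ = 1 ∨ δ = -1)
    {p : ℝ × ℝ} (hp : p ∈ P.CE E B δ) :
    P.cur E (B, δ, p.1) p.2 ∈ P.T ∧ (p.2 = 1 ∨ ∃ l, l ≠ B ∧ l ≠ E ∧ |P.pos l (P.cur E (B, δ, p.1) p.2)| = 1) := by
  obtain ⟨hω, he, hev, hnot⟩ := hp
  have hla : IsLab E E (B, δ, p.1) := ⟨hBE, hBE, hδ, hω⟩
  have hT : P.cur E (B, δ, p.1) p.2 ∈ P.T := by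
    intro l
    by_cases hl : l = B
    · rw [hl, cur_posB hla (abs_le.2 ⟨he.1.le, he.2⟩)]
      exact abs_del hla
    · have hc : ContinuousWithinAt (fun y => |P.pos l (P.cur E (B, δ, p.1) y)|) (Icc (-1) 1) p.2 :=
        ((((P.cont_pos l).comp_continuousOn (cur_contOn hla)).abs) _ ⟨he.1.le, he.2⟩)
      have hmono : 𝓝[<] p.2 ≤ 𝓝[Icc (-1) 1] p.2 := by
        rw [nhdsWithin_le_iff]
        filter_upwards [Ioo_mem_nhdsLT he.1] with y hy
        exact ⟨hy.1.le, hy.2.le.trans he.2⟩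
      refine le_of_tendsto (hc.tendsto.mono_left hmono) ?_
      filter_upwards [hev] with y hy
      exact (hy l hl).le
  refine ⟨hT, ?_⟩
  by_cases h1 : p.2 = 1
  · exact Or.inl h1
  right
  have hlt : p.2 < 1 := lt_of_le_of_ne he.2 h1
  have hsf : ¬ P.sf E (B, δ, p.1) p.2 := fun h => hnot ⟨hlt, h⟩
  unfold sf at hsf
  push Not at hsf
  obtain ⟨l, hl, hl'⟩ := hsf
  have hl1 : |P.pos l (P.cur E (B, δ, p.1) p.2)| = 1 := le_antisymm (hT l) hl'
  refine ⟨l, hl, ?_, hl1⟩
  rintro rfl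
  rw [cur_posE hla (abs_le.2 ⟨he.1.le, he.2⟩)] at hl1
  exact (abs_lt.2 ⟨he.1, hlt⟩).ne hl1

theorem encard_CE [Fintype ι] {B : ι} (hBE : B ≠ E) {δ : ℝ} (hδ : δ = 1 ∨ δ = -1) :
    (P.CE E B δ).encard ≤ 8 * Fintype.card ι := by
  refine (encard_le_of_rel _ {v | |P.pos B v| = 1 ∧ ∃ l, l ≠ B ∧ |P.pos l v| = 1}
    (fun p v => P.cur E (B, δ, p.1) p.2 = v) ?_ ?_).trans (encard_tangent B)
  · intro p hp
    have he := hp.2.1
    have hla : IsLab E E (B, δ, p.1) := ⟨hBE, hBE, hδ, hp.1⟩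
    have hb : |p.2| ≤ 1 := abs_le.2 ⟨he.1.le, he.2⟩
    refine ⟨_, ⟨?_, ?_⟩, rfl⟩
    · rw [cur_posB hla hb]
      exact pm_abs hδ
    · rcases (CE_point hBE hδ hp).2 with h | ⟨l, hl, -, hl'⟩
      · refine ⟨E, hBE.symm, ?_⟩
        rw [cur_posE hla hb, h, abs_one]
      · exact ⟨l, hl, hl'⟩
  · rintro p hp p' hp' v - rfl h
    have hla : IsLab E E (B, δ, p.1) := ⟨hBE, hBE, hδ, hp.1⟩
    have hla' : IsLab E E (B, δ, p'.1) := ⟨hBE, hBE, hδ, hp'.1⟩
    have hb : |p.2| ≤ 1 := abs_le.2 ⟨hp.2.1.1.le, hp.2.1.2⟩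
    have hb' : |p'.2| ≤ 1 := abs_le.2 ⟨hp'.2.1.1.le, hp'.2.1.2⟩
    refine Prod.ext ?_ ?_
    · have h1 := cur_sgn (P := P) hla hb
      have h2 := cur_sgn (P := P) hla' hb'
      simp only [] at h1 h2
      rw [← h1, ← h2, h]
    · rw [← cur_posE (P := P) hla hb, ← cur_posE (P := P) hla' hb', h]

/-- Sums of cardinalities. -/
theorem sum_encard_le {α β : Type*} (s : Finset α) (S : α → Set β) :
    ∑ i ∈ s, (S i).encard ≤ {p : α × β | p.1 ∈ s ∧ p.2 ∈ S p.1}.encard := by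
  classical
  induction s using Finset.induction_on with
  | empty => simp
  | insert x s hx ih =>
    rw [Finset.sum_insert hx]
    have h1 : (S x).encard ≤ ((fun y => (x, y)) '' S x).encard := by
      rw [Set.InjOn.encard_image]
      intro y _ y' _ h
      exact (Prod.mk.inj h).2
    have hdisj : Disjoint ((fun y => (x, y)) '' S x) {p : α × β | p.1 ∈ s ∧ p.2 ∈ S p.1} := by
      rw [Set.disjoint_left]
      rintro _ ⟨y, hy, rfl⟩ h
      exact hx h.1
    calc (S x).encard + ∑ i ∈ s, (S i).encard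
        ≤ ((fun y => (x, y)) '' S x).encard + {p : α × β | p.1 ∈ s ∧ p.2 ∈ S p.1}.encard :=
          add_le_add h1 ih
      _ = _ := (Set.encard_union_eq hdisj).symm
      _ ≤ _ := by
        apply Set.encard_le_encard
        rintro p (⟨y, hy, rfl⟩ | h)
        · exact ⟨Finset.mem_insert_self _ _, hy⟩
        · exact ⟨Finset.mem_insert_of_mem h.1, h.2⟩

theorem edges_le [Fintype ι] (hEF : E ≠ F) :
    ∑ B : ι, (ncomp (P.edge B 1) + ncomp (P.edge B (-1))) ≤ 200 * Fintype.card ι := by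
  classical
  rw [← Finset.sum_filter_add_sum_filter_not Finset.univ (fun B => B = E ∨ B = F)]
  have h1 : ∑ B ∈ Finset.univ.filter (fun B => B = E ∨ B = F),
      (ncomp (P.edge B 1) + ncomp (P.edge B (-1))) ≤ 32 * Fintype.card ι := by
    have hb : ∀ B ∈ Finset.univ.filter (fun B => B = E ∨ B = F),
        (ncomp (P.edge B 1) + ncomp (P.edge B (-1))) ≤ 16 * Fintype.card ι := by
      intro B hB
      rw [Finset.mem_filter] at hB
      obtain ⟨G, hG⟩ : ∃ G, B ≠ G := by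
        rcases hB.2 with rfl | rfl
        · exact ⟨F, hEF⟩
        · exact ⟨E, hEF.symm⟩
      calc ncomp (P.edge B 1) + ncomp (P.edge B (-1))
          ≤ 8 * Fintype.card ι + 8 * Fintype.card ι :=
            add_le_add ((ncomp_edge_le hG (Or.inl rfl)).trans (encard_CE hG (Or.inl rfl)))
              ((ncomp_edge_le hG (Or.inr rfl)).trans (encard_CE hG (Or.inr rfl)))
        _ = 16 * Fintype.card ι := by ring
    refine (Finset.sum_le_card_nsmul _ _ _ hb).trans ?_
    have hc : (Finset.univ.filter (fun B => B = E ∨ B = F)).card ≤ 2 := by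
      have : Finset.univ.filter (fun B => B = E ∨ B = F) ⊆ ({E, F} : Finset ι) := by
        intro B hB
        rw [Finset.mem_filter] at hB
        simpa using hB.2
      exact (Finset.card_le_card this).trans Finset.card_le_two
    rw [nsmul_eq_mul]
    calc (((Finset.univ.filter (fun B => B = E ∨ B = F)).card : ℕ) : ℕ∞) * (16 * Fintype.card ι)
        ≤ 2 * (16 * Fintype.card ι) := by
          gcongr
          exact_mod_cast hc
      _ = 32 * Fintype.card ι := by rw [← mul_assoc]; norm_num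
  have h2 : ∑ B ∈ Finset.univ.filter (fun B => ¬ (B = E ∨ B = F)),
      (ncomp (P.edge B 1) + ncomp (P.edge B (-1))) ≤ 156 * Fintype.card ι := by
    calc ∑ B ∈ Finset.univ.filter (fun B => ¬ (B = E ∨ B = F)),
        (ncomp (P.edge B 1) + ncomp (P.edge B (-1)))
        ≤ ∑ B ∈ Finset.univ.filter (fun B => ¬ (B = E ∨ B = F)),
          ∑ s ∈ ({1, -1} : Finset ℝ), (P.CE E B s).encard := by
          refine Finset.sum_le_sum fun B hB => ?_
          rw [Finset.mem_filter, not_or] at hB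
          rw [Finset.sum_pair (by norm_num : (1 : ℝ) ≠ -1)]
          exact add_le_add (ncomp_edge_le hB.2.1 (Or.inl rfl)) (ncomp_edge_le hB.2.1 (Or.inr rfl))
      _ = ∑ q ∈ (Finset.univ.filter (fun B => ¬ (B = E ∨ B = F))) ×ˢ ({1, -1} : Finset ℝ),
          (P.CE E q.1 q.2).encard := by rw [Finset.sum_product]
      _ ≤ _ := sum_encard_le _ _
      _ ≤ (P.Ends E F (P.Vb E F)).encard := by
          refine encard_le_of_rel _ _ (fun q p => p = ((q.1.1, q.1.2, q.2.1), q.2.2)) ?_ ?_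
          · rintro ⟨⟨B, δ⟩, p⟩ ⟨hq, hp⟩
            simp only [] at hq hp
            rw [Finset.mem_product, Finset.mem_filter, not_or] at hq
            simp only [Finset.mem_insert, Finset.mem_singleton] at hq
            obtain ⟨⟨-, hBE, hBF⟩, hδ⟩ := hq
            refine ⟨_, ⟨⟨hBE, hBF, hδ, hp.1⟩, hp.2.1, hp.2.2.1, ?_⟩, rfl⟩
            simp only []
            obtain ⟨hT, h | ⟨l, hl, hlE, hl'⟩⟩ := CE_point hBE hδ hp
            · exact Or.inl h
            · by_cases hFt : |P.pos F (P.cur E (B, δ, p.1) p.2)| = 1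
              · exact Or.inr (Or.inl hFt)
              · by_cases h1 : p.2 = 1
                · exact Or.inl h1
                right; right
                have he := hp.2.1
                have hla : IsLab E F (B, δ, p.1) := ⟨hBE, hBF, hδ, hp.1⟩
                have hb : |p.2| ≤ 1 := abs_le.2 ⟨he.1.le, he.2⟩
                refine ⟨hT, ?_, lt_of_le_of_ne (hT F) hFt, B, l, hl.symm, ?_, hl'⟩
                · rw [cur_posE hla hb]
                  exact abs_lt.2 ⟨he.1, lt_of_le_of_ne he.2 h1⟩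
                · rw [cur_posB (a := (B, δ, p.1)) hla hb]
                  exact pm_abs hδ
          · rintro ⟨⟨B, δ⟩, ω, e⟩ - ⟨⟨B', δ'⟩, ω', e'⟩ - p - rfl h
            simp only [Prod.mk.injEq] at h ⊢
            exact ⟨⟨h.1.1.symm ▸ rfl, h.1.2.1.symm ▸ rfl⟩, h.1.2.2.symm ▸ rfl, h.2.symm ▸ rfl⟩
      _ ≤ 12 * Fintype.card ι + 2 * (P.Vb E F).encard :=
          encard_Ends hEF fun w hw => ⟨hw.2.1, hw.2.2.1⟩
      _ ≤ 12 * Fintype.card ι + 2 * (72 * Fintype.card ι) := by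
          gcongr
          exact encard_Vb hEF
      _ = 156 * Fintype.card ι := by ring
  calc _ ≤ 32 * (Fintype.card ι : ℕ∞) + 156 * Fintype.card ι := add_le_add h1 h2
    _ = 188 * Fintype.card ι := by ring
    _ ≤ 200 * Fintype.card ι := by
      gcongr
      norm_num

end PosSys

end HyperplaneTransversals
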