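import Pool.Agent.Lib.MP_b2e5b9_co.Fat.Slice

/-!
# Counting the components of the strata of a cube system
-/

set_option autoImplicit false

open Set Filter
open scoped Topology

namespace HyperplaneTransversals

theorem ncomp_image_le {X Y : Type} [TopologicalSpace X] [TopologicalSpace Y] {f : X → Y}
    (hf : Continuous f) (s : Set X) : ncomp (f '' s) ≤ ncomp s := by
  refine encard_le_of_rel _ _ (fun K L => ∃ x ∈ s, K = connectedComponentIn (f '' s) (f x) ∧
    L = connectedComponentIn s x) ?_ ?_
  · rintro _ ⟨_, ⟨x, hx, rfl⟩, rfl⟩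
    exact ⟨_, ⟨x, hx, rfl⟩, x, hx, rfl, rfl⟩
  · rintro K - K' - L - ⟨x, hx, rfl, rfl⟩ ⟨y, hy, rfl, h⟩
    refine connectedComponentIn_eq ?_
    have h1 : IsPreconnected (f '' connectedComponentIn s x) :=
      isPreconnected_connectedComponentIn.image _ hf.continuousOn
    have h2 : f '' connectedComponentIn s x ⊆ f '' s :=
      image_mono (connectedComponentIn_subset _ _)
    refine h1.subset_connectedComponentIn ⟨x, mem_connectedComponentIn hx, rfl⟩ h2 ⟨y, ?_, rfl⟩
    rw [h]
    exact mem_connectedComponentIn hy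

theorem ncomp_le_encard {X : Type} [TopologicalSpace X] (s : Set X) : ncomp s ≤ s.encard :=
  Set.encard_image_le _ _

theorem sum_le_sum_inj {α β : Type*} (s : Finset α) (t : Finset β) (f : α → ℕ∞)
    (g : β → ℕ∞) (e : α → β) (he : ∀ a ∈ s, e a ∈ t) (hinj : Set.InjOn e s)
    (h : ∀ a ∈ s, f a ≤ g (e a)) : ∑ a ∈ s, f a ≤ ∑ b ∈ t, g b := by
  classical
  calc ∑ a ∈ s, f a ≤ ∑ a ∈ s, g (e a) := Finset.sum_le_sum h
    _ = ∑ b ∈ s.image e, g b := by rw [Finset.sum_image hinj]
    _ ≤ ∑ b ∈ t, g b := Finset.sum_le_sum_of_subset (by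
        intro b hb
        obtain ⟨a, ha, rfl⟩ := Finset.mem_image.1 hb
        exact he a ha)

/-- The support of a sign vector. -/
def supp {n : ℕ} (σ : Fin n → SignType) : Finset (Fin n) := Finset.univ.filter (fun i => σ i ≠ 0)

theorem mem_supp {n : ℕ} {σ : Fin n → SignType} {i : Fin n} : i ∈ supp σ ↔ σ i ≠ 0 := by
  simp [supp]

/-- The zeros of a sign vector. -/
def zers {n : ℕ} (σ : Fin n → SignType) : Finset (Fin n) := Finset.univ.filter (fun i => σ i = 0)

theorem mem_zers {n : ℕ} {σ : Fin n → SignType} {i : Fin n} : i ∈ zers σ ↔ σ i = 0 := by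
  simp [zers]

/-- The sign vectors with `k` nonzero entries. -/
def lvl (n k : ℕ) : Finset (Fin n → SignType) := Finset.univ.filter (fun σ => (supp σ).card = k)

theorem mem_lvl {n k : ℕ} {σ : Fin n → SignType} : σ ∈ lvl n k ↔ (supp σ).card = k := by
  simp [lvl]

theorem supp_update {n : ℕ} {σ : Fin n → SignType} {b : Fin n} {δ : SignType}
    (hδ : δ ≠ 0) : supp (Function.update σ b δ) = insert b (supp σ) := by
  ext i
  rw [mem_supp, Finset.mem_insert, mem_supp]
  by_cases h : i = b
  · rw [h, Function.update_self]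
    simp [hδ]
  · rw [Function.update_of_ne h]
    simp [h]

theorem card_supp_update {n : ℕ} {σ : Fin n → SignType} {b : Fin n} (hb : σ b = 0) {δ : SignType}
    (hδ : δ ≠ 0) : (supp (Function.update σ b δ)).card = (supp σ).card + 1 := by
  rw [supp_update hδ, Finset.card_insert_of_notMem]
  rw [mem_supp]
  exact fun h => h hb

theorem supp_erase {n : ℕ} {σ : Fin n → SignType} {b : Fin n} :
    supp (Function.update σ b 0) = (supp σ).erase b := by
  ext i
  rw [mem_supp, Finset.mem_erase, mem_supp]
  by_cases h : i = b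
  · rw [h, Function.update_self]
    simp
  · rw [Function.update_of_ne h]
    simp [h]

theorem exists_enum {n k : ℕ} {σ : Fin n → SignType} (h : (supp σ).card = k) :
    ∃ R : Fin k → Fin n, Function.Injective R ∧ (∀ l, σ (R l) ≠ 0) ∧ ∀ i, σ i ≠ 0 → ∃ l, R l = i := by
  refine ⟨(supp σ).orderEmbOfFin h, ((supp σ).orderEmbOfFin h).injective, fun l => ?_, fun i hi => ?_⟩
  · exact mem_supp.1 (Finset.orderEmbOfFin_mem _ h l)
  · have := Finset.range_orderEmbOfFin (supp σ) h
    have hi' : i ∈ Set.range ((supp σ).orderEmbOfFin h) := by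
      rw [this]
      exact mem_supp.2 hi
    exact hi'

theorem card_lvl_le (n k : ℕ) : (lvl n k).card ≤ (2 * n) ^ k := by
  classical
  set dec : (Fin k → Fin n × Bool) → (Fin n → SignType) := fun g i =>
    if ∃ l, g l = (i, true) then 1 else if ∃ l, g l = (i, false) then -1 else 0 with hdec
  have h : lvl n k ⊆ Finset.univ.image dec := by
    intro σ hσ
    obtain ⟨R, hRi, hR, hRs⟩ := exists_enum (mem_lvl.1 hσ)
    rw [Finset.mem_image]
    refine ⟨fun l => (R l, decide (σ (R l) = 1)), Finset.mem_univ _, ?_⟩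
    funext i
    simp only [hdec, Prod.mk.injEq, decide_eq_true_eq, decide_eq_false_iff_not]
    by_cases h0 : σ i = 0
    · rw [if_neg, if_neg, h0]
      · rintro ⟨l, rfl, -⟩
        exact hR l h0
      · rintro ⟨l, rfl, -⟩
        exact hR l h0
    · obtain ⟨l, rfl⟩ := hRs i h0
      by_cases h1 : σ (R l) = 1
      · rw [if_pos ⟨l, rfl, h1⟩, h1]
      · rw [if_neg, if_pos ⟨l, rfl, h1⟩]
        · rcases h2 : σ (R l) with _ | _ | _
          · exact absurd h2 h0
          · rfl
          · exact absurd h2 h1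
        · rintro ⟨l', h2, h3⟩
          rw [h2] at h3
          exact h1 h3
  calc (lvl n k).card ≤ (Finset.univ.image dec).card := Finset.card_le_card h
    _ ≤ (Finset.univ : Finset (Fin k → Fin n × Bool)).card := Finset.card_image_le
    _ = (2 * n) ^ k := by
      rw [Finset.card_univ, Fintype.card_fun, Fintype.card_prod, Fintype.card_fin,
        Fintype.card_bool, Fintype.card_fin, mul_comm]

namespace CubeSys

variable {m n : ℕ} {X : Type} [TopologicalSpace X] (C : CubeSys m n X)

theorem exists_slice (hn : m + 2 ≤ n) {σ : Fin n → SignType} (hσ : (supp σ).card = m) :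
    ∃ P : PosSys (Rest σ) (C.Sl σ), (∀ i h, P.pos i h = C.pos i.1 h.1) ∧
      ∃ i j : Rest σ, i ≠ j := by
  obtain ⟨R, hRi, hR, hRs⟩ := exists_enum hσ
  have hz : 1 < (zers σ).card := by
    have h1 : (supp σ).card + (zers σ).card = n := by
      have := Finset.card_filter_add_card_filter_not (s := (Finset.univ : Finset (Fin n)))
        (p := fun i => σ i = 0)
      rw [Finset.card_univ, Fintype.card_fin] at this
      have h2 : supp σ = Finset.univ.filter (fun i => ¬ σ i = 0) := rfl
      rw [h2]
      unfold zers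
      omega
    omega
  obtain ⟨i, hi, j, hj, hij⟩ := Finset.one_lt_card.1 hz
  rw [mem_zers] at hi hj
  have hij' : (⟨i, hi⟩ : Rest σ) ≠ ⟨j, hj⟩ := fun h => hij (congrArg Subtype.val h)
  have hz : ∀ k, σ k ≠ 0 → C.pos k (C.pt (tup R i j) 1 (qv σ R 0 0)) = (σ k : ℝ) :=
    pt_mem_Sl hRi hR hRs hij' (Or.inl rfl) (by norm_num) (by norm_num)
  exact ⟨C.slice σ R hRi hR hRs ⟨_, hz⟩, fun _ _ => rfl, _, _, hij'⟩

theorem str_update_eq {σ : Fin n → SignType} {P : PosSys (Rest σ) (C.Sl σ)}
    (hP : ∀ i h, P.pos i h = C.pos i.1 h.1) {b : Fin n} (hb : σ b = 0) {δ : SignType}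
    (hδ : δ ≠ 0) :
    C.str (Function.update σ b δ) = Subtype.val '' P.edge ⟨b, hb⟩ (δ : ℝ) := by
  ext h
  constructor
  · intro hh
    have h1 : ∀ i, σ i ≠ 0 → C.pos i h = (σ i : ℝ) := by
      intro i hi
      have hib : i ≠ b := fun h => hi (h ▸ hb)
      have := (hh i).2 (by rw [Function.update_of_ne hib]; exact hi)
      rwa [Function.update_of_ne hib] at this
    refine ⟨⟨h, h1⟩, ⟨?_, ?_⟩, rfl⟩
    · rw [hP]
      have := (hh b).2 (by rw [Function.update_self]; exact hδ)
      rwa [Function.update_self] at this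
    · intro l hl
      rw [hP]
      have hlb : l.1 ≠ b := fun h => hl (Subtype.ext h)
      exact (hh l.1).1 (by rw [Function.update_of_ne hlb]; exact l.2)
  · rintro ⟨u, ⟨h1, h2⟩, rfl⟩ i
    rw [hP] at h1
    by_cases hib : i = b
    · subst hib
      rw [Function.update_self]
      exact ⟨fun h => absurd h hδ, fun _ => h1⟩
    · rw [Function.update_of_ne hib]
      refine ⟨fun h0 => ?_, fun h0 => u.2 i h0⟩
      have := h2 ⟨i, h0⟩ (fun h => hib (congrArg Subtype.val h))
      rwa [hP] at this

theorem slice_edges (hn : m + 2 ≤ n) {σ : Fin n → SignType} (hσ : (supp σ).card = m) :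
    ∑ b ∈ zers σ, (ncomp (C.str (Function.update σ b 1)) +
      ncomp (C.str (Function.update σ b (-1)))) ≤ 200 * n := by
  classical
  obtain ⟨P, hP, i, j, hij⟩ := C.exists_slice hn hσ
  have h1 := P.edges_le hij
  have h2 : ∀ b (hb : σ b = 0), ∀ δ : SignType, δ ≠ 0 →
      ncomp (C.str (Function.update σ b δ)) ≤ ncomp (P.edge ⟨b, hb⟩ (δ : ℝ)) := by
    intro b hb δ hδ
    rw [C.str_update_eq hP hb hδ]
    exact ncomp_image_le continuous_subtype_val _
  calc ∑ b ∈ zers σ, (ncomp (C.str (Function.update σ b 1)) +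
      ncomp (C.str (Function.update σ b (-1))))
      = ∑ b : Rest σ, (ncomp (C.str (Function.update σ b.1 1)) +
          ncomp (C.str (Function.update σ b.1 (-1)))) :=
        Finset.sum_subtype _ (fun x => mem_zers) _
    _ ≤ ∑ b : Rest σ, (ncomp (P.edge b 1) + ncomp (P.edge b (-1))) := by
        refine Finset.sum_le_sum fun b _ => add_le_add ?_ ?_
        · have := h2 b.1 b.2 1 (by decide)
          simpa using this
        · have := h2 b.1 b.2 (-1) (by decide)
          simpa using this
    _ ≤ 200 * Fintype.card (Rest σ) := h1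
    _ ≤ 200 * n := by
        gcongr
        have := Fintype.card_subtype_le (fun i : Fin n => σ i = 0)
        rw [Fintype.card_fin] at this
        exact_mod_cast this

/-- The vertices of a slice. -/
def VS (C : CubeSys m n X) (σ : Fin n → SignType) : Set X :=
  {h | (∀ i, |C.pos i h| ≤ 1) ∧ (∀ i, σ i ≠ 0 → C.pos i h = (σ i : ℝ)) ∧
    ∃ l l', l ≠ l' ∧ σ l = 0 ∧ σ l' = 0 ∧ |C.pos l h| = 1 ∧ |C.pos l' h| = 1}

theorem slice_vertices (hn : m + 2 ≤ n) {σ : Fin n → SignType} (hσ : (supp σ).card = m) :
    (C.VS σ).encard ≤ 88 * n := by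
  classical
  obtain ⟨P, hP, i, j, hij⟩ := C.exists_slice hn hσ
  have h1 := P.encard_V hij
  have h2 : C.VS σ ⊆ Subtype.val '' P.V := by
    rintro h ⟨h1, h2, l, l', hll, hl, hl', h3, h4⟩
    refine ⟨⟨h, h2⟩, ⟨?_, ⟨l, hl⟩, ⟨l', hl'⟩, fun h => hll (congrArg Subtype.val h), ?_, ?_⟩, rfl⟩
    · intro k
      rw [hP]
      exact h1 _
    · rw [hP]; exact h3
    · rw [hP]; exact h4
  calc (C.VS σ).encard ≤ (Subtype.val '' P.V).encard := Set.encard_le_encard h2
    _ ≤ P.V.encard := Set.encard_image_le _ _
    _ ≤ 88 * Fintype.card (Rest σ) := h1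
    _ ≤ 88 * n := by
        gcongr
        have := Fintype.card_subtype_le (fun i : Fin n => σ i = 0)
        rw [Fintype.card_fin] at this
        exact_mod_cast this

/-- The number of components of the strata of level `k`. -/
noncomputable def N (k : ℕ) : ℕ∞ := ∑ σ ∈ lvl n k, ncomp (C.str σ)

theorem N_step [T2Space X] (hn : m + 2 ≤ n) {k : ℕ} (hk : k ≤ m) :
    C.N k ≤ (2 * (k + 1) : ℕ) * C.N (k + 1) := by
  classical
  have key : ∀ δ : SignType, δ ≠ 0 →
      ∑ x ∈ (lvl n k).sigma (fun σ => zers σ), ncomp (C.str (Function.update x.1 x.2 δ)) ≤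
      ((k + 1 : ℕ) : ℕ∞) * C.N (k + 1) := by
    intro δ hδ
    calc ∑ x ∈ (lvl n k).sigma (fun σ => zers σ), ncomp (C.str (Function.update x.1 x.2 δ))
        ≤ ∑ y ∈ (lvl n (k + 1)).sigma (fun σ => supp σ), ncomp (C.str y.1) := by
          refine sum_le_sum_inj _ _ _ _ (fun x => ⟨Function.update x.1 x.2 δ, x.2⟩) ?_ ?_ ?_
          · rintro ⟨σ, b⟩ hx
            rw [Finset.mem_sigma] at hx ⊢
            obtain ⟨h1, h2⟩ := hx
            simp only [] at h1 h2 ⊢
            rw [mem_zers] at h2
            rw [mem_lvl] at h1 ⊢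
            refine ⟨by rw [card_supp_update h2 hδ, h1], ?_⟩
            rw [mem_supp, Function.update_self]
            exact hδ
          · rintro ⟨σ, b⟩ hx ⟨σ', b'⟩ hx' h
            rw [Finset.mem_coe, Finset.mem_sigma] at hx hx'
            obtain ⟨-, h2⟩ := hx
            obtain ⟨-, h2'⟩ := hx'
            simp only [] at h2 h2'
            rw [mem_zers] at h2 h2'
            simp only [Sigma.mk.injEq, heq_eq_eq] at h
            obtain ⟨h3, rfl⟩ := h
            have h4 : σ = σ' := by
              funext i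
              by_cases hi : i = b
              · rw [hi, h2, h2']
              · have := congrFun h3 i
                rwa [Function.update_of_ne hi, Function.update_of_ne hi] at this
            rw [h4]
          · rintro ⟨σ, b⟩ _
            exact le_rfl
      _ = ∑ σ ∈ lvl n (k + 1), ∑ b ∈ supp σ, ncomp (C.str σ) := by
          rw [Finset.sum_sigma]
      _ = ∑ σ ∈ lvl n (k + 1), ((k + 1 : ℕ) : ℕ∞) * ncomp (C.str σ) := by
          refine Finset.sum_congr rfl fun σ hσ => ?_
          rw [Finset.sum_const, mem_lvl.1 hσ, nsmul_eq_mul]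
      _ = ((k + 1 : ℕ) : ℕ∞) * C.N (k + 1) := by
          rw [N, Finset.mul_sum]
  calc C.N k ≤ ∑ σ ∈ lvl n k, ∑ b ∈ zers σ, (ncomp (C.str (Function.update σ b 1)) +
          ncomp (C.str (Function.update σ b (-1)))) := by
        refine Finset.sum_le_sum fun σ hσ => ?_
        exact C.ncomp_step hn σ (by
          have := mem_lvl.1 hσ
          unfold supp at this
          omega)
    _ = ∑ x ∈ (lvl n k).sigma (fun σ => zers σ), (ncomp (C.str (Function.update x.1 x.2 1)) +
          ncomp (C.str (Function.update x.1 x.2 (-1)))) := by rw [Finset.sum_sigma]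
    _ = _ := Finset.sum_add_distrib
    _ ≤ ((k + 1 : ℕ) : ℕ∞) * C.N (k + 1) + ((k + 1 : ℕ) : ℕ∞) * C.N (k + 1) :=
        add_le_add (key 1 (by decide)) (key (-1) (by decide))
    _ = (2 * (k + 1) : ℕ) * C.N (k + 1) := by
        push_cast
        ring

theorem N_pow [T2Space X] (hn : m + 2 ≤ n) (j : ℕ) : ∀ k, k + j = m + 1 →
    C.N k ≤ ((2 * (m + 1)) ^ j : ℕ) * C.N (m + 1) := by
  induction j with
  | zero =>
    intro k hk
    have : k = m + 1 := by omega
    rw [this]
    simp
  | succ j ih =>
    intro k hk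
    have hk' : k ≤ m := by omega
    have h1 := C.N_step hn hk'
    have h2 := ih (k + 1) (by omega)
    calc C.N k ≤ (2 * (k + 1) : ℕ) * C.N (k + 1) := h1
      _ ≤ (2 * (m + 1) : ℕ) * (((2 * (m + 1)) ^ j : ℕ) * C.N (m + 1)) := by
          gcongr
      _ = ((2 * (m + 1)) ^ (j + 1) : ℕ) * C.N (m + 1) := by
          rw [pow_succ]
          push_cast
          ring

theorem N_top (hn : m + 2 ≤ n) : C.N (m + 1) ≤ ((lvl n m).card : ℕ∞) * (200 * n) := by
  classical
  have hch : ∀ σ : Fin n → SignType, ∃ b : Fin n, σ ∈ lvl n (m + 1) → σ b ≠ 0 := by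
    intro σ
    by_cases h : σ ∈ lvl n (m + 1)
    · have h1 : (supp σ).Nonempty := by
        rw [← Finset.card_pos, mem_lvl.1 h]
        omega
      obtain ⟨b, hb⟩ := h1
      exact ⟨b, fun _ => mem_supp.1 hb⟩
    · exact ⟨⟨0, by omega⟩, fun h' => absurd h' h⟩
  choose β hβ using hch
  have hup : ∀ σ : Fin n → SignType, Function.update (Function.update σ (β σ) 0) (β σ) (σ (β σ)) = σ := by
    intro σ
    rw [Function.update_idem, Function.update_eq_self]
  calc C.N (m + 1)
      ≤ ∑ x ∈ ((lvl n m).sigma (fun σ => zers σ)) ×ˢ ({1, -1} : Finset SignType),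
          ncomp (C.str (Function.update x.1.1 x.1.2 x.2)) := by
        refine sum_le_sum_inj _ _ _ _
          (fun σ => (⟨Function.update σ (β σ) 0, β σ⟩, σ (β σ))) ?_ ?_ ?_
        · intro σ hσ
          have h0 := hβ σ hσ
          rw [Finset.mem_product, Finset.mem_sigma]
          simp only []
          refine ⟨⟨?_, ?_⟩, ?_⟩
          · rw [mem_lvl, supp_erase, Finset.card_erase_of_mem (mem_supp.2 h0), mem_lvl.1 hσ]
            rfl
          · rw [mem_zers, Function.update_self]
          · rw [Finset.mem_insert, Finset.mem_singleton]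
            rcases h : σ (β σ) with _ | _ | _
            · exact absurd h h0
            · exact Or.inr rfl
            · exact Or.inl rfl
        · intro σ _ σ' _ h
          simp only [Prod.mk.injEq, Sigma.mk.injEq, heq_eq_eq] at h
          obtain ⟨⟨h1, h2⟩, h3⟩ := h
          rw [← hup σ, ← hup σ', h1, h3, h2]
        · intro σ _
          simp only []
          rw [hup]
    _ = ∑ σ ∈ lvl n m, ∑ b ∈ zers σ, (ncomp (C.str (Function.update σ b 1)) +
          ncomp (C.str (Function.update σ b (-1)))) := by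
        rw [Finset.sum_product, Finset.sum_sigma]
        refine Finset.sum_congr rfl fun σ _ => Finset.sum_congr rfl fun b _ => ?_
        rw [Finset.sum_pair (by decide)]
    _ ≤ ∑ σ ∈ lvl n m, (200 * n : ℕ∞) :=
        Finset.sum_le_sum fun σ hσ => C.slice_edges hn (mem_lvl.1 hσ)
    _ = ((lvl n m).card : ℕ∞) * (200 * n) := by
        rw [Finset.sum_const, nsmul_eq_mul]

theorem big_le (hn : m + 2 ≤ n) :
    ∑ σ ∈ Finset.univ.filter (fun σ : Fin n → SignType => m + 2 ≤ (supp σ).card),
      ncomp (C.str σ) ≤ ((lvl n m).card : ℕ∞) * (88 * n) := by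
  classical
  calc ∑ σ ∈ Finset.univ.filter (fun σ : Fin n → SignType => m + 2 ≤ (supp σ).card),
      ncomp (C.str σ)
      ≤ ∑ σ ∈ Finset.univ.filter (fun σ : Fin n → SignType => m + 2 ≤ (supp σ).card),
        (C.str σ).encard := Finset.sum_le_sum fun σ _ => ncomp_le_encard _
    _ ≤ _ := PosSys.sum_encard_le _ _
    _ ≤ (⋃ σ ∈ lvl n m, C.VS σ).encard := by
        refine encard_le_of_rel _ _ (fun p h => p.2 = h) ?_ ?_
        · rintro ⟨σ, h⟩ ⟨hσ, hh⟩
          simp only [] at hσ hh
          rw [Finset.mem_filter] at hσ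
          obtain ⟨S, hS1, hS2⟩ := Finset.exists_subset_card_eq (s := supp σ) (n := m) (by omega)
          set τ : Fin n → SignType := fun i => if i ∈ S then σ i else 0 with hτ
          have hτs : supp τ = S := by
            ext i
            rw [mem_supp]
            by_cases hi : i ∈ S
            · simp only [hτ, if_pos hi]
              exact ⟨fun _ => hi, fun _ => mem_supp.1 (hS1 hi)⟩
            · simp [hτ, hi]
          have hcard : 1 < (supp σ \ S).card := by
            rw [Finset.card_sdiff_of_subset hS1]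
            omega
          obtain ⟨l, hl, l', hl', hll⟩ := Finset.one_lt_card.1 hcard
          rw [Finset.mem_sdiff, mem_supp] at hl hl'
          refine ⟨h, ?_, rfl⟩
          simp only [mem_iUnion]
          refine ⟨τ, by rw [mem_lvl, hτs, hS2], ?_, ?_, l, l', hll, ?_, ?_, ?_, ?_⟩
          · intro i
            exact str_abs_le hh i
          · intro i hi
            have hiS : i ∈ S := by rw [← hτs]; exact mem_supp.2 hi
            have : τ i = σ i := by simp [hτ, hiS]
            rw [this]
            exact (hh i).2 (mem_supp.1 (hS1 hiS))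
          · simp [hτ, hl.2]
          · simp [hτ, hl'.2]
          · rw [(hh l).2 hl.1, SignType.abs_cast_eq_one hl.1]
          · rw [(hh l').2 hl'.1, SignType.abs_cast_eq_one hl'.1]
        · rintro ⟨σ, h⟩ ⟨-, hh⟩ ⟨σ', h'⟩ ⟨-, hh'⟩ k - rfl hk
          simp only [] at hh hh' hk
          subst hk
          have : σ = σ' := by
            funext i
            by_cases h0 : σ i = 0
            · by_cases h0' : σ' i = 0
              · rw [h0, h0']
              · exfalso
                have h1 := (hh i).1 h0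
                rw [(hh' i).2 h0', SignType.abs_cast_eq_one h0'] at h1
                exact lt_irrefl _ h1
            · by_cases h0' : σ' i = 0
              · exfalso
                have h1 := (hh' i).1 h0'
                rw [(hh i).2 h0, SignType.abs_cast_eq_one h0] at h1
                exact lt_irrefl _ h1
              · have h1 := ((hh i).2 h0).symm.trans ((hh' i).2 h0')
                rcases h2 : σ i with _ | _ | _ <;> rcases h3 : σ' i with _ | _ | _ <;>
                  rw [h2, h3] at h1 <;> first | rfl | (norm_num at h1)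
          rw [this]
    _ ≤ ∑ σ ∈ lvl n m, (C.VS σ).encard := encard_biUnion_le_sum _ _
    _ ≤ ∑ σ ∈ lvl n m, (88 * n : ℕ∞) :=
        Finset.sum_le_sum fun σ hσ => C.slice_vertices hn (mem_lvl.1 hσ)
    _ = ((lvl n m).card : ℕ∞) * (88 * n) := by
        rw [Finset.sum_const, nsmul_eq_mul]

/-- The constant. -/
def K (m : ℕ) : ℕ := 2 ^ m * ((m + 2) * (2 * (m + 1)) ^ (m + 1) * 200 + 88)

theorem total_le [T2Space X] (hn : m + 2 ≤ n) :
    ∑ σ : Fin n → SignType, ncomp (C.str σ) ≤ (K m * n ^ (m + 1) : ℕ) := by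
  classical
  have hlow : ∑ σ ∈ Finset.univ.filter (fun σ : Fin n → SignType => ¬ m + 2 ≤ (supp σ).card),
      ncomp (C.str σ) ≤ (((m + 2) * (2 * (m + 1)) ^ (m + 1) : ℕ) : ℕ∞) * C.N (m + 1) := by
    have h1 : ∑ σ ∈ Finset.univ.filter (fun σ : Fin n → SignType => ¬ m + 2 ≤ (supp σ).card),
        ncomp (C.str σ) = ∑ k ∈ Finset.range (m + 2), C.N k := by
      rw [← Finset.sum_fiberwise_of_maps_to (t := Finset.range (m + 2))
        (g := fun σ : Fin n → SignType => (supp σ).card)]
      · refine Finset.sum_congr rfl fun k hk => ?_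
        unfold N
        refine Finset.sum_congr ?_ fun _ _ => rfl
        ext σ
        rw [Finset.mem_filter, Finset.mem_filter, mem_lvl]
        rw [Finset.mem_range] at hk
        constructor
        · rintro ⟨-, h⟩
          exact h
        · intro h
          exact ⟨⟨Finset.mem_univ _, by omega⟩, h⟩
      · intro σ hσ
        rw [Finset.mem_filter] at hσ
        rw [Finset.mem_range]
        omega
    rw [h1]
    calc ∑ k ∈ Finset.range (m + 2), C.N k
        ≤ ∑ k ∈ Finset.range (m + 2), (((2 * (m + 1)) ^ (m + 1) : ℕ) : ℕ∞) * C.N (m + 1) := by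
          refine Finset.sum_le_sum fun k hk => ?_
          rw [Finset.mem_range] at hk
          refine (C.N_pow hn (m + 1 - k) k (by omega)).trans ?_
          gcongr
          · omega
          · omega
      _ = _ := by
          rw [Finset.sum_const, Finset.card_range, nsmul_eq_mul]
          push_cast
          ring
  rw [← Finset.sum_filter_add_sum_filter_not Finset.univ
    (fun σ : Fin n → SignType => m + 2 ≤ (supp σ).card)]
  have hc : ((lvl n m).card : ℕ∞) ≤ ((2 * n) ^ m : ℕ) := by exact_mod_cast card_lvl_le n m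
  calc _ ≤ ((lvl n m).card : ℕ∞) * (88 * n) + (((m + 2) * (2 * (m + 1)) ^ (m + 1) : ℕ) : ℕ∞) *
        (((lvl n m).card : ℕ∞) * (200 * n)) := by
        refine add_le_add (C.big_le hn) (hlow.trans ?_)
        gcongr
        exact C.N_top hn
    _ ≤ ((2 * n) ^ m : ℕ) * (88 * n) + (((m + 2) * (2 * (m + 1)) ^ (m + 1) : ℕ) : ℕ∞) *
        (((2 * n) ^ m : ℕ) * (200 * n)) := by
        gcongr
    _ = (K m * n ^ (m + 1) : ℕ) := by
        rw [K, mul_pow, pow_succ n m]
        push_cast
        ring

end CubeSys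

end HyperplaneTransversals
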