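import Pool.Agent.Lib.MP_b2e5b9_co.Basic

/-!
# Sets with nonempty interior: definitions

Plan of the proof of the `O(n ^ (d - 1))` bound for separated families of convex bodies.
-/

set_option autoImplicit false

open scoped RealInnerProductSpace Topology

namespace HyperplaneTransversals

/-- Oriented hyperplanes: a unit normal and an offset. -/
abbrev OH (d : ℕ) : Type := Metric.sphere (0 : E d) 1 × ℝ

/-- upper support function -/
noncomputable def hi {d : ℕ} (K : Set (E d)) (u : E d) : ℝ := sSup ((fun x => ⟪u, x⟫) '' K)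

/-- lower support function -/
noncomputable def lo {d : ℕ} (K : Set (E d)) (u : E d) : ℝ := sInf ((fun x => ⟪u, x⟫) '' K)

/-- The position of an oriented hyperplane relative to the body `K`: it is `-1` at the lower
supporting hyperplane, `1` at the upper one, and affine in the offset. -/
noncomputable def pos {d : ℕ} (K : Set (E d)) (h : OH d) : ℝ :=
  (2 * h.2 - hi K h.1 - lo K h.1) / (hi K h.1 - lo K h.1)

/-- A separated family of convex bodies in dimension `m + 2`. -/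
structure Fam {m n : ℕ} (A : Fin n → Set (E (m + 2))) : Prop where
  compact : ∀ i, IsCompact (A i)
  convex : ∀ i, Convex ℝ (A i)
  body : ∀ i, (interior (A i)).Nonempty
  sep : Separated m A

/-- The determinant with rows `w, a 1 - a 0, a 2 - a 0, …`. -/
noncomputable def vol {m : ℕ} (a : Fin (m + 2) → E (m + 2)) (w : E (m + 2)) : ℝ :=
  Matrix.det (Matrix.of fun i j : Fin (m + 2) =>
    (Fin.cons w (fun l : Fin (m + 1) => a l.succ - a 0) : Fin (m + 2) → E (m + 2)) i j)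

/-- The orientation (`1` or `-1`) of the members `A (I 0), …, A (I (m + 1))` inside the oriented
hyperplane `h` (meaningful if `h` meets these members). -/
noncomputable def orient {m n : ℕ} (A : Fin n → Set (E (m + 2))) (I : Fin (m + 2) → Fin n)
    (h : OH (m + 2)) : ℝ :=
  open Classical in
  if ∃ a : Fin (m + 2) → E (m + 2), (∀ j, a j ∈ A (I j) ∧ ⟪(h.1 : E (m + 2)), a j⟫ = h.2) ∧
    0 < vol a h.1 then 1 else -1

/-- The abstract properties of the positions and orientations that are used. The points of `X`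
are (oriented) hyperplanes, `n` is the number of bodies, the dimension is `m + 2`. -/
structure CubeSys (m n : ℕ) (X : Type) [TopologicalSpace X] where
  /-- position relative to a body -/
  pos : Fin n → X → ℝ
  /-- orientation of a tuple of bodies -/
  ori : (Fin (m + 2) → Fin n) → X → ℝ
  /-- the point with given positions and orientation -/
  pt : (Fin (m + 2) → Fin n) → ℝ → (Fin (m + 2) → ℝ) → X
  cont_pos : ∀ i, Continuous (pos i)
  ori_mem : ∀ I h, ori I h = 1 ∨ ori I h = -1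
  ori_closed : ∀ I, Function.Injective I → ∀ ε : ℝ,
    IsClosed {h | (∀ j, |pos (I j) h| ≤ 1) ∧ ori I h = ε}
  pt_cont : ∀ I, Function.Injective I → ∀ ε : ℝ, (ε = 1 ∨ ε = -1) →
    ContinuousOn (pt I ε) {q | ∀ j, |q j| ≤ 1}
  pt_pos : ∀ I, Function.Injective I → ∀ ε : ℝ, (ε = 1 ∨ ε = -1) → ∀ q : Fin (m + 2) → ℝ,
    (∀ j, |q j| ≤ 1) → ∀ j, pos (I j) (pt I ε q) = q j
  pt_ori : ∀ I, Function.Injective I → ∀ ε : ℝ, (ε = 1 ∨ ε = -1) → ∀ q : Fin (m + 2) → ℝ,
    (∀ j, |q j| ≤ 1) → ori I (pt I ε q) = ε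
  pt_unique : ∀ I, Function.Injective I → ∀ h, (∀ j, |pos (I j) h| ≤ 1) →
    pt I (ori I h) (fun j => pos (I j) h) = h
  mono : ∀ I, Function.Injective I → ∀ b, (∀ j, I j ≠ b) → ∀ h₀, (∀ j, |pos (I j) h₀| ≤ 1) →
    |pos b h₀| ≤ 1 → ∀ᶠ p : X × X in 𝓝 (h₀, h₀),
      (∀ j, j ≠ Fin.last (m + 1) → pos (I j) p.1 = pos (I j) p.2) →
      SignType.sign (pos b p.1 - pos b p.2) =
        SignType.sign (ori I h₀ * ori (Function.update I (Fin.last (m + 1)) b) h₀ *
          (pos (I (Fin.last (m + 1))) p.1 - pos (I (Fin.last (m + 1))) p.2))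

/-- The number of connected components of a set. -/
noncomputable def ncomp {X : Type} [TopologicalSpace X] (s : Set X) : ℕ∞ :=
  ((fun x => connectedComponentIn s x) '' s).encard

/-- The stratum of the points with the sign vector `σ` (`0`: crossing, `±1`: tangent). -/
def CubeSys.str {m n : ℕ} {X : Type} [TopologicalSpace X] (C : CubeSys m n X)
    (σ : Fin n → SignType) : Set X :=
  {h | ∀ i, (σ i = 0 → |C.pos i h| < 1) ∧ (σ i ≠ 0 → C.pos i h = (σ i : ℝ))}

/-- A two-dimensional system of positions (the bodies outside a tangent `m`-tuple). -/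
structure PosSys (ι M : Type) [TopologicalSpace M] where
  /-- position relative to a body -/
  pos : ι → M → ℝ
  /-- orientation of a pair of bodies -/
  sgn : ι → ι → M → ℝ
  /-- the point with given positions and orientation -/
  pt : ι → ι → ℝ → ℝ → ℝ → M
  cont_pos : ∀ i, Continuous (pos i)
  sgn_mem : ∀ i j h, sgn i j h = 1 ∨ sgn i j h = -1
  sgn_closed : ∀ i j, i ≠ j → ∀ ε : ℝ, IsClosed {h | |pos i h| ≤ 1 ∧ |pos j h| ≤ 1 ∧ sgn i j h = ε}
  pt_cont : ∀ i j, i ≠ j → ∀ ε : ℝ, (ε = 1 ∨ ε = -1) →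
    ContinuousOn (fun q : ℝ × ℝ => pt i j ε q.1 q.2) {q | |q.1| ≤ 1 ∧ |q.2| ≤ 1}
  pt_pos₁ : ∀ i j, i ≠ j → ∀ ε : ℝ, (ε = 1 ∨ ε = -1) → ∀ x y : ℝ, |x| ≤ 1 → |y| ≤ 1 →
    pos i (pt i j ε x y) = x
  pt_pos₂ : ∀ i j, i ≠ j → ∀ ε : ℝ, (ε = 1 ∨ ε = -1) → ∀ x y : ℝ, |x| ≤ 1 → |y| ≤ 1 →
    pos j (pt i j ε x y) = y
  pt_sgn : ∀ i j, i ≠ j → ∀ ε : ℝ, (ε = 1 ∨ ε = -1) → ∀ x y : ℝ, |x| ≤ 1 → |y| ≤ 1 →
    sgn i j (pt i j ε x y) = ε
  pt_unique : ∀ i j, i ≠ j → ∀ h, |pos i h| ≤ 1 → |pos j h| ≤ 1 →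
    pt i j (sgn i j h) (pos i h) (pos j h) = h
  mono : ∀ i j k, i ≠ j → i ≠ k → j ≠ k → ∀ h₀, |pos i h₀| ≤ 1 → |pos j h₀| ≤ 1 →
    |pos k h₀| ≤ 1 → ∀ᶠ p : M × M in 𝓝 (h₀, h₀), pos i p.1 = pos i p.2 →
      SignType.sign (pos k p.1 - pos k p.2) =
        SignType.sign (sgn i j h₀ * sgn i k h₀ * (pos j p.1 - pos j p.2))

end HyperplaneTransversals
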