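import Pool.Agent.Lib.MP_b2e5b9_co.Fat.Tangent

/-!
# Support functions, positions and orientations of a separated family of convex bodies
-/

set_option autoImplicit false

open scoped RealInnerProductSpace Topology

namespace HyperplaneTransversals

section support

variable {d : ℕ} {K : Set (E d)}

theorem exists_hi (hK : IsCompact K) (hne : K.Nonempty) (u : E d) :
    ∃ x ∈ K, ⟪u, x⟫ = hi K u := by
  have hc : IsCompact ((fun x => ⟪u, x⟫) '' K) := hK.image (by fun_prop)
  obtain ⟨x, hx, h⟩ := hc.sSup_mem (hne.image _)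
  exact ⟨x, hx, h⟩

theorem exists_lo (hK : IsCompact K) (hne : K.Nonempty) (u : E d) :
    ∃ x ∈ K, ⟪u, x⟫ = lo K u := by
  have hc : IsCompact ((fun x => ⟪u, x⟫) '' K) := hK.image (by fun_prop)
  obtain ⟨x, hx, h⟩ := hc.sInf_mem (hne.image _)
  exact ⟨x, hx, h⟩

theorem le_hi (hK : IsCompact K) (u : E d) {x : E d} (hx : x ∈ K) : ⟪u, x⟫ ≤ hi K u := by
  have hc : IsCompact ((fun x => ⟪u, x⟫) '' K) := hK.image (by fun_prop)
  exact le_csSup hc.bddAbove ⟨x, hx, rfl⟩

theorem lo_le (hK : IsCompact K) (u : E d) {x : E d} (hx : x ∈ K) : lo K u ≤ ⟪u, x⟫ := by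
  have hc : IsCompact ((fun x => ⟪u, x⟫) '' K) := hK.image (by fun_prop)
  exact csInf_le hc.bddBelow ⟨x, hx, rfl⟩

theorem lo_le_hi (hK : IsCompact K) (hne : K.Nonempty) (u : E d) : lo K u ≤ hi K u := by
  obtain ⟨x, hx⟩ := hne
  exact (lo_le hK u hx).trans (le_hi hK u hx)

theorem hi_smul (hK : IsCompact K) (hne : K.Nonempty) (c : ℝ) (hc : 0 ≤ c) (u : E d) :
    hi K (c • u) = c * hi K u := by
  obtain ⟨x, hx, h⟩ := exists_hi hK hne u
  obtain ⟨y, hy, h'⟩ := exists_hi hK hne (c • u)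
  apply le_antisymm
  · rw [← h', real_inner_smul_left]
    exact mul_le_mul_of_nonneg_left (le_hi hK u hy) hc
  · rw [← h, ← real_inner_smul_left]
    exact le_hi hK _ hx

theorem lo_smul (hK : IsCompact K) (hne : K.Nonempty) (c : ℝ) (hc : 0 ≤ c) (u : E d) :
    lo K (c • u) = c * lo K u := by
  obtain ⟨x, hx, h⟩ := exists_lo hK hne u
  obtain ⟨y, hy, h'⟩ := exists_lo hK hne (c • u)
  apply le_antisymm
  · rw [← h, ← real_inner_smul_left]
    exact lo_le hK _ hx
  · rw [← h', real_inner_smul_left]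
    exact mul_le_mul_of_nonneg_left (lo_le hK u hy) hc

theorem lo_lt_hi (hK : IsCompact K) (hint : (interior K).Nonempty) {u : E d} (hu : u ≠ 0) :
    lo K u < hi K u := by
  obtain ⟨x, hx⟩ := hint
  have hxK : x ∈ K := interior_subset hx
  have h1 : ∀ᶠ s : ℝ in 𝓝 0, x + s • u ∈ K := by
    have hcont : Filter.Tendsto (fun s : ℝ => x + s • u) (𝓝 0) (𝓝 (x + (0 : ℝ) • u)) := by
      apply Continuous.tendsto
      fun_prop
    rw [zero_smul, add_zero] at hcont
    exact (hcont.eventually (isOpen_interior.mem_nhds hx)).mono fun s hs => interior_subset hs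
  obtain ⟨s, hs, hsK⟩ := ((h1.filter_mono nhdsWithin_le_nhds).and
    (self_mem_nhdsWithin (s := Set.Ioi (0 : ℝ)))).exists
  have hpos : 0 < s := hsK
  have hlt : ⟪u, x⟫ < ⟪u, x + s • u⟫ := by
    rw [inner_add_right, real_inner_smul_right]
    have : 0 < ⟪u, u⟫ := real_inner_self_pos.2 hu
    nlinarith [mul_pos hpos this]
  exact (lo_le hK u hxK).trans_lt (hlt.trans_le (le_hi hK u hs))

/-- A real number between two values is a value at a convex combination. -/
theorem exists_combo {x y : E d} (w : E d) {r : ℝ} (h1 : ⟪y, w⟫ ≤ r) (h2 : r ≤ ⟪x, w⟫) :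
    ∃ c : ℝ, 0 ≤ c ∧ c ≤ 1 ∧ ⟪(1 - c) • x + c • y, w⟫ = r := by
  by_cases h : ⟪x, w⟫ = ⟪y, w⟫
  · refine ⟨0, le_rfl, zero_le_one, ?_⟩
    rw [sub_zero, one_smul, zero_smul, add_zero]
    linarith
  · have hne : ⟪x, w⟫ - ⟪y, w⟫ ≠ 0 := sub_ne_zero.2 h
    have hpos : 0 < ⟪x, w⟫ - ⟪y, w⟫ := lt_of_le_of_ne (by linarith) (Ne.symm hne)
    refine ⟨(⟪x, w⟫ - r) / (⟪x, w⟫ - ⟪y, w⟫), ?_, ?_, ?_⟩
    · exact div_nonneg (by linarith) hpos.le
    · rw [div_le_one hpos]
      linarith
    · rw [inner_add_left, real_inner_smul_left, real_inner_smul_left]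
      field_simp
      ring

theorem exists_meet (hK : IsCompact K) (hconv : Convex ℝ K) (hne : K.Nonempty) (u : E d) (t : ℝ) :
    (∃ x ∈ K, ⟪u, x⟫ = t) ↔ lo K u ≤ t ∧ t ≤ hi K u := by
  constructor
  · rintro ⟨x, hx, rfl⟩
    exact ⟨lo_le hK u hx, le_hi hK u hx⟩
  · rintro ⟨h1, h2⟩
    obtain ⟨x, hx, h⟩ := exists_hi hK hne u
    obtain ⟨y, hy, h'⟩ := exists_lo hK hne u
    rw [real_inner_comm] at h h'
    obtain ⟨c, hc0, hc1, hc⟩ := exists_combo u (r := t) (by rw [h']; exact h1)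
      (by rw [h]; exact h2)
    refine ⟨(1 - c) • x + c • y, hconv hx hy (by linarith) hc0 (by ring), ?_⟩
    rw [real_inner_comm]
    exact hc

/-- Mean value property of the upper support function. -/
theorem exists_mv_hi (hK : IsCompact K) (hconv : Convex ℝ K) (hne : K.Nonempty) {C : ℝ}
    (hC : ∀ x ∈ K, ‖x‖ ≤ C) (u v : E d) :
    ∃ a ∈ K, ⟪a, u - v⟫ = hi K u - hi K v ∧ |⟪a, v⟫ - hi K v| ≤ 2 * C * ‖u - v‖ := by
  obtain ⟨x, hx, h⟩ := exists_hi hK hne u
  obtain ⟨y, hy, h'⟩ := exists_hi hK hne v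
  have hxv := le_hi hK v hx
  have hyu := le_hi hK u hy
  rw [real_inner_comm] at h h' hxv hyu
  have hxw : ⟪x, u - v⟫ = hi K u - ⟪x, v⟫ := by rw [inner_sub_right, h]
  have hyw : ⟪y, u - v⟫ = ⟪y, u⟫ - hi K v := by rw [inner_sub_right, h']
  obtain ⟨c, hc0, hc1, hc⟩ := exists_combo (u - v) (r := hi K u - hi K v)
    (by rw [hyw]; linarith) (by rw [hxw]; linarith)
  have hmem : (1 - c) • x + c • y ∈ K := hconv hx hy (by linarith) hc0 (by ring)
  refine ⟨(1 - c) • x + c • y, hmem, hc, ?_⟩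
  have b1 : |⟪x, u - v⟫| ≤ C * ‖u - v‖ :=
    (abs_real_inner_le_norm _ _).trans (mul_le_mul_of_nonneg_right (hC x hx) (norm_nonneg _))
  have b2 : |⟪y, u - v⟫| ≤ C * ‖u - v‖ :=
    (abs_real_inner_le_norm _ _).trans (mul_le_mul_of_nonneg_right (hC y hy) (norm_nonneg _))
  rw [inner_add_left, real_inner_smul_left, real_inner_smul_left, h']
  have e : (1 - c) * ⟪x, v⟫ + c * hi K v - hi K v = (1 - c) * (⟪x, v⟫ - hi K v) := by ring
  rw [e, abs_mul, abs_of_nonneg (by linarith : (0 : ℝ) ≤ 1 - c)]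
  have b3 : |⟪x, v⟫ - hi K v| ≤ 2 * C * ‖u - v‖ := by
    rw [abs_le]
    have := (abs_le.1 b1).2
    have := (abs_le.1 b2).1
    constructor
    · linarith
    · have : 0 ≤ C * ‖u - v‖ := (abs_nonneg _).trans b1
      linarith
  have : 0 ≤ |⟪x, v⟫ - hi K v| := abs_nonneg _
  nlinarith

/-- Mean value property of the lower support function. -/
theorem exists_mv_lo (hK : IsCompact K) (hconv : Convex ℝ K) (hne : K.Nonempty) {C : ℝ}
    (hC : ∀ x ∈ K, ‖x‖ ≤ C) (u v : E d) :
    ∃ a ∈ K, ⟪a, u - v⟫ = lo K u - lo K v ∧ |⟪a, v⟫ - lo K v| ≤ 2 * C * ‖u - v‖ := by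
  obtain ⟨x, hx, h⟩ := exists_lo hK hne u
  obtain ⟨y, hy, h'⟩ := exists_lo hK hne v
  have hxv := lo_le hK v hx
  have hyu := lo_le hK u hy
  rw [real_inner_comm] at h h' hxv hyu
  have hxw : ⟪x, u - v⟫ = lo K u - ⟪x, v⟫ := by rw [inner_sub_right, h]
  have hyw : ⟪y, u - v⟫ = ⟪y, u⟫ - lo K v := by rw [inner_sub_right, h']
  obtain ⟨c, hc0, hc1, hc⟩ := exists_combo (u - v) (r := lo K u - lo K v)
    (by rw [hxw]; linarith) (by rw [hyw]; linarith)
  have hmem : (1 - c) • y + c • x ∈ K := hconv hy hx (by linarith) hc0 (by ring)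
  refine ⟨(1 - c) • y + c • x, hmem, hc, ?_⟩
  have b1 : |⟪x, u - v⟫| ≤ C * ‖u - v‖ :=
    (abs_real_inner_le_norm _ _).trans (mul_le_mul_of_nonneg_right (hC x hx) (norm_nonneg _))
  have b2 : |⟪y, u - v⟫| ≤ C * ‖u - v‖ :=
    (abs_real_inner_le_norm _ _).trans (mul_le_mul_of_nonneg_right (hC y hy) (norm_nonneg _))
  rw [inner_add_left, real_inner_smul_left, real_inner_smul_left, h']
  have e : (1 - c) * lo K v + c * ⟪x, v⟫ - lo K v = c * (⟪x, v⟫ - lo K v) := by ring
  rw [e, abs_mul, abs_of_nonneg hc0]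
  have b3 : |⟪x, v⟫ - lo K v| ≤ 2 * C * ‖u - v‖ := by
    rw [abs_le]
    have := (abs_le.1 b1).1
    have := (abs_le.1 b2).2
    constructor
    · have : 0 ≤ C * ‖u - v‖ := (abs_nonneg _).trans b1
      linarith
    · linarith
  have : 0 ≤ |⟪x, v⟫ - lo K v| := abs_nonneg _
  nlinarith

theorem exists_bound (hK : IsCompact K) : ∃ C : ℝ, 0 ≤ C ∧ ∀ x ∈ K, ‖x‖ ≤ C := by
  obtain ⟨C, hC⟩ := hK.isBounded.exists_norm_le
  exact ⟨max C 0, le_max_right _ _, fun x hx => (hC x hx).trans (le_max_left _ _)⟩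

theorem continuous_hi (hK : IsCompact K) (hconv : Convex ℝ K) (hne : K.Nonempty) :
    Continuous (hi K) := by
  obtain ⟨C, hC0, hC⟩ := exists_bound hK
  have : LipschitzWith (Real.toNNReal C) (hi K) := by
    refine LipschitzWith.of_dist_le_mul fun u v => ?_
    obtain ⟨a, ha, h, _⟩ := exists_mv_hi hK hconv hne hC u v
    rw [Real.dist_eq, ← h, dist_eq_norm, Real.coe_toNNReal C hC0]
    exact (abs_real_inner_le_norm _ _).trans (mul_le_mul_of_nonneg_right (hC a ha) (norm_nonneg _))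
  exact this.continuous

theorem continuous_lo (hK : IsCompact K) (hconv : Convex ℝ K) (hne : K.Nonempty) :
    Continuous (lo K) := by
  obtain ⟨C, hC0, hC⟩ := exists_bound hK
  have : LipschitzWith (Real.toNNReal C) (lo K) := by
    refine LipschitzWith.of_dist_le_mul fun u v => ?_
    obtain ⟨a, ha, h, _⟩ := exists_mv_lo hK hconv hne hC u v
    rw [Real.dist_eq, ← h, dist_eq_norm, Real.coe_toNNReal C hC0]
    exact (abs_real_inner_le_norm _ _).trans (mul_le_mul_of_nonneg_right (hC a ha) (norm_nonneg _))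
  exact this.continuous

/-- The level functions between the lower and the upper support function. -/
noncomputable def lev (K : Set (E d)) (q : ℝ) (u : E d) : ℝ :=
  (1 + q) / 2 * hi K u + (1 - q) / 2 * lo K u

theorem sphere_ne_zero (u : Metric.sphere (0 : E d) 1) : (u : E d) ≠ 0 := by
  intro h
  have h1 := unit_inner_self u
  rw [h, inner_zero_left] at h1
  exact zero_ne_one h1

theorem pos_eq_iff (hK : IsCompact K) (hint : (interior K).Nonempty) (h : OH d) (q : ℝ) :
    pos K h = q ↔ lev K q h.1 = h.2 := by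
  have hlt := lo_lt_hi hK hint (sphere_ne_zero h.1)
  have hne : hi K h.1 - lo K h.1 ≠ 0 := (sub_pos.2 hlt).ne'
  unfold pos lev
  rw [div_eq_iff hne]
  constructor
  · intro e
    linarith
  · intro e
    linarith

theorem lev_pos (hK : IsCompact K) (hint : (interior K).Nonempty) (h : OH d) :
    lev K (pos K h) h.1 = h.2 := (pos_eq_iff hK hint h _).1 rfl

theorem continuous_pos (hK : IsCompact K) (hconv : Convex ℝ K) (hint : (interior K).Nonempty) :
    Continuous (pos K) := by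
  have hne := hint.mono interior_subset
  have h1 := continuous_hi hK hconv hne
  have h2 := continuous_lo hK hconv hne
  have h3 : Continuous (fun h : OH d => hi K h.1) := h1.comp (by fun_prop)
  have h4 : Continuous (fun h : OH d => lo K h.1) := h2.comp (by fun_prop)
  unfold pos
  refine Continuous.div (by fun_prop) (by fun_prop) fun h => ?_
  exact (sub_pos.2 (lo_lt_hi hK hint (sphere_ne_zero h.1))).ne'

theorem abs_pos_le_one_iff (hK : IsCompact K) (hint : (interior K).Nonempty) (h : OH d) :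
    |pos K h| ≤ 1 ↔ lo K h.1 ≤ h.2 ∧ h.2 ≤ hi K h.1 := by
  have hlt := sub_pos.2 (lo_lt_hi hK hint (sphere_ne_zero h.1))
  unfold pos
  rw [abs_le, le_div_iff₀ hlt, div_le_iff₀ hlt]
  constructor
  · rintro ⟨h1, h2⟩
    constructor <;> linarith
  · rintro ⟨h1, h2⟩
    constructor <;> linarith

theorem pos_eq_one_iff' (hK : IsCompact K) (hint : (interior K).Nonempty) (h : OH d) :
    pos K h = 1 ↔ h.2 = hi K h.1 := by
  rw [pos_eq_iff hK hint]
  unfold lev
  constructor
  · intro e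
    linarith
  · intro e
    linarith

theorem pos_eq_neg_one_iff' (hK : IsCompact K) (hint : (interior K).Nonempty) (h : OH d) :
    pos K h = -1 ↔ h.2 = lo K h.1 := by
  rw [pos_eq_iff hK hint]
  unfold lev
  constructor
  · intro e
    linarith
  · intro e
    linarith

theorem lev_mv {q : ℝ} {a b u v : E d} (ha : ⟪a, u - v⟫ = hi K u - hi K v)
    (hb : ⟪b, u - v⟫ = lo K u - lo K v) :
    ⟪((1 + q) / 2) • a + ((1 - q) / 2) • b, u - v⟫ = lev K q u - lev K q v := by
  rw [inner_add_left, real_inner_smul_left, real_inner_smul_left, ha, hb]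
  unfold lev
  ring

theorem lev_smul (hK : IsCompact K) (hne : K.Nonempty) (q c : ℝ) (hc : 0 ≤ c) (u : E d) :
    lev K q (c • u) = c * lev K q u := by
  unfold lev
  rw [hi_smul hK hne c hc, lo_smul hK hne c hc]
  ring

theorem combo_mem (hconv : Convex ℝ K) {q : ℝ} (hq : |q| ≤ 1) {a b : E d} (ha : a ∈ K)
    (hb : b ∈ K) : ((1 + q) / 2) • a + ((1 - q) / 2) • b ∈ K := by
  have := abs_le.1 hq
  exact hconv ha hb (by linarith) (by linarith) (by ring)

theorem exists_enlarge {k : ℕ} (V : Submodule ℝ (E d)) (h1 : Module.finrank ℝ V ≤ k)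
    (h2 : k ≤ d) : ∃ U : Submodule ℝ (E d), V ≤ U ∧ Module.finrank ℝ U = k := by
  obtain ⟨l, hl⟩ := Nat.exists_eq_add_of_le h1
  induction l generalizing V with
  | zero => exact ⟨V, le_rfl, by omega⟩
  | succ l ih =>
    have hV : ∃ v, v ∉ V := by
      by_contra hcon
      push Not at hcon
      have hV' : V = ⊤ := Submodule.eq_top_iff'.2 hcon
      rw [hV', finrank_top, finrank_euclideanSpace, Fintype.card_fin] at hl
      omega
    obtain ⟨v, hv⟩ := hV
    have := Submodule.finrank_sup_span_singleton hv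
    obtain ⟨U, hU, hU'⟩ := ih (V ⊔ Submodule.span ℝ {v}) (by omega) (by omega)
    exact ⟨U, le_sup_left.trans hU, hU'⟩

end support

theorem isClosed_exists_mem {X Y : Type*} [TopologicalSpace X] [TopologicalSpace Y] {K : Set Y}
    (hK : IsCompact K) {R : Set (X × Y)} (hR : IsClosed R) :
    IsClosed {x | ∃ y ∈ K, (x, y) ∈ R} := by
  rw [← isOpen_compl_iff, isOpen_iff_mem_nhds]
  intro x hx
  have := hK.eventually_forall_of_forall_eventually (x₀ := x) (P := fun x y => (x, y) ∉ R)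
    (fun y hy => hR.isOpen_compl.mem_nhds (fun h => hx ⟨y, hy, h⟩))
  filter_upwards [this] with z hz
  rintro ⟨y, hy, h⟩
  exact hz y hy h

section family

variable {m n : ℕ} {A : Fin n → Set (E (m + 2))}

theorem Fam.nonempty (hA : Fam A) (i : Fin n) : (A i).Nonempty :=
  (hA.body i).mono interior_subset

theorem meets_iff (hA : Fam A) (i : Fin n) (h : OH (m + 2)) :
    (∃ x ∈ A i, ⟪(h.1 : E (m + 2)), x⟫ = h.2) ↔ |pos (A i) h| ≤ 1 := by
  rw [exists_meet (hA.compact i) (hA.convex i) (hA.nonempty i),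
    abs_pos_le_one_iff (hA.compact i) (hA.body i)]

theorem pos_eq_one_iff (hA : Fam A) (i : Fin n) (h : OH (m + 2)) :
    pos (A i) h = 1 ↔ h.2 = hi (A i) h.1 :=
  pos_eq_one_iff' (hA.compact i) (hA.body i) h

theorem pos_eq_neg_one_iff (hA : Fam A) (i : Fin n) (h : OH (m + 2)) :
    pos (A i) h = -1 ↔ h.2 = lo (A i) h.1 :=
  pos_eq_neg_one_iff' (hA.compact i) (hA.body i) h

theorem abs_pos_eq_one_iff (hA : Fam A) (i : Fin n) (h : OH (m + 2)) :
    |pos (A i) h| = 1 ↔ ((∃ x ∈ A i, ⟪(h.1 : E (m + 2)), x⟫ = h.2) ∧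
      ((∀ x ∈ A i, ⟪(h.1 : E (m + 2)), x⟫ ≤ h.2) ∨
        (∀ x ∈ A i, h.2 ≤ ⟪(h.1 : E (m + 2)), x⟫))) := by
  rw [abs_eq zero_le_one, pos_eq_one_iff hA, pos_eq_neg_one_iff hA]
  constructor
  · rintro (e | e)
    · refine ⟨?_, Or.inl fun x hx => ?_⟩
      · rw [e]
        exact exists_hi (hA.compact i) (hA.nonempty i) _
      · rw [e]
        exact le_hi (hA.compact i) _ hx
    · refine ⟨?_, Or.inr fun x hx => ?_⟩
      · rw [e]
        exact exists_lo (hA.compact i) (hA.nonempty i) _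
      · rw [e]
        exact lo_le (hA.compact i) _ hx
  · rintro ⟨⟨x, hx, hxt⟩, e | e⟩
    · left
      obtain ⟨y, hy, hyt⟩ := exists_hi (hA.compact i) (hA.nonempty i) (h.1 : E (m + 2))
      exact le_antisymm (hxt ▸ le_hi (hA.compact i) _ hx) (hyt ▸ e y hy)
    · right
      obtain ⟨y, hy, hyt⟩ := exists_lo (hA.compact i) (hA.nonempty i) (h.1 : E (m + 2))
      exact le_antisymm (hyt ▸ e y hy) (hxt ▸ lo_le (hA.compact i) _ hx)

theorem Fam.indep (hA : Fam A) {I : Fin (m + 2) → Fin n} (hI : Function.Injective I)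
    (a : Fin (m + 2) → E (m + 2)) (ha : ∀ j, a j ∈ A (I j)) : AffineIndependent ℝ a := by
  classical
  by_contra hcon
  rw [← finrank_vectorSpan_le_iff_not_affineIndependent ℝ a (n := m) (by simp)] at hcon
  obtain ⟨U, hU, hU'⟩ := exists_enlarge _ hcon (by omega)
  refine hA.sep (Finset.univ.image I) ?_ ⟨AffineSubspace.mk' (a 0) U, ⟨?_, ?_⟩, ?_⟩
  · rw [Finset.card_image_of_injective _ hI]
    simp
  · exact ⟨a 0, AffineSubspace.self_mem_mk' _ _⟩
  · rw [AffineSubspace.direction_mk']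
    exact hU'
  · intro i hi
    obtain ⟨j, -, rfl⟩ := Finset.mem_image.1 hi
    refine ⟨a j, ?_, ha j⟩
    rw [SetLike.mem_coe, AffineSubspace.mem_mk']
    exact hU (vsub_mem_vectorSpan ℝ ⟨j, rfl⟩ ⟨0, rfl⟩)

theorem orient_mem (A : Fin n → Set (E (m + 2))) (I : Fin (m + 2) → Fin n) (h : OH (m + 2)) :
    orient A I h = 1 ∨ orient A I h = -1 := by
  unfold orient
  split_ifs
  · exact Or.inl rfl
  · exact Or.inr rfl

theorem orient_mul_vol_pos (hA : Fam A) {I : Fin (m + 2) → Fin n} (hI : Function.Injective I)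
    {h : OH (m + 2)} {a : Fin (m + 2) → E (m + 2)} (ha : ∀ j, a j ∈ A (I j))
    (hat : ∀ j, ⟪(h.1 : E (m + 2)), a j⟫ = h.2) : 0 < orient A I h * vol a h.1 := by
  have hat' : ∀ j, ⟪a j, (h.1 : E (m + 2))⟫ = h.2 := fun j => by
    rw [real_inner_comm]
    exact hat j
  have hne : vol a h.1 ≠ 0 := vol_ne_zero (hA.indep hI a ha) (sphere_ne_zero h.1) hat'
  unfold orient
  split_ifs with hex
  · obtain ⟨b, hb, hbpos⟩ := hex
    have hs := vol_sign (K := fun j => A (I j)) (fun j => hA.convex (I j))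
      (fun a ha => hA.indep hI a ha) (sphere_ne_zero h.1) ha (fun j => (hb j).1) hat'
      (fun j => by
        rw [real_inner_comm]
        exact (hb j).2)
    rw [one_mul]
    exact (pos_iff_pos_of_mul_pos hs).2 hbpos
  · have hlt : vol a h.1 < 0 := by
      refine lt_of_le_of_ne ?_ hne
      by_contra hcon
      exact hex ⟨a, fun j => ⟨ha j, hat j⟩, not_le.1 hcon⟩
    linarith

theorem Fam.tanSys (hA : Fam A) {I : Fin (m + 2) → Fin n} (hI : Function.Injective I)
    {q : Fin (m + 2) → ℝ} (hq : ∀ j, |q j| ≤ 1) :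
    TanSys (fun j => A (I j)) (fun j => lev (A (I j)) (q j)) where
  compact j := hA.compact (I j)
  convex j := hA.convex (I j)
  nonempty j := hA.nonempty (I j)
  indep a ha := hA.indep hI a ha
  hom j c hc u := lev_smul (hA.compact _) (hA.nonempty _) _ c hc u
  mv j u v := by
    obtain ⟨C, _, hC⟩ := exists_bound (hA.compact (I j))
    obtain ⟨a, ha, ha', _⟩ := exists_mv_hi (hA.compact (I j)) (hA.convex (I j))
      (hA.nonempty (I j)) hC u v
    obtain ⟨b, hb, hb', _⟩ := exists_mv_lo (hA.compact (I j)) (hA.convex (I j))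
      (hA.nonempty (I j)) hC u v
    exact ⟨_, combo_mem (hA.convex (I j)) (hq j) ha hb, (lev_mv ha' hb').symm⟩

theorem Fam.exists_points (hA : Fam A) {I : Fin (m + 2) → Fin n} {h : OH (m + 2)}
    (hp : ∀ j, |pos (A (I j)) h| ≤ 1) :
    ∃ a : Fin (m + 2) → E (m + 2), (∀ j, a j ∈ A (I j)) ∧
      ∀ j, ⟪(h.1 : E (m + 2)), a j⟫ = h.2 := by
  choose a ha using fun j => (meets_iff hA (I j) h).2 (hp j)
  exact ⟨a, fun j => (ha j).1, fun j => (ha j).2⟩

theorem eq_of_sign {ε δ v : ℝ} (hε : ε = 1 ∨ ε = -1) (hδ : δ = 1 ∨ δ = -1) (h1 : 0 < ε * v)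
    (h2 : 0 < δ * v) : ε = δ := by
  rcases hε with rfl | rfl <;> rcases hδ with rfl | rfl <;> first | rfl | (exfalso; linarith)

theorem Fam.exists_solution (hA : Fam A) {I : Fin (m + 2) → Fin n} (hI : Function.Injective I)
    {ε : ℝ} (hε : ε = 1 ∨ ε = -1) {q : Fin (m + 2) → ℝ} (hq : ∀ j, |q j| ≤ 1) :
    ∃ h : OH (m + 2), (∀ j, pos (A (I j)) h = q j) ∧ orient A I h = ε := by
  obtain ⟨u, hu, t, hF, a, ha, hpos⟩ := (hA.tanSys hI hq).exists_sol hε
  refine ⟨(⟨u, by simpa using hu⟩, t), fun j => ?_, ?_⟩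
  · rw [pos_eq_iff (hA.compact _) (hA.body _)]
    exact hF j
  · refine eq_of_sign (orient_mem _ _ _) hε (v := vol a u) ?_ hpos
    refine orient_mul_vol_pos hA hI (h := (⟨u, by simpa using hu⟩, t)) (fun j => (ha j).1)
      fun j => ?_
    rw [real_inner_comm]
    exact (ha j).2

theorem Fam.unique_solution (hA : Fam A) {I : Fin (m + 2) → Fin n} (hI : Function.Injective I)
    {h h' : OH (m + 2)} (hq : ∀ j, |pos (A (I j)) h| ≤ 1)
    (he : ∀ j, pos (A (I j)) h' = pos (A (I j)) h) (ho : orient A I h' = orient A I h) :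
    h' = h := by
  have hq' : ∀ j, |pos (A (I j)) h'| ≤ 1 := fun j => by
    rw [he j]
    exact hq j
  obtain ⟨a, ha, hat⟩ := hA.exists_points hq
  obtain ⟨a', ha', hat'⟩ := hA.exists_points hq'
  have hn : ∀ u : Metric.sphere (0 : E (m + 2)) 1, ‖(u : E (m + 2))‖ = 1 := fun u => by simp
  have := (hA.tanSys hI hq).unique (orient_mem A I h) (hn h'.1) (hn h.1) (t := h'.2) (t' := h.2)
    (fun j => by
      rw [← he j]
      exact lev_pos (hA.compact _) (hA.body _) h')
    (fun j => lev_pos (hA.compact _) (hA.body _) h)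
    ⟨a', fun j => ⟨ha' j, by
      rw [real_inner_comm]
      exact hat' j⟩, ho ▸ orient_mul_vol_pos hA hI ha' hat'⟩
    ⟨a, fun j => ⟨ha j, by
      rw [real_inner_comm]
      exact hat j⟩, orient_mul_vol_pos hA hI ha hat⟩
  exact Prod.ext (Subtype.ext this.1) this.2

theorem continuous_vol_prod : Continuous fun p : (Fin (m + 2) → E (m + 2)) × E (m + 2) =>
    vol p.1 p.2 := by
  unfold vol
  refine Continuous.matrix_det (continuous_matrix fun i j => ?_)
  simp only [Matrix.of_apply]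
  refine Fin.cases ?_ (fun l => ?_) i
  · simp only [Fin.cons_zero]
    fun_prop
  · simp only [Fin.cons_succ]
    fun_prop

theorem isCompact_points (hA : Fam A) (I : Fin (m + 2) → Fin n) :
    IsCompact (Set.pi Set.univ fun j => A (I j)) :=
  isCompact_univ_pi fun j => hA.compact (I j)

theorem isClosed_ori (hA : Fam A) {I : Fin (m + 2) → Fin n} (hI : Function.Injective I) (ε : ℝ) :
    IsClosed {h : OH (m + 2) | (∀ j, |pos (A (I j)) h| ≤ 1) ∧ orient A I h = ε} := by
  by_cases hε : ε = 1 ∨ ε = -1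
  · have hR : IsClosed {x : OH (m + 2) × (Fin (m + 2) → E (m + 2)) |
        (∀ j, ⟪(x.1.1 : E (m + 2)), x.2 j⟫ = x.1.2) ∧ 0 ≤ ε * vol x.2 x.1.1} := by
      rw [Set.ofPred_and]
      refine IsClosed.inter ?_ (isClosed_le continuous_const ?_)
      · rw [Set.ofPred_forall]
        refine isClosed_iInter fun j => isClosed_eq (by fun_prop) (by fun_prop)
      · exact continuous_const.mul (continuous_vol_prod.comp
          (f := fun x : OH (m + 2) × (Fin (m + 2) → E (m + 2)) =>
            ((x.2, (x.1.1 : E (m + 2))) : (Fin (m + 2) → E (m + 2)) × E (m + 2)))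
          (by fun_prop))
    have := isClosed_exists_mem (isCompact_points hA I) hR
    have heq : {h : OH (m + 2) | (∀ j, |pos (A (I j)) h| ≤ 1) ∧ orient A I h = ε}
        = {x | ∃ y ∈ Set.pi Set.univ fun j => A (I j),
          (x, y) ∈ {x : OH (m + 2) × (Fin (m + 2) → E (m + 2)) |
            (∀ j, ⟪(x.1.1 : E (m + 2)), x.2 j⟫ = x.1.2) ∧ 0 ≤ ε * vol x.2 x.1.1}} := by
      ext h
      simp only [Set.mem_ofPred_eq, Set.mem_pi, Set.mem_univ, true_implies]
      constructor
      · rintro ⟨hp, rfl⟩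
        obtain ⟨a, ha, hat⟩ := hA.exists_points hp
        exact ⟨a, ha, hat, (orient_mul_vol_pos hA hI ha hat).le⟩
      · rintro ⟨a, ha, hat, hv⟩
        have hpos := orient_mul_vol_pos hA hI ha hat
        refine ⟨fun j => (meets_iff hA (I j) h).1 ⟨a j, ha j, hat j⟩, ?_⟩
        refine eq_of_sign (orient_mem _ _ _) hε (v := vol a h.1) hpos (lt_of_le_of_ne hv ?_)
        have hv0 : vol a h.1 ≠ 0 := fun h0 => by
          rw [h0, mul_zero] at hpos
          exact lt_irrefl _ hpos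
        rcases hε with rfl | rfl
        · rw [one_mul]
          exact hv0.symm
        · intro h0
          apply hv0
          linarith
    rw [heq]
    exact this
  · have : {h : OH (m + 2) | (∀ j, |pos (A (I j)) h| ≤ 1) ∧ orient A I h = ε} = ∅ := by
      ext h
      simp only [Set.mem_ofPred_eq, Set.mem_empty_iff_false, iff_false, not_and]
      rintro - rfl
      exact hε (orient_mem A I h)
    rw [this]
    exact isClosed_empty

theorem isCompact_ori (hA : Fam A) {I : Fin (m + 2) → Fin n} (hI : Function.Injective I) (ε : ℝ) :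
    IsCompact {h : OH (m + 2) | (∀ j, |pos (A (I j)) h| ≤ 1) ∧ orient A I h = ε} := by
  obtain ⟨C, _, hC⟩ := exists_bound (hA.compact (I 0))
  refine IsCompact.of_isClosed_subset ((isCompact_univ (X := Metric.sphere (0 : E (m + 2)) 1)).prod
    (isCompact_Icc (a := -C) (b := C))) (isClosed_ori hA hI ε) ?_
  rintro h ⟨hp, -⟩
  obtain ⟨x, hx, hxt⟩ := (meets_iff hA (I 0) h).2 (hp 0)
  refine ⟨Set.mem_univ _, ?_⟩
  have h1 : |h.2| ≤ C := by
    rw [← hxt]
    refine (abs_real_inner_le_norm _ _).trans ?_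
    have : ‖(h.1 : E (m + 2))‖ = 1 := by simp
    rw [this, one_mul]
    exact hC x hx
  exact abs_le.1 h1

instance : Nonempty (OH (m + 2)) := ⟨(⟨EuclideanSpace.single 0 1, by simp⟩, 0)⟩

/-- The oriented hyperplane with given positions and orientation. -/
noncomputable def thePt (A : Fin n → Set (E (m + 2))) (I : Fin (m + 2) → Fin n) (ε : ℝ)
    (q : Fin (m + 2) → ℝ) : OH (m + 2) :=
  Classical.epsilon fun h : OH (m + 2) => (∀ j, pos (A (I j)) h = q j) ∧ orient A I h = ε

theorem thePt_spec (hA : Fam A) {I : Fin (m + 2) → Fin n} (hI : Function.Injective I)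
    {ε : ℝ} (hε : ε = 1 ∨ ε = -1) {q : Fin (m + 2) → ℝ} (hq : ∀ j, |q j| ≤ 1) :
    (∀ j, pos (A (I j)) (thePt A I ε q) = q j) ∧ orient A I (thePt A I ε q) = ε :=
  Classical.epsilon_spec (hA.exists_solution hI hε hq)

theorem thePt_unique (hA : Fam A) {I : Fin (m + 2) → Fin n} (hI : Function.Injective I)
    {h : OH (m + 2)} (hq : ∀ j, |pos (A (I j)) h| ≤ 1) :
    thePt A I (orient A I h) (fun j => pos (A (I j)) h) = h := by
  have := thePt_spec hA hI (orient_mem A I h) hq
  exact hA.unique_solution hI hq this.1 this.2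

theorem thePt_continuousOn (hA : Fam A) {I : Fin (m + 2) → Fin n} (hI : Function.Injective I)
    {ε : ℝ} (hε : ε = 1 ∨ ε = -1) : ContinuousOn (thePt A I ε) {q | ∀ j, |q j| ≤ 1} := by
  intro q₀ hq₀
  refine (isCompact_ori hA hI ε).tendsto_nhds_of_unique_mapClusterPt ?_ ?_
  · filter_upwards [self_mem_nhdsWithin] with q hq
    have := thePt_spec hA hI hε hq
    exact ⟨fun j => by
      rw [this.1 j]
      exact hq j, this.2⟩
  · rintro h ⟨hp, ho⟩ hcl
    have hpos : ∀ j, pos (A (I j)) h = q₀ j := by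
      intro j
      have hc : Continuous (pos (A (I j))) :=
        continuous_pos (hA.compact _) (hA.convex _) (hA.body _)
      have h1 : MapClusterPt (pos (A (I j)) h) (𝓝[{q | ∀ j, |q j| ≤ 1}] q₀)
          (pos (A (I j)) ∘ thePt A I ε) := hcl.continuousAt_comp hc.continuousAt
      have h2 : Filter.Tendsto (pos (A (I j)) ∘ thePt A I ε) (𝓝[{q | ∀ j, |q j| ≤ 1}] q₀)
          (𝓝 (q₀ j)) := by
        have h3 : Filter.Tendsto (fun q : Fin (m + 2) → ℝ => q j)
            (𝓝[{q | ∀ j, |q j| ≤ 1}] q₀) (𝓝 (q₀ j)) :=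
          ((continuous_apply j).tendsto q₀).mono_left nhdsWithin_le_nhds
        refine h3.congr' ?_
        filter_upwards [self_mem_nhdsWithin] with q hq
        exact ((thePt_spec hA hI hε hq).1 j).symm
      have h4 := h1.clusterPt.mono h2
      exact (eq_of_nhds_neBot h4)
    have := thePt_spec hA hI hε hq₀
    refine (hA.unique_solution hI hp (fun j => ?_) ?_).symm
    · rw [this.1 j, hpos j]
    · rw [this.2, ho]

/-- The rows of the matrix defining `vol`. -/
theorem row_orthogonal {a : Fin (m + 2) → E (m + 2)} {u w : E (m + 2)} (hu : ⟪u, w⟫ = 0)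
    (ha : ∀ j, j ≠ Fin.last (m + 1) → ⟪a j - a 0, w⟫ = 0) (i : Fin (m + 2))
    (hi : i ≠ Fin.last (m + 1)) :
    ⟪(Fin.cons u (fun l : Fin (m + 1) => a l.succ - a 0) : Fin (m + 2) → E (m + 2)) i, w⟫ = 0 := by
  revert hi
  refine Fin.cases ?_ (fun l => ?_) i
  · intro _
    simpa using hu
  · intro hl
    simpa using ha l.succ hl

theorem det_rows_eq_zero {r : Fin (m + 2) → E (m + 2)} {w : E (m + 2)} (hw : w ≠ 0)
    (hr : ∀ i, ⟪r i, w⟫ = 0) :
    Matrix.det (Matrix.of fun i j : Fin (m + 2) => r i j) = 0 := by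
  rw [← Matrix.exists_mulVec_eq_zero_iff]
  refine ⟨w, ?_, ?_⟩
  · intro h
    apply hw
    ext i
    exact congrFun h i
  · ext i
    have := hr i
    rw [PiLp.inner_apply] at this
    simp only [Matrix.mulVec, dotProduct, Matrix.of_apply, Pi.zero_apply]
    rw [← this]
    refine Finset.sum_congr rfl fun j _ => ?_
    simp [mul_comm]

theorem vol_cramer {a b : Fin (m + 2) → E (m + 2)} (hab : ∀ j, j ≠ Fin.last (m + 1) → a j = b j)
    {u w : E (m + 2)} (hu : ⟪u, w⟫ = 0)
    (ha : ∀ j, j ≠ Fin.last (m + 1) → ⟪a j - a 0, w⟫ = 0) :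
    ⟪a (Fin.last (m + 1)) - a 0, w⟫ * vol b u = ⟪b (Fin.last (m + 1)) - b 0, w⟫ * vol a u := by
  have h0 : (0 : Fin (m + 2)) ≠ Fin.last (m + 1) := by
    intro h
    have := congrArg Fin.val h
    simp at this
  by_cases hw : w = 0
  · rw [hw, inner_zero_right, inner_zero_right, zero_mul, zero_mul]
  set p : ℝ := ⟪a (Fin.last (m + 1)) - a 0, w⟫ with hp
  set r : ℝ := ⟪b (Fin.last (m + 1)) - b 0, w⟫ with hr
  let rows : (Fin (m + 2) → E (m + 2)) → Fin (m + 2) → E (m + 2) := fun a =>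
    Fin.cons u (fun l : Fin (m + 1) => a l.succ - a 0)
  let N : Matrix (Fin (m + 2)) (Fin (m + 2)) ℝ := Matrix.of fun i j => rows a i j
  have hNa : vol a u = (N.updateRow (Fin.last (m + 1))
      (fun j => (a (Fin.last (m + 1)) - a 0) j)).det := by
    unfold vol
    refine congrArg Matrix.det ?_
    ext i j
    rw [Matrix.updateRow_apply]
    split_ifs with h
    · rw [h, ← Fin.succ_last]
      simp
    · rfl
  have hNb : vol b u = (N.updateRow (Fin.last (m + 1))
      (fun j => (b (Fin.last (m + 1)) - b 0) j)).det := by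
    unfold vol
    refine congrArg Matrix.det ?_
    ext i j
    rw [Matrix.updateRow_apply]
    split_ifs with h
    · rw [h, ← Fin.succ_last]
      simp
    · revert h
      refine Fin.cases ?_ (fun l => ?_) i
      · intro _
        simp [N, rows]
      · intro h
        simp [N, rows, hab l.succ h, hab 0 h0]
  have hlin : (N.updateRow (Fin.last (m + 1)) (fun j => (p • (b (Fin.last (m + 1)) - b 0) +
      (-r) • (a (Fin.last (m + 1)) - a 0)) j)).det = p * vol b u + (-r) * vol a u := by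
    have : (fun j => (p • (b (Fin.last (m + 1)) - b 0) +
        (-r) • (a (Fin.last (m + 1)) - a 0)) j) = p • (fun j => (b (Fin.last (m + 1)) - b 0) j)
        + (-r) • (fun j => (a (Fin.last (m + 1)) - a 0) j) := by
      ext j
      simp
    rw [this, Matrix.det_updateRow_add, Matrix.det_updateRow_smul, Matrix.det_updateRow_smul,
      ← hNa, ← hNb]
  have hzero : (N.updateRow (Fin.last (m + 1)) (fun j => (p • (b (Fin.last (m + 1)) - b 0) +
      (-r) • (a (Fin.last (m + 1)) - a 0)) j)).det = 0 := by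
    have : N.updateRow (Fin.last (m + 1)) (fun j => (p • (b (Fin.last (m + 1)) - b 0) +
      (-r) • (a (Fin.last (m + 1)) - a 0)) j) = Matrix.of fun i j =>
        (Function.update (rows a) (Fin.last (m + 1)) (p • (b (Fin.last (m + 1)) - b 0) +
      (-r) • (a (Fin.last (m + 1)) - a 0))) i j := by
      ext i j
      rw [Matrix.updateRow_apply, Matrix.of_apply, Function.update_apply]
      split_ifs <;> rfl
    rw [this]
    refine det_rows_eq_zero hw fun i => ?_
    rw [Function.update_apply]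
    split_ifs with h
    · rw [inner_add_left, real_inner_smul_left, real_inner_smul_left, ← hp, ← hr]
      ring
    · exact row_orthogonal hu ha i h
  rw [hzero] at hlin
  linarith

theorem eventually_orient (hA : Fam A) {J : Fin (m + 2) → Fin n} (hJ : Function.Injective J)
    {h₀ : OH (m + 2)} (hp : ∀ j, |pos (A (J j)) h₀| ≤ 1) :
    ∀ᶠ x : OH (m + 2) × ℝ in 𝓝 (h₀, 0),
      ∀ y ∈ (Set.pi Set.univ (fun j => A (J j))) ×ˢ (Set.pi Set.univ (fun j => A (J j))),
        (∀ j, |⟪y.1 j, (x.1.1 : E (m + 2))⟫ - hi (A (J j)) x.1.1| ≤ x.2 ∧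
          |⟪y.2 j, (x.1.1 : E (m + 2))⟫ - lo (A (J j)) x.1.1| ≤ x.2) →
        0 < orient A J h₀ * vol (fun j => ((1 + pos (A (J j)) x.1) / 2) • y.1 j +
          ((1 - pos (A (J j)) x.1) / 2) • y.2 j) x.1.1 := by
  refine ((isCompact_points hA J).prod (isCompact_points hA J)).eventually_forall_of_forall_eventually
    fun y hy => ?_
  have hcp : ∀ j, Continuous (pos (A (J j))) := fun j =>
    continuous_pos (hA.compact _) (hA.convex _) (hA.body _)
  have hch : ∀ j, Continuous (hi (A (J j))) := fun j =>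
    continuous_hi (hA.compact _) (hA.convex _) (hA.nonempty _)
  have hcl : ∀ j, Continuous (lo (A (J j))) := fun j =>
    continuous_lo (hA.compact _) (hA.convex _) (hA.nonempty _)
  have hclosed : IsClosed {z : (OH (m + 2) × ℝ) ×
      ((Fin (m + 2) → E (m + 2)) × (Fin (m + 2) → E (m + 2))) |
      ∀ j, |⟪z.2.1 j, (z.1.1.1 : E (m + 2))⟫ - hi (A (J j)) z.1.1.1| ≤ z.1.2 ∧
          |⟪z.2.2 j, (z.1.1.1 : E (m + 2))⟫ - lo (A (J j)) z.1.1.1| ≤ z.1.2} := by
    rw [Set.ofPred_forall]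
    refine isClosed_iInter fun j => ?_
    rw [Set.ofPred_and]
    have h1 : Continuous fun z : (OH (m + 2) × ℝ) ×
      ((Fin (m + 2) → E (m + 2)) × (Fin (m + 2) → E (m + 2))) => hi (A (J j)) z.1.1.1 :=
      (hch j).comp (by fun_prop)
    have h2 : Continuous fun z : (OH (m + 2) × ℝ) ×
      ((Fin (m + 2) → E (m + 2)) × (Fin (m + 2) → E (m + 2))) => lo (A (J j)) z.1.1.1 :=
      (hcl j).comp (by fun_prop)
    exact (isClosed_le (by fun_prop) (by fun_prop)).inter
      (isClosed_le (by fun_prop) (by fun_prop))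
  have hopen : IsOpen {z : (OH (m + 2) × ℝ) ×
      ((Fin (m + 2) → E (m + 2)) × (Fin (m + 2) → E (m + 2))) |
      0 < orient A J h₀ * vol (fun j => ((1 + pos (A (J j)) z.1.1) / 2) • z.2.1 j +
          ((1 - pos (A (J j)) z.1.1) / 2) • z.2.2 j) z.1.1.1} := by
    refine isOpen_lt continuous_const (continuous_const.mul (continuous_vol_prod.comp
      (f := fun z : (OH (m + 2) × ℝ) ×
      ((Fin (m + 2) → E (m + 2)) × (Fin (m + 2) → E (m + 2))) =>
        (((fun j => ((1 + pos (A (J j)) z.1.1) / 2) • z.2.1 j +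
          ((1 - pos (A (J j)) z.1.1) / 2) • z.2.2 j), (z.1.1.1 : E (m + 2))) :
            (Fin (m + 2) → E (m + 2)) × E (m + 2))) ?_))
    refine Continuous.prodMk (continuous_pi fun j => ?_) (by fun_prop)
    have h1 : Continuous fun z : (OH (m + 2) × ℝ) ×
      ((Fin (m + 2) → E (m + 2)) × (Fin (m + 2) → E (m + 2))) => pos (A (J j)) z.1.1 :=
      (hcp j).comp (by fun_prop)
    fun_prop
  by_cases hc : ∀ j, |⟪y.1 j, (h₀.1 : E (m + 2))⟫ - hi (A (J j)) h₀.1| ≤ 0 ∧
          |⟪y.2 j, (h₀.1 : E (m + 2))⟫ - lo (A (J j)) h₀.1| ≤ 0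
  · have hpos : 0 < orient A J h₀ * vol (fun j => ((1 + pos (A (J j)) h₀) / 2) • y.1 j +
          ((1 - pos (A (J j)) h₀) / 2) • y.2 j) h₀.1 := by
      refine orient_mul_vol_pos hA hJ (fun j => combo_mem (hA.convex _) (hp j)
        (hy.1 j (Set.mem_univ j)) (hy.2 j (Set.mem_univ j))) fun j => ?_
      have e1 := abs_nonpos_iff.1 (hc j).1
      have e2 := abs_nonpos_iff.1 (hc j).2
      rw [real_inner_comm] at e1 e2
      rw [inner_add_right, real_inner_smul_right, real_inner_smul_right,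
        sub_eq_zero.1 e1, sub_eq_zero.1 e2]
      exact lev_pos (hA.compact _) (hA.body _) h₀
    have hz := hopen.mem_nhds (x := ((h₀, (0 : ℝ)), y)) hpos
    exact Filter.mem_of_superset hz fun z hz _ => hz
  · have hz := hclosed.isOpen_compl.mem_nhds (x := ((h₀, (0 : ℝ)), y)) hc
    exact Filter.mem_of_superset hz fun z hz hz' => absurd hz' hz

theorem sign_argument {x y P Q oI oB Da Db : ℝ} (hB : oB = 1 ∨ oB = -1) (hP : 0 < P) (hQ : 0 < Q) (ha : 0 < oI * Da) (hb : 0 < oB * Db)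
    (h : x * P * Db = y * Q * Da) : SignType.sign y = SignType.sign (oI * oB * x) := by
  have h1 : oI * oB * x * (P * (oB * Db)) = y * (Q * (oI * Da)) := by
    have hB2 : oB * oB = 1 := by rcases hB with rfl | rfl <;> norm_num
    calc oI * oB * x * (P * (oB * Db)) = oI * (oB * oB) * (x * P * Db) := by ring
      _ = oI * (y * Q * Da) := by rw [hB2, h, mul_one]
      _ = y * (Q * (oI * Da)) := by ring
  have h2 := congrArg SignType.sign h1
  rw [sign_mul, sign_mul y, sign_pos (mul_pos hP hb), sign_pos (mul_pos hQ ha), mul_one,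
    mul_one] at h2
  exact h2.symm

theorem eventually_mono (hA : Fam A) {I : Fin (m + 2) → Fin n} (hI : Function.Injective I)
    {b : Fin n} (hb : ∀ j, I j ≠ b) {h₀ : OH (m + 2)} (hp : ∀ j, |pos (A (I j)) h₀| ≤ 1)
    (hpb : |pos (A b) h₀| ≤ 1) :
    ∀ᶠ p : OH (m + 2) × OH (m + 2) in 𝓝 (h₀, h₀),
      (∀ j, j ≠ Fin.last (m + 1) → pos (A (I j)) p.1 = pos (A (I j)) p.2) →
      SignType.sign (pos (A b) p.1 - pos (A b) p.2) =
        SignType.sign (orient A I h₀ * orient A (Function.update I (Fin.last (m + 1)) b) h₀ *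
          (pos (A (I (Fin.last (m + 1)))) p.1 - pos (A (I (Fin.last (m + 1)))) p.2)) := by
  have h0 : (0 : Fin (m + 2)) ≠ Fin.last (m + 1) := by
    intro h
    have := congrArg Fin.val h
    simp at this
  set J : Fin (m + 2) → Fin n := Function.update I (Fin.last (m + 1)) b with hJdef
  have hJl : J (Fin.last (m + 1)) = b := Function.update_self _ _ _
  have hJne : ∀ j, j ≠ Fin.last (m + 1) → J j = I j := fun j hj => Function.update_of_ne hj _ _
  have hJ : Function.Injective J := by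
    intro j k hjk
    by_cases hj : j = Fin.last (m + 1)
    · by_cases hk : k = Fin.last (m + 1)
      · rw [hj, hk]
      · rw [hj, hJl, hJne k hk] at hjk
        exact absurd hjk.symm (hb k)
    · by_cases hk : k = Fin.last (m + 1)
      · rw [hk, hJl, hJne j hj] at hjk
        exact absurd hjk (hb j)
      · rw [hJne j hj, hJne k hk] at hjk
        exact hI hjk
  have hpJ : ∀ j, |pos (A (J j)) h₀| ≤ 1 := by
    intro j
    by_cases hj : j = Fin.last (m + 1)
    · rw [hj, hJl]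
      exact hpb
    · rw [hJne j hj]
      exact hp j
  obtain ⟨C, hC0, hC⟩ := exists_bound (isCompact_iUnion fun i => hA.compact i)
  have hC' : ∀ i, ∀ x ∈ A i, ‖x‖ ≤ C := fun i x hx => hC x (Set.mem_iUnion.2 ⟨i, hx⟩)
  -- the change of variables
  have hcin : Continuous fun p : OH (m + 2) × OH (m + 2) =>
      ⟪(p.2.1 : E (m + 2)), (p.1.1 : E (m + 2))⟫ := by fun_prop
  have hpos0 : ∀ᶠ p : OH (m + 2) × OH (m + 2) in 𝓝 (h₀, h₀),
      0 < ⟪(p.2.1 : E (m + 2)), (p.1.1 : E (m + 2))⟫ := by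
    refine (isOpen_lt continuous_const hcin).mem_nhds ?_
    change 0 < ⟪(h₀.1 : E (m + 2)), (h₀.1 : E (m + 2))⟫
    rw [unit_inner_self]
    exact one_pos
  have hΦ : Filter.Tendsto (fun p : OH (m + 2) × OH (m + 2) => ((p.2, 2 * C *
      ‖(⟪(p.2.1 : E (m + 2)), (p.1.1 : E (m + 2))⟫)⁻¹ • (p.1.1 : E (m + 2)) - p.2.1‖) :
        OH (m + 2) × ℝ)) (𝓝 (h₀, h₀)) (𝓝 (h₀, 0)) := by
    have hca : ContinuousAt (fun p : OH (m + 2) × OH (m + 2) => ((p.2, 2 * C *
      ‖(⟪(p.2.1 : E (m + 2)), (p.1.1 : E (m + 2))⟫)⁻¹ • (p.1.1 : E (m + 2)) - p.2.1‖) :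
        OH (m + 2) × ℝ)) (h₀, h₀) := by
      have hinv : ContinuousAt (fun p : OH (m + 2) × OH (m + 2) =>
          (⟪(p.2.1 : E (m + 2)), (p.1.1 : E (m + 2))⟫)⁻¹) (h₀, h₀) := by
        refine hcin.continuousAt.inv₀ ?_
        change ⟪(h₀.1 : E (m + 2)), (h₀.1 : E (m + 2))⟫ ≠ 0
        rw [unit_inner_self]
        exact one_ne_zero
      refine ContinuousAt.prodMk (by fun_prop) ?_
      refine continuousAt_const.mul ?_
      refine ContinuousAt.norm ?_
      refine ContinuousAt.sub (hinv.smul (by fun_prop)) (by fun_prop)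
    have := hca.tendsto
    simpa [unit_inner_self] using this
  filter_upwards [hΦ.eventually (eventually_orient hA hI hp),
    hΦ.eventually (eventually_orient hA hJ hpJ), hpos0] with p hpI hpJ' hin heq
  set lam : ℝ := (⟪(p.2.1 : E (m + 2)), (p.1.1 : E (m + 2))⟫)⁻¹ with hlam
  have hlam0 : 0 < lam := inv_pos.2 hin
  set u₂ : E (m + 2) := (p.2.1 : E (m + 2)) with hu₂
  set u₁ : E (m + 2) := (p.1.1 : E (m + 2)) with hu₁
  choose P hP hPw hPe using fun i => exists_mv_hi (hA.compact i) (hA.convex i) (hA.nonempty i)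
    (hC' i) (lam • u₁) u₂
  choose Q hQ hQw hQe using fun i => exists_mv_lo (hA.compact i) (hA.convex i) (hA.nonempty i)
    (hC' i) (lam • u₁) u₂
  have hvI := hpI (fun j => P (I j), fun j => Q (I j))
    ⟨fun j _ => hP (I j), fun j _ => hQ (I j)⟩ fun j => ⟨hPe (I j), hQe (I j)⟩
  have hvJ := hpJ' (fun j => P (J j), fun j => Q (J j))
    ⟨fun j _ => hP (J j), fun j _ => hQ (J j)⟩ fun j => ⟨hPe (J j), hQe (J j)⟩
  set c : Fin n → E (m + 2) := fun i => ((1 + pos (A i) p.2) / 2) • P i +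
    ((1 - pos (A i) p.2) / 2) • Q i with hc
  have hcw : ∀ i, ⟪c i, lam • u₁ - u₂⟫ = lam * (p.1.2 -
      (pos (A i) p.1 - pos (A i) p.2) * (hi (A i) u₁ - lo (A i) u₁) / 2) - p.2.2 := by
    intro i
    have e1 : ⟪c i, lam • u₁ - u₂⟫ = lev (A i) (pos (A i) p.2) (lam • u₁) -
        lev (A i) (pos (A i) p.2) u₂ := lev_mv (hPw i) (hQw i)
    have e2 := lev_pos (hA.compact i) (hA.body i) p.1
    have e3 := lev_pos (hA.compact i) (hA.body i) p.2
    rw [e1, lev_smul (hA.compact i) (hA.nonempty i) _ _ hlam0.le, e3, ← e2]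
    unfold lev
    ring
  have hw0 : ⟪u₂, lam • u₁ - u₂⟫ = 0 := by
    rw [inner_sub_right, real_inner_smul_right, unit_inner_self, hlam, inv_mul_cancel₀ hin.ne',
      sub_self]
  have hcr := vol_cramer (a := fun j => c (I j)) (b := fun j => c (J j))
    (fun j hj => by rw [hJne j hj]) hw0
    (fun j hj => by
      rw [inner_sub_left, hcw, hcw, heq j hj, heq 0 h0]
      ring)
  have e1 : ⟪c (I (Fin.last (m + 1))) - c (I 0), lam • u₁ - u₂⟫ =
      -(lam / 2) * ((pos (A (I (Fin.last (m + 1)))) p.1 - pos (A (I (Fin.last (m + 1)))) p.2) *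
        (hi (A (I (Fin.last (m + 1)))) u₁ - lo (A (I (Fin.last (m + 1)))) u₁)) := by
    rw [inner_sub_left, hcw, hcw, heq 0 h0]
    ring
  have e2 : ⟪c (J (Fin.last (m + 1))) - c (J 0), lam • u₁ - u₂⟫ =
      -(lam / 2) * ((pos (A b) p.1 - pos (A b) p.2) * (hi (A b) u₁ - lo (A b) u₁)) := by
    rw [hJl, hJne 0 h0, inner_sub_left, hcw, hcw, heq 0 h0]
    ring
  simp only [e1, e2] at hcr
  refine sign_argument (orient_mem A J h₀)
    (sub_pos.2 (lo_lt_hi (hA.compact (I (Fin.last (m + 1)))) (hA.body _) (sphere_ne_zero p.1.1)))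
    (sub_pos.2 (lo_lt_hi (hA.compact b) (hA.body b) (sphere_ne_zero p.1.1))) hvI hvJ ?_
  have hl : -(lam / 2) ≠ 0 := by
    have := hlam0
    intro h
    linarith
  refine mul_left_cancel₀ hl ?_
  linarith [hcr]

/-- The positions and orientations of a separated family of convex bodies form a `CubeSys`. -/
theorem exists_cubeSys {m n : ℕ} {A : Fin n → Set (E (m + 2))} (hA : Fam A) :
    ∃ C : CubeSys m n (OH (m + 2)), ∀ i h, C.pos i h = pos (A i) h :=
  ⟨{ pos := fun i => pos (A i)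
     ori := orient A
     pt := thePt A
     cont_pos := fun i => continuous_pos (hA.compact i) (hA.convex i) (hA.body i)
     ori_mem := orient_mem A
     ori_closed := fun _ hI ε => isClosed_ori hA hI ε
     pt_cont := fun _ hI _ hε => thePt_continuousOn hA hI hε
     pt_pos := fun _ hI _ hε _ hq => (thePt_spec hA hI hε hq).1
     pt_ori := fun _ hI _ hε _ hq => (thePt_spec hA hI hε hq).2
     pt_unique := fun _ hI _ hq => thePt_unique hA hI hq
     mono := fun _ hI _ hb _ hp hpb => eventually_mono hA hI hb hp hpb }, fun _ _ => rfl⟩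

end family

end HyperplaneTransversals
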