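import Pool.Agent.Lib.MP_b2e5b9_co.Fat.Count
import Pool.Agent.Lib.MP_b2e5b9_co.Fat.Geom

/-!
# The number of topological faces for separated families of convex bodies
-/

set_option autoImplicit false

open Set Filter
open scoped RealInnerProductSpace Topology

namespace HyperplaneTransversals

variable {m n : ℕ} {A : Fin n → Set (E (m + 2))}

theorem continuous_of : Continuous (Hyp.of (d := m + 2)) := continuous_coinduced_rng

theorem mem_transversals_iff (hA : Fam A) (h : OH (m + 2)) :
    Hyp.of h ∈ transversals A ↔ ∀ i, |pos (A i) h| ≤ 1 := by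
  constructor
  · intro hh i
    obtain ⟨x, hx1, hx2⟩ := hh i
    exact (meets_iff hA i h).1 ⟨x, hx2, (mem_hyperplane h x).1 hx1⟩
  · intro hh i
    obtain ⟨x, hx1, hx2⟩ := (meets_iff hA i h).2 (hh i)
    exact ⟨x, (mem_hyperplane h x).2 hx2, hx1⟩

theorem not_subset_hyperplane (hA : Fam A) (i : Fin n) (h : OH (m + 2)) :
    ¬ A i ⊆ (hyperplane h : Set (E (m + 2))) := by
  intro hsub
  obtain ⟨x, hx, hx'⟩ := exists_hi (hA.compact i) (hA.nonempty i) (h.1 : E (m + 2))
  obtain ⟨y, hy, hy'⟩ := exists_lo (hA.compact i) (hA.nonempty i) (h.1 : E (m + 2))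
  have h1 := (mem_hyperplane h x).1 (hsub hx)
  have h2 := (mem_hyperplane h y).1 (hsub hy)
  have h3 := lo_lt_hi (hA.compact i) (hA.body i) (sphere_ne_zero h.1)
  rw [← hx', ← hy', h1, h2] at h3
  exact lt_irrefl _ h3

theorem supports_iff (hA : Fam A) (proper : Prop) (i : Fin n) (h : OH (m + 2)) :
    Supports proper (Hyp.of h).flat (A i) ↔ |pos (A i) h| = 1 := by
  rw [abs_pos_eq_one_iff hA]
  constructor
  · rintro ⟨⟨x, hx1, hx2⟩, ⟨p, hp1, hp2⟩, -⟩
    refine ⟨⟨x, hx2, (mem_hyperplane h x).1 hx1⟩, ?_⟩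
    rcases hyperplane_eq_iff p h hp1 with ⟨h1, h2⟩ | ⟨h1, h2⟩
    · left
      intro y hy
      rw [h1, h2]
      exact hp2 y hy
    · right
      intro y hy
      rw [h1, h2, inner_neg_left]
      exact neg_le_neg (hp2 y hy)
  · rintro ⟨⟨x, hx1, hx2⟩, h1⟩
    refine ⟨⟨x, (mem_hyperplane h x).2 hx2, hx1⟩, ?_, fun _ => not_subset_hyperplane hA i h⟩
    rcases h1 with h1 | h1
    · exact ⟨h, rfl, h1⟩
    · refine ⟨(-h.1, -h.2), ?_, ?_⟩
      · ext y
        rw [mem_hyperplane]
        change ⟪-(h.1 : E (m + 2)), y⟫ = -h.2 ↔ y ∈ hyperplane h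
        rw [inner_neg_left, neg_inj, mem_hyperplane]
      · intro y hy
        change ⟪-(h.1 : E (m + 2)), y⟫ ≤ -h.2
        rw [inner_neg_left]
        exact neg_le_neg (h1 y hy)

theorem mem_stratum_of_str (hA : Fam A) (C : CubeSys m n (OH (m + 2)))
    (hC : ∀ i h, C.pos i h = pos (A i) h) (proper : Prop) {σ : Fin n → SignType}
    {h : OH (m + 2)} (hh : h ∈ C.str σ) : Hyp.of h ∈ stratum proper A {i | σ i ≠ 0} := by
  refine ⟨(mem_transversals_iff hA h).2 fun i => ?_, fun i => ?_⟩
  · rw [← hC]
    exact CubeSys.str_abs_le hh i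
  · rw [supports_iff hA, ← hC]
    constructor
    · intro h1 h0
      have := (hh i).1 h0
      rw [h1] at this
      exact lt_irrefl _ this
    · intro h0
      rw [(hh i).2 h0, SignType.abs_cast_eq_one h0]

theorem faces_le (hA : Fam A) (C : CubeSys m n (OH (m + 2)))
    (hC : ∀ i h, C.pos i h = pos (A i) h) (proper : Prop) :
    (faces proper A).encard ≤ ∑ σ : Fin n → SignType, ncomp (C.str σ) := by
  classical
  refine (encard_le_of_rel (faces proper A)
    {p : (Fin n → SignType) × Set (OH (m + 2)) | p.1 ∈ (Finset.univ : Finset (Fin n → SignType)) ∧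
      p.2 ∈ (fun x => connectedComponentIn (C.str p.1) x) '' C.str p.1}
    (fun F p => ∃ h ∈ C.str p.1, F = connectedComponentIn (stratum proper A {i | p.1 i ≠ 0}) (Hyp.of h) ∧
      p.2 = connectedComponentIn (C.str p.1) h) ?_ ?_).trans ?_
  · rintro F ⟨S, H, hH, rfl⟩
    obtain ⟨h, hh⟩ := H.isHyperplane
    have hHof : H = Hyp.of h := by
      cases H
      simp only [Hyp.of] at hh ⊢
      subst hh
      rfl
    subst hHof
    set σ : Fin n → SignType := fun i => if pos (A i) h = 1 then 1 else
      if pos (A i) h = -1 then -1 else 0 with hσ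
    have hle : ∀ i, |pos (A i) h| ≤ 1 := (mem_transversals_iff hA h).1 hH.1
    have hmem : h ∈ C.str σ := by
      intro i
      rw [hC]
      by_cases h1 : pos (A i) h = 1
      · have : σ i = 1 := by simp [hσ, h1]
        rw [this]
        exact ⟨fun h => absurd h (by decide), fun _ => by rw [h1]; simp⟩
      · by_cases h2 : pos (A i) h = -1
        · have : σ i = -1 := by
            simp only [hσ]
            rw [if_neg h1, if_pos h2]
          rw [this]
          exact ⟨fun h => absurd h (by decide), fun _ => by rw [h2]; simp⟩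
        · have : σ i = 0 := by
            simp only [hσ]
            rw [if_neg h1, if_neg h2]
          rw [this]
          refine ⟨fun _ => lt_of_le_of_ne (hle i) ?_, fun h => absurd rfl h⟩
          intro h3
          rcases (abs_eq zero_le_one).1 h3 with h | h
          · exact h1 h
          · exact h2 h
    have hS : S = {i | σ i ≠ 0} := by
      have h3 := mem_stratum_of_str hA C hC proper hmem
      ext i
      rw [← hH.2 i, ← h3.2 i]
    subst hS
    exact ⟨(σ, connectedComponentIn (C.str σ) h), ⟨Finset.mem_univ _, h, hmem, rfl⟩, h, hmem, rfl,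
      rfl⟩
  · rintro F - F' - ⟨σ, K⟩ - ⟨h, hh, rfl, hK⟩ ⟨h', hh', rfl, hK'⟩
    simp only [] at hh hh' hK hK' ⊢
    refine connectedComponentIn_eq ?_
    have h1 : IsPreconnected (Hyp.of '' connectedComponentIn (C.str σ) h) :=
      isPreconnected_connectedComponentIn.image _ continuous_of.continuousOn
    have h2 : Hyp.of '' connectedComponentIn (C.str σ) h ⊆ stratum proper A {i | σ i ≠ 0} := by
      rintro _ ⟨u, hu, rfl⟩
      exact mem_stratum_of_str hA C hC proper (connectedComponentIn_subset _ _ hu)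
    refine h1.subset_connectedComponentIn ⟨h, mem_connectedComponentIn hh, rfl⟩ h2 ⟨h', ?_, rfl⟩
    rw [← hK, hK']
    exact mem_connectedComponentIn hh'
  · refine (encard_le_of_rel _
      (⋃ σ ∈ (Finset.univ : Finset (Fin n → SignType)),
        (fun K => (σ, K)) '' ((fun x => connectedComponentIn (C.str σ) x) '' C.str σ))
      (fun p q => p = q) ?_ ?_).trans ?_
    · rintro ⟨σ, K⟩ ⟨-, hK⟩
      exact ⟨(σ, K), by simp only [mem_iUnion]; exact ⟨σ, Finset.mem_univ _, K, hK, rfl⟩, rfl⟩
    · rintro p - p' - q - rfl rfl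
      rfl
    · refine (encard_biUnion_le_sum _ _).trans (Finset.sum_le_sum fun σ _ => ?_)
      exact Set.encard_image_le _ _

theorem convex_bodies_bound (hA : Fam A) (hn : m + 2 ≤ n) (proper : Prop) :
    (faces proper A).encard ≤ (CubeSys.K m * n ^ (m + 1) : ℕ) := by
  obtain ⟨C, hC⟩ := exists_cubeSys hA
  exact (faces_le hA C hC proper).trans (C.total_le hn)

end HyperplaneTransversals
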