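import Pool.Agent.Lib.MP_b2e5b9_co.Fat.Defs

/-!
# The recursion for the number of components of strata
-/

set_option autoImplicit false

open scoped Topology

namespace HyperplaneTransversals

/-- number of values of a function factoring through another one -/
theorem encard_image_le_of_factor {α β γ : Type} (s : Set α) (f : α → β) (c : α → γ)
    (h : ∀ x ∈ s, ∀ y ∈ s, c x = c y → f x = f y) : (f '' s).encard ≤ (c '' s).encard := by
  classical
  have hg : ∃ g : γ → Option β, ∀ x ∈ s, g (c x) = some (f x) := by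
    refine ⟨fun k => if hk : ∃ x ∈ s, c x = k then some (f hk.choose) else none, fun x hx => ?_⟩
    have hk : ∃ y ∈ s, c y = c x := ⟨x, hx, rfl⟩
    have h1 := hk.choose_spec
    simp only [hk, dif_pos]
    exact congrArg some (h _ h1.1 _ hx h1.2)
  obtain ⟨g, hg⟩ := hg
  have h1 : (some '' (f '' s)) = g '' (c '' s) := by
    ext z
    constructor
    · rintro ⟨_, ⟨x, hx, rfl⟩, rfl⟩
      exact ⟨c x, ⟨x, hx, rfl⟩, hg x hx⟩
    · rintro ⟨_, ⟨x, hx, rfl⟩, rfl⟩
      exact ⟨f x, ⟨x, hx, rfl⟩, (hg x hx).symm⟩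
  have h2 : (some '' (f '' s)).encard = (f '' s).encard :=
    (Option.some_injective β).encard_image _
  rw [← h2, h1]
  exact Set.encard_image_le _ _

/-- the cardinality of a finite union -/
theorem encard_biUnion_le_sum {ι α : Type} (t : Finset ι) (f : ι → Set α) :
    (⋃ i ∈ t, f i).encard ≤ ∑ i ∈ t, (f i).encard := by
  classical
  induction t using Finset.induction_on with
  | empty => simp
  | insert a t ha ih =>
    rw [Finset.sum_insert ha, Finset.set_biUnion_insert]
    exact (Set.encard_union_le _ _).trans (by gcongr)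

theorem SignType.abs_cast_eq_one {s : SignType} (hs : s ≠ 0) : |(s : ℝ)| = 1 := by
  cases s <;> simp_all

variable {m n : ℕ} {X : Type} [TopologicalSpace X]

namespace CubeSys

variable (C : CubeSys m n X)

theorem str_abs_le {C : CubeSys m n X} {σ : Fin n → SignType} {h : X} (hh : h ∈ C.str σ)
    (i : Fin n) : |C.pos i h| ≤ 1 := by
  by_cases hi : σ i = 0
  · exact ((hh i).1 hi).le
  · rw [(hh i).2 hi, SignType.abs_cast_eq_one hi]

/-- the open condition -/
theorem isOpen_crossing (σ : Fin n → SignType) : IsOpen {h | ∀ i, σ i = 0 → |C.pos i h| < 1} := by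
  have : {h | ∀ i, σ i = 0 → |C.pos i h| < 1} = ⋂ i, {h | σ i = 0 → |C.pos i h| < 1} := by
    ext; simp
  rw [this]
  apply isOpen_iInter_of_finite
  intro i
  by_cases hi : σ i = 0
  · simp only [hi, forall_const]
    exact isOpen_lt (C.cont_pos i).abs continuous_const
  · simp [hi]

/-- the local structure of strata: the local cells -/
theorem exists_cell (hn : m + 2 ≤ n) (σ : Fin n → SignType) (b : Fin n) (hb : σ b = 0)
    (hσ : (Finset.univ.filter (fun i => σ i ≠ 0)).card ≤ m) (δ : SignType) (h₁ : X) (hh₁ : h₁ ∈ C.str (Function.update σ b δ)) :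
    h₁ ∈ closure (C.str σ) ∧ ∃ Q ⊆ C.str σ, IsPreconnected Q ∧ ∀ᶠ h in 𝓝 h₁, h ∈ C.str σ → h ∈ Q := by
  classical
  -- the tuple
  obtain ⟨T, hT1, hT2⟩ : ∃ T : Finset (Fin n),
      insert b (Finset.univ.filter (fun i => σ i ≠ 0)) ⊆ T ∧ T.card = m + 2 := by
    apply Finset.exists_superset_card_eq
    · exact (Finset.card_insert_le _ _).trans (by omega)
    · simpa using hn
  set I : Fin (m + 2) → Fin n := fun j => T.orderEmbOfFin hT2 j with hI
  have hIinj : Function.Injective I := (T.orderEmbOfFin hT2).injective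
  have hIr : ∀ i, i ∈ T → ∃ j, I j = i := by
    intro i hi
    have : i ∈ Set.range (T.orderEmbOfFin hT2) := by
      rw [Finset.range_orderEmbOfFin]; exact hi
    exact this
  have hIS : ∀ i, σ i ≠ 0 → ∃ j, I j = i := fun i hi =>
    hIr i (hT1 (Finset.mem_insert_of_mem (by simp [hi])))
  obtain ⟨j₀, hj₀⟩ := hIr b (hT1 (Finset.mem_insert_self _ _))
  have hle : ∀ j, |C.pos (I j) h₁| ≤ 1 := fun j => str_abs_le hh₁ _
  set ρ : Fin (m + 2) → ℝ := fun j => C.pos (I j) h₁ with hρ
  set ε : ℝ := C.ori I h₁ with hε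
  have hε1 : ε = 1 ∨ ε = -1 := C.ori_mem I h₁
  have hpt : C.pt I ε ρ = h₁ := C.pt_unique I hIinj h₁ hle
  have hcont := C.pt_cont I hIinj ε hε1
  -- positions of h₁
  have hpos0 : ∀ i, i ≠ b → σ i = 0 → |C.pos i h₁| < 1 := by
    intro i hi hi0
    exact (hh₁ i).1 (by rw [Function.update_of_ne hi]; exact hi0)
  have hposS : ∀ i, σ i ≠ 0 → C.pos i h₁ = (σ i : ℝ) := by
    intro i hi
    have hib : i ≠ b := fun h => hi (h ▸ hb)
    have := (hh₁ i).2 (by rw [Function.update_of_ne hib]; exact hi)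
    rwa [Function.update_of_ne hib] at this
  -- members outside of the tuple are crossed near `h₁`
  have hopen : {h | ∀ i, (∀ j, I j ≠ i) → |C.pos i h| < 1} ∈ 𝓝 h₁ := by
    have hO : IsOpen {h | ∀ i, (∀ j, I j ≠ i) → |C.pos i h| < 1} := by
      have : {h | ∀ i, (∀ j, I j ≠ i) → |C.pos i h| < 1} =
          ⋂ i, {h | (∀ j, I j ≠ i) → |C.pos i h| < 1} := by
        ext; simp
      rw [this]
      apply isOpen_iInter_of_finite
      intro i
      by_cases hi : ∀ j, I j ≠ i
      · have : {h | (∀ j, I j ≠ i) → |C.pos i h| < 1} = {h | |C.pos i h| < 1} := by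
          ext h
          exact ⟨fun h' => h' hi, fun h' _ => h'⟩
        rw [this]
        exact isOpen_lt (C.cont_pos i).abs continuous_const
      · have : {h | (∀ j, I j ≠ i) → |C.pos i h| < 1} = Set.univ := by
          ext; simp [hi]
        rw [this]; exact isOpen_univ
    apply hO.mem_nhds
    intro i hi
    have hi0 : σ i = 0 := by
      by_contra h
      obtain ⟨j, hj⟩ := hIS i h
      exact hi j hj
    exact hpos0 i (fun h => hi j₀ (hj₀.trans h.symm)) hi0
  have hρcube : ρ ∈ {q : Fin (m + 2) → ℝ | ∀ j, |q j| ≤ 1} := hle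
  have hnear : ∀ᶠ q in 𝓝[{q : Fin (m + 2) → ℝ | ∀ j, |q j| ≤ 1}] ρ,
      C.pt I ε q ∈ {h | ∀ i, (∀ j, I j ≠ i) → |C.pos i h| < 1} := by
    apply hcont ρ hρcube
    rw [hpt]; exact hopen
  rw [eventually_nhdsWithin_iff, Metric.eventually_nhds_iff] at hnear
  obtain ⟨η, hη, hball⟩ := hnear
  set W : Set (Fin (m + 2) → ℝ) := {q | ∀ j, (σ (I j) ≠ 0 → q j = ρ j) ∧
    (σ (I j) = 0 → |q j| < 1 ∧ |q j - ρ j| < η)} with hW
  have hWcube : W ⊆ {q | ∀ j, |q j| ≤ 1} := by
    intro q hq j
    by_cases hj : σ (I j) = 0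
    · exact ((hq j).2 hj).1.le
    · rw [(hq j).1 hj]; exact hle j
  have hWdist : ∀ q ∈ W, dist q ρ < η := by
    intro q hq
    rw [dist_pi_lt_iff hη]
    intro j
    by_cases hj : σ (I j) = 0
    · exact ((hq j).2 hj).2
    · rw [(hq j).1 hj, dist_self]; exact hη
  have hWstr : C.pt I ε '' W ⊆ C.str σ := by
    rintro _ ⟨q, hq, rfl⟩ i
    have hq1 := C.pt_pos I hIinj ε hε1 q (hWcube hq)
    by_cases hi : ∃ j, I j = i
    · obtain ⟨j, rfl⟩ := hi
      rw [hq1 j]
      refine ⟨fun h0 => ((hq j).2 h0).1, fun h0 => ?_⟩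
      rw [(hq j).1 h0]
      exact hposS _ h0
    · have h0 : σ i = 0 := by
        by_contra h
        exact hi (hIS i h)
      refine ⟨fun _ => ?_, fun h => absurd h0 h⟩
      push Not at hi
      exact hball (hWdist q hq) (hWcube hq) i hi
  have hWconv : Convex ℝ W := by
    intro q hq r hr a c ha hc hac j
    refine ⟨fun h0 => ?_, fun h0 => ?_⟩
    · simp only [Pi.add_apply, Pi.smul_apply, smul_eq_mul]
      rw [(hq j).1 h0, (hr j).1 h0, ← add_mul, hac, one_mul]
    · have h1 := (hq j).2 h0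
      have h2 := (hr j).2 h0
      simp only [Pi.add_apply, Pi.smul_apply, smul_eq_mul]
      have key : ∀ x y B : ℝ, |x| < B → |y| < B → |a * x + c * y| < B := by
        intro x y B hx hy
        have e1 : a * x + c * y ∈ Set.Ioo (-B) B :=
          (convex_Ioo (-B) B) (abs_lt.1 hx) (abs_lt.1 hy) ha hc hac
        exact abs_lt.2 e1
      refine ⟨key _ _ _ h1.1 h2.1, ?_⟩
      have e2 : a * q j + c * r j - ρ j = a * (q j - ρ j) + c * (r j - ρ j) := by
        have : ρ j = (a + c) * ρ j := by rw [hac, one_mul]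
        linear_combination (-1 : ℝ) * this
      rw [e2]
      exact key _ _ _ h1.2 h2.2
  refine ⟨?_, C.pt I ε '' W, hWstr, ?_, ?_⟩
  · -- density
    have hcl : ρ ∈ closure W := by
      set f : ℝ → Fin (m + 2) → ℝ := fun t j => if σ (I j) = 0 then (1 - t) * ρ j else ρ j with hf
      have hfc : Continuous f := by
        apply continuous_pi
        intro j
        by_cases hj : σ (I j) = 0
        · simp only [hf, hj, if_true]; fun_prop
        · simp only [hf, hj, if_false]; fun_prop
      have hf0 : f 0 = ρ := by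
        funext j
        simp [hf]
      have htend : Filter.Tendsto f (𝓝[>] 0) (𝓝 ρ) := by
        rw [← hf0]
        exact hfc.continuousAt.tendsto.mono_left nhdsWithin_le_nhds
      apply mem_closure_of_tendsto htend
      have h1 : ∀ᶠ t : ℝ in 𝓝[>] 0, t < min 1 η := by
        apply Filter.Eventually.filter_mono nhdsWithin_le_nhds
        exact eventually_lt_nhds (lt_min one_pos hη)
      filter_upwards [h1, self_mem_nhdsWithin] with t ht ht0
      have ht0' : (0 : ℝ) < t := ht0
      have ht1 : t < 1 := ht.trans_le (min_le_left _ _)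
      have ht2 : t < η := ht.trans_le (min_le_right _ _)
      intro j
      refine ⟨fun h0 => by simp [hf, h0], fun h0 => ?_⟩
      have hj : f t j = (1 - t) * ρ j := by simp [hf, h0]
      have hρj : |ρ j| ≤ 1 := hle j
      rw [hj]
      constructor
      · rw [abs_mul, abs_of_pos (by linarith : (0 : ℝ) < 1 - t)]
        nlinarith [abs_nonneg (ρ j)]
      · have : (1 - t) * ρ j - ρ j = -(t * ρ j) := by ring
        rw [this, abs_neg, abs_mul, abs_of_pos ht0']
        nlinarith [abs_nonneg (ρ j)]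
    have h2 : C.pt I ε ρ ∈ closure (C.pt I ε '' W) :=
      ((hcont ρ hρcube).mono hWcube).mem_closure_image hcl
    rw [hpt] at h2
    exact closure_mono hWstr h2
  · exact hWconv.isPreconnected.image _ (hcont.mono hWcube)
  · -- the neighbourhood
    have hU1 : ∀ᶠ h in 𝓝 h₁, ∀ j, |C.pos (I j) h - ρ j| < η := by
      rw [Filter.eventually_all]
      intro j
      have : Filter.Tendsto (fun h => |C.pos (I j) h - ρ j|) (𝓝 h₁) (𝓝 |C.pos (I j) h₁ - ρ j|) :=
        (((C.cont_pos (I j)).sub continuous_const).abs).continuousAt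
      have h0 : |C.pos (I j) h₁ - ρ j| < η := by simp [hρ, hη]
      exact this.eventually (eventually_lt_nhds h0)
    have hU2 : ∀ᶠ h in 𝓝 h₁, h ∉ {h | (∀ j, |C.pos (I j) h| ≤ 1) ∧ C.ori I h = -ε} := by
      apply (C.ori_closed I hIinj (-ε)).isOpen_compl.mem_nhds
      rintro ⟨-, h⟩
      rw [← hε] at h
      rcases hε1 with h' | h' <;> rw [h'] at h <;> norm_num at h
    filter_upwards [hU1, hU2] with h hh1 hh2 hh
    have hle' : ∀ j, |C.pos (I j) h| ≤ 1 := fun j => str_abs_le hh _
    have hori : C.ori I h = ε := by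
      by_contra hne
      apply hh2
      refine ⟨hle', ?_⟩
      rcases hε1 with h' | h' <;> rcases C.ori_mem I h with h'' | h'' <;>
        simp [h', h''] at hne ⊢
    refine ⟨fun j => C.pos (I j) h, fun j => ⟨fun h0 => ?_, fun h0 => ⟨(hh _).1 h0, hh1 j⟩⟩, ?_⟩
    · show C.pos (I j) h = C.pos (I j) h₁
      rw [(hh _).2 h0, hposS _ h0]
    · rw [← hori]
      exact C.pt_unique I hIinj h hle'

/-- tuples with two distinguished entries at the end -/
def tup {α : Type} (e : Fin m → α) (x y : α) : Fin (m + 2) → α :=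
  Fin.snoc (α := fun _ => α) (Fin.snoc (α := fun _ => α) e x) y

theorem tup_last {α : Type} (e : Fin m → α) (x y : α) : tup e x y (Fin.last (m + 1)) = y := by
  simp [tup]

theorem tup_prev {α : Type} (e : Fin m → α) (x y : α) :
    tup e x y (Fin.last m).castSucc = x := by
  simp [tup]

theorem tup_init {α : Type} (e : Fin m → α) (x y : α) (j : Fin m) :
    tup e x y j.castSucc.castSucc = e j := by
  simp [tup]

theorem tup_forall {P : Fin (m + 2) → Prop} (h1 : ∀ j : Fin m, P j.castSucc.castSucc)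
    (h2 : P (Fin.last m).castSucc) (h3 : P (Fin.last (m + 1))) : ∀ j, P j := by
  intro j
  refine Fin.lastCases h3 (fun j => ?_) j
  exact Fin.lastCases h2 (fun j => h1 j) j

theorem tup_injective {α : Type} {e : Fin m → α} (he : Function.Injective e) {x y : α}
    (hx : ∀ j, e j ≠ x) (hy : ∀ j, e j ≠ y) (hxy : x ≠ y) : Function.Injective (tup e x y) := by
  unfold tup
  apply Fin.snoc_injective_of_injective
  · apply Fin.snoc_injective_of_injective he
    rintro ⟨j, hj⟩
    exact hx j hj
  · rintro ⟨j, hj⟩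
    revert hj
    refine Fin.lastCases ?_ (fun j => ?_) j
    · simpa using hxy
    · simpa using hy j

/-- **Exit**: from every component of a stratum one can reach a point that is tangent to exactly
one more member. -/
theorem exists_exit (hn : m + 2 ≤ n) (σ : Fin n → SignType)
    (hσ : (Finset.univ.filter (fun i => σ i ≠ 0)).card ≤ m) (h : X) (hh : h ∈ C.str σ) :
    ∃ b, σ b = 0 ∧ ∃ δ : SignType, δ ≠ 0 ∧ ∃ h₁ ∈ C.str (Function.update σ b δ),
      h₁ ∈ closure (connectedComponentIn (C.str σ) h) := by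
  classical
  obtain ⟨T, hT1, hT2⟩ : ∃ T : Finset (Fin n),
      Finset.univ.filter (fun i => σ i ≠ 0) ⊆ T ∧ T.card = m := by
    apply Finset.exists_superset_card_eq hσ
    simp; omega
  have hTS : ∀ i, σ i ≠ 0 → i ∈ T := fun i hi => hT1 (by simp [hi])
  set e : Fin m → Fin n := fun j => T.orderEmbOfFin hT2 j with he
  have heinj : Function.Injective e := (T.orderEmbOfFin hT2).injective
  have her : ∀ i, i ∈ T ↔ ∃ j, e j = i := by
    intro i
    have : i ∈ Set.range (T.orderEmbOfFin hT2) ↔ i ∈ (T : Set (Fin n)) := by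
      rw [Finset.range_orderEmbOfFin]
    exact this.symm
  obtain ⟨G, hG⟩ : ∃ G, G ∉ T := by
    by_contra hcon
    push Not at hcon
    have : T = Finset.univ := by ext; simp [hcon]
    rw [this] at hT2
    simp at hT2; omega
  obtain ⟨H, hH⟩ : ∃ H, H ∉ insert G T := by
    by_contra hcon
    push Not at hcon
    have : insert G T = Finset.univ := by ext x; simp [hcon x]
    have h2 : (insert G T).card = m + 1 := by rw [Finset.card_insert_of_notMem hG, hT2]
    rw [this] at h2
    simp at h2; omega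
  have hGH : G ≠ H := fun h => hH (by simp [h])
  have hHT : H ∉ T := fun h => hH (by simp [h])
  have hGe : ∀ j, e j ≠ G := fun j hj => hG ((her G).2 ⟨j, hj⟩)
  have hHe : ∀ j, e j ≠ H := fun j hj => hHT ((her H).2 ⟨j, hj⟩)
  have hG0 : σ G = 0 := by by_contra hc; exact hG (hTS _ hc)
  have hH0 : σ H = 0 := by by_contra hc; exact hHT (hTS _ hc)
  set I := tup e G H with hI
  have hIinj : Function.Injective I := tup_injective heinj hGe hHe hGH
  set ε := C.ori I h with hε
  have hε1 : ε = 1 ∨ ε = -1 := C.ori_mem I h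
  have hcont := C.pt_cont I hIinj ε hε1
  set ρ : Fin m → ℝ := fun j => C.pos (e j) h with hρ
  set γ : ℝ → ℝ → X := fun x s => C.pt I ε (tup ρ x s) with hγ
  have hρle : ∀ j, |ρ j| ≤ 1 := fun j => str_abs_le hh _
  have hcube : ∀ x s, |x| ≤ 1 → |s| ≤ 1 → ∀ j, |tup ρ x s j| ≤ 1 := by
    intro x s hx hs
    apply tup_forall
    · intro j; rw [tup_init]; exact hρle j
    · rw [tup_prev]; exact hx
    · rw [tup_last]; exact hs
  have hγe : ∀ x s, |x| ≤ 1 → |s| ≤ 1 → ∀ j, C.pos (e j) (γ x s) = ρ j := by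
    intro x s hx hs j
    have := C.pt_pos I hIinj ε hε1 _ (hcube x s hx hs) j.castSucc.castSucc
    rwa [hI, tup_init, tup_init] at this
  have hγG : ∀ x s, |x| ≤ 1 → |s| ≤ 1 → C.pos G (γ x s) = x := by
    intro x s hx hs
    have := C.pt_pos I hIinj ε hε1 _ (hcube x s hx hs) (Fin.last m).castSucc
    rwa [hI, tup_prev, tup_prev] at this
  have hγH : ∀ x s, |x| ≤ 1 → |s| ≤ 1 → C.pos H (γ x s) = s := by
    intro x s hx hs
    have := C.pt_pos I hIinj ε hε1 _ (hcube x s hx hs) (Fin.last (m + 1))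
    rwa [hI, tup_last, tup_last] at this
  have hγcont : ContinuousOn (fun p : ℝ × ℝ => γ p.1 p.2) {p | |p.1| ≤ 1 ∧ |p.2| ≤ 1} := by
    have h1 : Continuous fun p : ℝ × ℝ => tup ρ p.1 p.2 := by
      apply continuous_pi
      apply tup_forall
      · intro j; simp only [tup_init]; fun_prop
      · simp only [tup_prev]; fun_prop
      · simp only [tup_last]; fun_prop
    exact hcont.comp h1.continuousOn fun p hp => hcube p.1 p.2 hp.1 hp.2
  -- the base point
  set x₀ := C.pos G h with hx₀
  set s₀ := C.pos H h with hs₀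
  have hx₀1 : |x₀| < 1 := (hh G).1 hG0
  have hs₀1 : |s₀| < 1 := (hh H).1 hH0
  have hbase : γ x₀ s₀ = h := by
    have := C.pt_unique I hIinj h (fun j => str_abs_le hh _)
    rw [← hε] at this
    have h2 : (fun j => C.pos (I j) h) = tup ρ x₀ s₀ := by
      funext j
      revert j
      apply tup_forall
      · intro j; rw [hI, tup_init, tup_init]
      · rw [hI, tup_prev, tup_prev]
      · rw [hI, tup_last, tup_last]
    rw [h2] at this
    exact this
  -- membership in the stratum along `γ`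
  have hstr : ∀ x s, |x| ≤ 1 → |s| ≤ 1 → (∀ i, σ i = 0 → |C.pos i (γ x s)| < 1) →
      γ x s ∈ C.str σ := by
    intro x s hx hs hcr i
    refine ⟨hcr i, fun hi => ?_⟩
    obtain ⟨j, rfl⟩ := (her i).1 (hTS i hi)
    rw [hγe x s hx hs j]
    exact (hh _).2 hi
  set F := connectedComponentIn (C.str σ) h with hF
  have hhF : h ∈ F := mem_connectedComponentIn hh
  -- nearby points on the `x`-line
  obtain ⟨η, hη, hηF⟩ : ∃ η > 0, ∀ x, |x - x₀| < η → |x| ≤ 1 ∧ γ x s₀ ∈ F := by
    have hfc : ContinuousOn (fun x => γ x s₀) {x | |x| ≤ 1} :=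
      hγcont.comp (f := fun x : ℝ => (x, s₀)) (by fun_prop) fun x hx => ⟨hx, hs₀1.le⟩
    have hnb : {x : ℝ | |x| ≤ 1} ∈ 𝓝 x₀ := by
      have : {x : ℝ | |x| < 1} ∈ 𝓝 x₀ := (isOpen_lt continuous_abs continuous_const).mem_nhds hx₀1
      exact Filter.mem_of_superset this fun x (hx : |x| < 1) => show |x| ≤ 1 from hx.le
    have hca : ContinuousAt (fun x => γ x s₀) x₀ := hfc.continuousAt hnb
    have hev : ∀ᶠ x in 𝓝 x₀, γ x s₀ ∈ {h | ∀ i, σ i = 0 → |C.pos i h| < 1} := by
      apply hca.eventually_mem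
      apply (C.isOpen_crossing σ).mem_nhds
      rw [hbase]
      exact fun i hi => (hh i).1 hi
    obtain ⟨η, hη, hball⟩ := Metric.eventually_nhds_iff.1 (hev.and hnb)
    refine ⟨η, hη, fun x hx => ⟨(hball (y := x) hx).2, ?_⟩⟩
    have hpre : IsPreconnected ((fun x => γ x s₀) '' Metric.ball x₀ η) := by
      apply (convex_ball x₀ η).isPreconnected.image
      exact hfc.mono fun y hy => (hball hy).2
    have hsub : (fun x => γ x s₀) '' Metric.ball x₀ η ⊆ C.str σ := by
      rintro _ ⟨y, hy, rfl⟩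
      exact hstr y s₀ (hball hy).2 hs₀1.le (hball hy).1
    exact hpre.subset_connectedComponentIn ⟨x₀, Metric.mem_ball_self hη, hbase⟩ hsub
      ⟨x, hx, rfl⟩
  -- the finite set of bad values
  set pm : Set ℝ := {1, -1} with hpm
  have hpmfin : pm.Finite := Set.toFinite _
  set bad : Set ℝ := (fun p : (Fin n × Fin n) × ℝ × ℝ × ℝ =>
    C.pos G (C.pt (tup e p.1.1 p.1.2) p.2.1 (tup ρ p.2.2.1 p.2.2.2))) ''
      (Set.univ ×ˢ (pm ×ˢ (pm ×ˢ pm))) with hbad
  have hbadfin : bad.Finite :=
    (Set.finite_univ.prod (hpmfin.prod (hpmfin.prod hpmfin))).image _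
  obtain ⟨x, hxI, hxbad⟩ : ∃ x ∈ Set.Ioo x₀ (x₀ + η), x ∉ bad := by
    have : (Set.Ioo x₀ (x₀ + η)).Infinite := Set.Ioo_infinite (by linarith)
    exact this.exists_notMem_finite hbadfin
  have hxη : |x - x₀| < η := by
    rw [abs_of_pos (by linarith [hxI.1])]
    linarith [hxI.2]
  obtain ⟨hx1, hxF⟩ := hηF x hxη
  -- the `s`-line
  have hgc : ContinuousOn (fun s => γ x s) {s | |s| ≤ 1} :=
    hγcont.comp (f := fun s : ℝ => (x, s)) (by fun_prop) fun s hs => ⟨hx1, hs⟩
  have hIcc : ∀ s ∈ Set.Icc s₀ 1, |s| ≤ 1 := by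
    intro s hs
    rw [abs_le]
    exact ⟨by linarith [hs.1, (abs_lt.1 hs₀1).1], hs.2⟩
  set Z : Set ℝ := {s | s ∈ Set.Icc s₀ 1 ∧ ∃ i, σ i = 0 ∧ 1 ≤ |C.pos i (γ x s)|} with hZ
  have hZc : IsCompact Z := by
    have hZ' : Z = ⋃ i ∈ {i | σ i = 0}, Set.Icc s₀ 1 ∩ (fun s => |C.pos i (γ x s)|) ⁻¹' Set.Ici 1 := by
      ext s
      simp [hZ]
    rw [hZ']
    apply (Set.toFinite _).isCompact_biUnion
    intro i _
    apply IsCompact.of_isClosed_subset isCompact_Icc _ Set.inter_subset_left
    apply ContinuousOn.preimage_isClosed_of_isClosed _ isClosed_Icc isClosed_Ici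
    exact ((C.cont_pos i).comp_continuousOn (hgc.mono hIcc)).abs
  have hZne : Z.Nonempty := by
    refine ⟨1, ⟨(abs_lt.1 hs₀1).2.le, le_rfl⟩, H, hH0, ?_⟩
    rw [hγH x 1 hx1 (by norm_num)]
    norm_num
  obtain ⟨t, htZ, htmin⟩ := hZc.exists_isLeast hZne
  have hts₀ : s₀ < t := by
    rcases lt_or_eq_of_le htZ.1.1 with h1 | h1
    · exact h1
    · exfalso
      obtain ⟨i, hi, hi1⟩ := htZ.2
      rw [← h1] at hi1
      have : γ x s₀ ∈ C.str σ := connectedComponentIn_subset _ _ hxF
      exact absurd ((this i).1 hi) (not_lt.2 hi1)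
  have hbefore : ∀ s ∈ Set.Ico s₀ t, γ x s ∈ C.str σ := by
    intro s hs
    have hs1 : s ∈ Set.Icc s₀ 1 := ⟨hs.1, hs.2.le.trans htZ.1.2⟩
    apply hstr x s hx1 (hIcc s hs1)
    intro i hi
    by_contra hcon
    have : s ∈ Z := ⟨hs1, i, hi, not_lt.1 hcon⟩
    exact absurd (htmin this) (not_le.2 hs.2)
  have hbeforeF : ∀ s ∈ Set.Ico s₀ t, γ x s ∈ F := by
    intro s hs
    have hpre : IsPreconnected ((fun s => γ x s) '' Set.Ico s₀ t) := by
      apply isPreconnected_Ico.image
      exact hgc.mono fun s hs => hIcc s ⟨hs.1, hs.2.le.trans htZ.1.2⟩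
    have hsub : (fun s => γ x s) '' Set.Ico s₀ t ⊆ C.str σ := by
      rintro _ ⟨s, hs, rfl⟩
      exact hbefore s hs
    have := hpre.subset_connectedComponentIn ⟨s₀, ⟨le_rfl, hts₀⟩, rfl⟩ hsub ⟨s, hs, rfl⟩
    rw [hF, connectedComponentIn_eq hxF]
    exact this
  have ht1 : |t| ≤ 1 := hIcc t htZ.1
  have hclos : γ x t ∈ closure F := by
    have h1 : t ∈ closure (Set.Ico s₀ t) := by
      rw [closure_Ico hts₀.ne]
      exact ⟨hts₀.le, le_rfl⟩
    have h2 : ContinuousWithinAt (fun s => γ x s) (Set.Ico s₀ t) t :=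
      (hgc t ht1).mono fun s hs => hIcc s ⟨hs.1, hs.2.le.trans htZ.1.2⟩
    have h3 := h2.mem_closure_image h1
    apply closure_mono _ h3
    rintro _ ⟨s, hs, rfl⟩
    exact hbeforeF s hs
  set h₁ := γ x t with hh₁
  have hle₁ : ∀ i, |C.pos i h₁| ≤ 1 := by
    intro i
    have hcl : IsClosed {h | |C.pos i h| ≤ 1} := isClosed_le (C.cont_pos i).abs continuous_const
    have hsub : F ⊆ {h | |C.pos i h| ≤ 1} := fun y hy =>
      str_abs_le (connectedComponentIn_subset _ _ hy) i
    exact (closure_minimal hsub hcl) hclos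
  obtain ⟨b, hb0, hb1⟩ := htZ.2
  have hbe : ∀ c, σ c = 0 → |C.pos c h₁| = 1 → ∀ j, e j ≠ c := by
    intro c hc hc1 j hj
    have h2 := hγe x t hx1 ht1 j
    rw [hj] at h2
    have h3 : ρ j = C.pos c h := by simp only [hρ, hj]
    have h4 : |C.pos c h| < 1 := (hh c).1 hc
    rw [← h3, ← h2] at h4
    exact absurd hc1 h4.ne
  have hpmabs : ∀ y : ℝ, |y| = 1 → y ∈ pm := by
    intro y hy
    rcases eq_or_eq_neg_of_abs_eq hy with h1 | h1
    · exact Or.inl h1
    · exact Or.inr h1
  have hb1' : |C.pos b h₁| = 1 := le_antisymm (hle₁ b) hb1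
  have huniq : ∀ c, σ c = 0 → |C.pos c h₁| = 1 → c = b := by
    intro c hc hc1
    by_contra hcb
    apply hxbad
    have hinj : Function.Injective (tup e b c) :=
      tup_injective heinj (hbe b hb0 hb1') (hbe c hc hc1) (Ne.symm hcb)
    refine ⟨((b, c), (C.ori (tup e b c) h₁, (C.pos b h₁, C.pos c h₁))),
      ⟨trivial, ?_, hpmabs _ hb1', hpmabs _ hc1⟩, ?_⟩
    · exact C.ori_mem _ _
    · have h2 := C.pt_unique (tup e b c) hinj h₁ (fun j => hle₁ _)
      have h3 : (fun j => C.pos (tup e b c j) h₁) = tup ρ (C.pos b h₁) (C.pos c h₁) := by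
        funext j
        revert j
        apply tup_forall
        · intro j; rw [tup_init, tup_init]; exact hγe x t hx1 ht1 j
        · rw [tup_prev, tup_prev]
        · rw [tup_last, tup_last]
      rw [h3] at h2
      show C.pos G (C.pt (tup e b c) (C.ori (tup e b c) h₁) (tup ρ (C.pos b h₁) (C.pos c h₁))) = x
      rw [h2]
      exact hγG x t hx1 ht1
  refine ⟨b, hb0, SignType.sign (C.pos b h₁), ?_, h₁, ?_, hclos⟩
  · rw [sign_ne_zero]
    intro h0
    rw [h0] at hb1'
    norm_num at hb1'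
  · intro i
    by_cases hib : i = b
    · subst hib
      rw [Function.update_self]
      rcases eq_or_eq_neg_of_abs_eq hb1' with h1 | h1
      · rw [h1]; simp
      · rw [h1]; simp
    · rw [Function.update_of_ne hib]
      refine ⟨fun hi => ?_, fun hi => ?_⟩
      · apply lt_of_le_of_ne (hle₁ i)
        intro h1
        exact hib (huniq i hi h1)
      · obtain ⟨j, rfl⟩ := (her i).1 (hTS i hi)
        rw [hγe x t hx1 ht1 j]
        exact (hh _).2 hi

/-- **Recursion**: the number of components of a stratum is at most the total number of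
components of the strata with one more tangency. -/
theorem ncomp_step [T2Space X] (C : CubeSys m n X) (hn : m + 2 ≤ n) (σ : Fin n → SignType)
    (hσ : (Finset.univ.filter (fun i => σ i ≠ 0)).card ≤ m) :
    ncomp (C.str σ) ≤ ∑ b ∈ Finset.univ.filter (fun i => σ i = 0),
      (ncomp (C.str (Function.update σ b 1)) + ncomp (C.str (Function.update σ b (-1)))) := by
  classical
  set cc : X → Set X := fun x => connectedComponentIn (C.str σ) x with hcc
  -- the component of the stratum adjacent to a point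
  set P : X → Set X → Prop := fun x K => ∀ᶠ h in 𝓝 x, h ∈ C.str σ → cc h = K with hP
  set ψ : X → Set X := fun x => if hx : ∃ K, P x K then hx.choose else ∅ with hψ
  have hPuniq : ∀ x ∈ closure (C.str σ), ∀ K L, P x K → P x L → K = L := by
    intro x hx K L hK hL
    have hfr : ∃ᶠ h in 𝓝 x, h ∈ C.str σ := mem_closure_iff_frequently.1 hx
    obtain ⟨h, hh, hKL⟩ := (hfr.and_eventually (hK.and hL)).exists
    rw [← hKL.1 hh, ← hKL.2 hh]
  have hψP : ∀ x ∈ closure (C.str σ), ∀ K, P x K → ψ x = K := by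
    intro x hx K hK
    have hex : ∃ K, P x K := ⟨K, hK⟩
    have h1 : ψ x = hex.choose := by simp only [hψ, hex, dif_pos]
    rw [h1]
    exact hPuniq x hx _ _ hex.choose_spec hK
  have hcell : ∀ b, σ b = 0 → ∀ δ : SignType, ∀ x ∈ C.str (Function.update σ b δ),
      x ∈ closure (C.str σ) ∧ ∃ K, P x K := by
    intro b hb δ x hx
    obtain ⟨h1, Q, hQ, hQc, hev⟩ := C.exists_cell hn σ b hb hσ δ x hx
    refine ⟨h1, ?_⟩
    obtain ⟨y, hyU, hy⟩ := (mem_closure_iff_frequently.1 h1).and_eventually hev |>.exists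
    refine ⟨cc y, ?_⟩
    filter_upwards [hev] with h hh hhs
    have hyQ := hy hyU
    have hhQ := hh hhs
    exact (connectedComponentIn_eq
      (hQc.subset_connectedComponentIn hyQ hQ hhQ)).symm
  have hconst : ∀ b, σ b = 0 → ∀ δ : SignType, ∀ x ∈ C.str (Function.update σ b δ),
      ∀ y ∈ C.str (Function.update σ b δ),
      connectedComponentIn (C.str (Function.update σ b δ)) x =
        connectedComponentIn (C.str (Function.update σ b δ)) y → ψ x = ψ y := by
    intro b hb δ x hx y hy hxy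
    let _ : TopologicalSpace (Set X) := ⊥
    have _ : DiscreteTopology (Set X) := ⟨rfl⟩
    have hpre : IsPreconnected (connectedComponentIn (C.str (Function.update σ b δ)) x) :=
      isPreconnected_connectedComponentIn
    have hsub := connectedComponentIn_subset (C.str (Function.update σ b δ)) x
    have hc : ContinuousOn ψ (connectedComponentIn (C.str (Function.update σ b δ)) x) := by
      intro z hz
      obtain ⟨hz1, K, hK⟩ := hcell b hb δ z (hsub hz)
      have h1 : ∀ᶠ w in 𝓝[connectedComponentIn (C.str (Function.update σ b δ)) x] z,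
          ψ w = ψ z := by
        rw [eventually_nhdsWithin_iff]
        filter_upwards [eventually_eventually_nhds.2 hK] with w hw hwF
        have hw1 := (hcell b hb δ w (hsub hwF)).1
        rw [hψP w hw1 K hw, hψP z hz1 K hK]
      exact (continuousWithinAt_const (b := ψ z)).congr_of_eventuallyEq h1 rfl
    apply hpre.constant hc (mem_connectedComponentIn hx)
    rw [hxy]
    exact mem_connectedComponentIn hy
  -- covering
  have hcover : cc '' (C.str σ) ⊆ ⋃ b ∈ Finset.univ.filter (fun i => σ i = 0),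
      (ψ '' (C.str (Function.update σ b 1)) ∪ ψ '' (C.str (Function.update σ b (-1)))) := by
    rintro _ ⟨h, hh, rfl⟩
    obtain ⟨b, hb, δ, hδ, h₁, hh₁, hcl⟩ := C.exists_exit hn σ hσ h hh
    obtain ⟨hx1, K, hK⟩ := hcell b hb δ h₁ hh₁
    have hKeq : K = cc h := by
      obtain ⟨y, hyF, hy⟩ := ((mem_closure_iff_frequently.1 hcl).and_eventually hK).exists
      rw [← hy (connectedComponentIn_subset _ _ hyF)]
      exact (connectedComponentIn_eq hyF).symm
    have hval : ψ h₁ = cc h := by rw [hψP h₁ hx1 K hK, hKeq]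
    rw [Set.mem_iUnion₂]
    refine ⟨b, by simp [hb], ?_⟩
    cases δ with
    | zero => exact absurd rfl hδ
    | neg => exact Or.inr ⟨h₁, hh₁, hval⟩
    | pos => exact Or.inl ⟨h₁, hh₁, hval⟩
  have hnum : ∀ b, σ b = 0 → ∀ δ : SignType, (ψ '' (C.str (Function.update σ b δ))).encard ≤
      ncomp (C.str (Function.update σ b δ)) := fun b hb δ =>
    encard_image_le_of_factor _ _ _ (hconst b hb δ)
  calc ncomp (C.str σ) = (cc '' (C.str σ)).encard := rfl
    _ ≤ _ := Set.encard_le_encard hcover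
    _ ≤ _ := encard_biUnion_le_sum _ _
    _ ≤ _ := by
      apply Finset.sum_le_sum
      intro b hb
      have hb0 : σ b = 0 := by simpa using hb
      exact (Set.encard_union_le _ _).trans (add_le_add (hnum b hb0 1) (hnum b hb0 (-1)))

end CubeSys

end HyperplaneTransversals
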