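import Pool.Agent.Lib.MP_b2e5b9_co.Fat.Core6
import Pool.Agent.Lib.MP_b2e5b9_co.Fat.Rec

/-!
# Two-dimensional slices of a cube system
-/

set_option autoImplicit false

open Set Filter
open scoped Topology

namespace HyperplaneTransversals

namespace CubeSys

variable {m n : ℕ} {X : Type} [TopologicalSpace X] (C : CubeSys m n X) (σ : Fin n → SignType)

/-- The points tangent to the support of `σ` in the prescribed way. -/
abbrev Sl : Type := {h : X // ∀ i, σ i ≠ 0 → C.pos i h = (σ i : ℝ)}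

/-- The other bodies. -/
abbrev Rest (σ : Fin n → SignType) : Type := {i : Fin n // σ i = 0}

variable {C σ}

/-- the positions of a tuple -/
noncomputable def qv (σ : Fin n → SignType) (R : Fin m → Fin n) (x y : ℝ) : Fin (m + 2) → ℝ :=
  tup (fun l => (σ (R l) : ℝ)) x y

theorem qv_abs {R : Fin m → Fin n} (hR : ∀ l, σ (R l) ≠ 0) {x y : ℝ} (hx : |x| ≤ 1) (hy : |y| ≤ 1) :
    ∀ j, |qv σ R x y j| ≤ 1 := by
  refine tup_forall (fun j => ?_) ?_ ?_
  · rw [qv, tup_init, SignType.abs_cast_eq_one (hR j)]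
  · rw [qv, tup_prev]; exact hx
  · rw [qv, tup_last]; exact hy

variable (R : Fin m → Fin n)

theorem tup_inj' {R : Fin m → Fin n} (hRi : Function.Injective R) (hR : ∀ l, σ (R l) ≠ 0)
    {i j : Rest σ} (hij : i ≠ j) : Function.Injective (tup R i.1 j.1) := by
  refine tup_injective hRi (fun l h => hR l (h ▸ i.2)) (fun l h => hR l (h ▸ j.2)) ?_
  exact fun h => hij (Subtype.ext h)

theorem pt_mem_Sl {R : Fin m → Fin n} (hRi : Function.Injective R) (hR : ∀ l, σ (R l) ≠ 0)
    (hRs : ∀ i, σ i ≠ 0 → ∃ l, R l = i) {i j : Rest σ} (hij : i ≠ j) {ε : ℝ}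
    (hε : ε = 1 ∨ ε = -1) {x y : ℝ} (hx : |x| ≤ 1) (hy : |y| ≤ 1) :
    ∀ k, σ k ≠ 0 → C.pos k (C.pt (tup R i.1 j.1) ε (qv σ R x y)) = (σ k : ℝ) := by
  intro k hk
  obtain ⟨l, rfl⟩ := hRs k hk
  have h := C.pt_pos _ (tup_inj' hRi hR hij) ε hε (qv σ R x y) (qv_abs hR hx hy) l.castSucc.castSucc
  rw [tup_init] at h
  rw [h, qv, tup_init]

theorem tup_update {R : Fin m → Fin n} {i j k : Fin n} :
    Function.update (tup R i j) (Fin.last (m + 1)) k = tup R i k := by
  unfold tup
  exact Fin.update_snoc_last _ _ _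

open Classical in
/-- The two-dimensional position system of a slice. -/
noncomputable def slice (C : CubeSys m n X) (σ : Fin n → SignType) (R : Fin m → Fin n)
    (hRi : Function.Injective R) (hR : ∀ l, σ (R l) ≠ 0) (hRs : ∀ i, σ i ≠ 0 → ∃ l, R l = i)
    (z : C.Sl σ) : PosSys (Rest σ) (C.Sl σ) where
  pos i h := C.pos i.1 h.1
  sgn i j h := C.ori (tup R i.1 j.1) h.1
  pt i j ε x y := if hc : i ≠ j ∧ (ε = 1 ∨ ε = -1) ∧ |x| ≤ 1 ∧ |y| ≤ 1 then
    ⟨C.pt (tup R i.1 j.1) ε (qv σ R x y), pt_mem_Sl hRi hR hRs hc.1 hc.2.1 hc.2.2.1 hc.2.2.2⟩ else z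
  cont_pos i := (C.cont_pos i.1).comp continuous_subtype_val
  sgn_mem i j h := C.ori_mem _ _
  sgn_closed i j hij ε := by
    have h := (C.ori_closed _ (tup_inj' hRi hR hij) ε).preimage
      (continuous_subtype_val : Continuous (fun h : C.Sl σ => h.1))
    convert h using 1
    ext u
    constructor
    · rintro ⟨h1, h2, h3⟩
      refine ⟨tup_forall (fun l => ?_) ?_ ?_, h3⟩
      · rw [tup_init, u.2 _ (hR l), SignType.abs_cast_eq_one (hR l)]
      · rw [tup_prev]; exact h1
      · rw [tup_last]; exact h2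
    · rintro ⟨h1, h3⟩
      have e1 := h1 (Fin.last m).castSucc
      have e2 := h1 (Fin.last (m + 1))
      rw [tup_prev] at e1
      rw [tup_last] at e2
      exact ⟨e1, e2, h3⟩
  pt_cont i j hij ε hε := by
    rw [(Topology.IsEmbedding.subtypeVal
      (p := fun h : X => ∀ i, σ i ≠ 0 → C.pos i h = (σ i : ℝ))).isInducing.continuousOn_iff]
    have h1 : ContinuousOn (fun q : ℝ × ℝ => C.pt (tup R i.1 j.1) ε (qv σ R q.1 q.2))
        {q | |q.1| ≤ 1 ∧ |q.2| ≤ 1} := by
      refine (C.pt_cont _ (tup_inj' hRi hR hij) ε hε).comp (f := fun q : ℝ × ℝ => qv σ R q.1 q.2)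
        ?_ ?_
      · refine Continuous.continuousOn (continuous_pi ?_)
        refine tup_forall (fun l => ?_) ?_ ?_
        · simp only [qv, tup_init]; exact continuous_const
        · simp only [qv, tup_prev]; exact continuous_fst
        · simp only [qv, tup_last]; exact continuous_snd
      · rintro q ⟨h1, h2⟩
        exact qv_abs hR h1 h2
    refine h1.congr ?_
    rintro q ⟨h1, h2⟩
    simp only [Function.comp]
    rw [dif_pos ⟨hij, hε, h1, h2⟩]
  pt_pos₁ i j hij ε hε x y hx hy := by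
    rw [dif_pos ⟨hij, hε, hx, hy⟩]
    have h := C.pt_pos _ (tup_inj' hRi hR hij) ε hε (qv σ R x y) (qv_abs hR hx hy)
      (Fin.last m).castSucc
    rw [tup_prev, qv, tup_prev] at h
    exact h
  pt_pos₂ i j hij ε hε x y hx hy := by
    rw [dif_pos ⟨hij, hε, hx, hy⟩]
    have h := C.pt_pos _ (tup_inj' hRi hR hij) ε hε (qv σ R x y) (qv_abs hR hx hy)
      (Fin.last (m + 1))
    rw [tup_last, qv, tup_last] at h
    exact h
  pt_sgn i j hij ε hε x y hx hy := by
    rw [dif_pos ⟨hij, hε, hx, hy⟩]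
    exact C.pt_ori _ (tup_inj' hRi hR hij) ε hε (qv σ R x y) (qv_abs hR hx hy)
  pt_unique i j hij h hi hj := by
    rw [dif_pos ⟨hij, C.ori_mem _ _, hi, hj⟩]
    apply Subtype.ext
    have hle : ∀ l, |C.pos (tup R i.1 j.1 l) h.1| ≤ 1 := by
      refine tup_forall (fun l => ?_) ?_ ?_
      · rw [tup_init, h.2 _ (hR l), SignType.abs_cast_eq_one (hR l)]
      · rw [tup_prev]; exact hi
      · rw [tup_last]; exact hj
    have h1 := C.pt_unique _ (tup_inj' hRi hR hij) h.1 hle
    have h2 : qv σ R (C.pos i.1 h.1) (C.pos j.1 h.1) = fun l => C.pos (tup R i.1 j.1 l) h.1 := by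
      funext l
      revert l
      refine tup_forall (fun l => ?_) ?_ ?_
      · rw [qv, tup_init, tup_init, h.2 _ (hR l)]
      · rw [qv, tup_prev, tup_prev]
      · rw [qv, tup_last, tup_last]
    change C.pt (tup R i.1 j.1) (C.ori (tup R i.1 j.1) h.1) (qv σ R (C.pos i.1 h.1) (C.pos j.1 h.1)) = h.1
    rw [h2]
    exact h1
  mono i j k hij hik hjk h₀ hi hj hk := by
    have hne : ∀ l, tup R i.1 j.1 l ≠ k.1 := by
      refine tup_forall (fun l => ?_) ?_ ?_
      · rw [tup_init]; exact fun h => hR l (h ▸ k.2)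
      · rw [tup_prev]; exact fun h => hik (Subtype.ext h)
      · rw [tup_last]; exact fun h => hjk (Subtype.ext h)
    have hle : ∀ l, |C.pos (tup R i.1 j.1 l) h₀.1| ≤ 1 := by
      refine tup_forall (fun l => ?_) ?_ ?_
      · rw [tup_init, h₀.2 _ (hR l), SignType.abs_cast_eq_one (hR l)]
      · rw [tup_prev]; exact hi
      · rw [tup_last]; exact hj
    have hm := C.mono _ (tup_inj' hRi hR hij) k.1 hne h₀.1 hle hk
    have ht : Tendsto (fun p : C.Sl σ × C.Sl σ => (p.1.1, p.2.1)) (𝓝 (h₀, h₀)) (𝓝 (h₀.1, h₀.1)) := by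
      have : Continuous (fun p : C.Sl σ × C.Sl σ => (p.1.1, p.2.1)) :=
        (continuous_subtype_val.comp continuous_fst).prodMk
          (continuous_subtype_val.comp continuous_snd)
      exact this.tendsto (h₀, h₀)
    filter_upwards [ht.eventually hm] with p hp hpi
    have h1 := hp (by
      refine tup_forall (fun l _ => ?_) (fun _ => ?_) (fun h => absurd rfl h)
      · rw [tup_init, p.1.2 _ (hR l), p.2.2 _ (hR l)]
      · rw [tup_prev]; exact hpi)
    rw [tup_update, tup_last] at h1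
    exact h1

end CubeSys

end HyperplaneTransversals
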