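import Pool.Agent.Lib.MP_b2e5b9_co.Fat.Defs

/-!
# Existence and uniqueness of common tangents

`TanSys K F`: compact convex sets `K j` any choice from which is affinely independent, together
with functions `F j` (positively homogeneous, with a mean value property) which generalise support
functions. There is exactly one unit vector `u` of each orientation with `F j u` independent of
`j`. Uniqueness is a connectedness argument. For existence the functions are made nonlinear one
after the other; the hyperplanes through the points `p` of `K i` tangent to the other sets form a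
foliation of `K i`, whose leaves are linearly ordered, and the intermediate value theorem applies
between the last and the first leaf.
-/

set_option autoImplicit false

open scoped RealInnerProductSpace Topology

namespace HyperplaneTransversals

/-- Compact convex sets with functions generalising the support functions. -/
structure TanSys {m : ℕ} (K : Fin (m + 2) → Set (E (m + 2))) (F : Fin (m + 2) → E (m + 2) → ℝ) :
    Prop where
  compact : ∀ j, IsCompact (K j)
  convex : ∀ j, Convex ℝ (K j)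
  nonempty : ∀ j, (K j).Nonempty
  indep : ∀ a : Fin (m + 2) → E (m + 2), (∀ j, a j ∈ K j) → AffineIndependent ℝ a
  hom : ∀ j, ∀ c : ℝ, 0 ≤ c → ∀ u, F j (c • u) = c * F j u
  mv : ∀ j u v, ∃ a ∈ K j, F j u - F j v = ⟪a, u - v⟫

theorem vol_ne_zero {m : ℕ} {a : Fin (m + 2) → E (m + 2)} {w : E (m + 2)} {t : ℝ}
    (ha : AffineIndependent ℝ a) (hw : w ≠ 0) (hp : ∀ j, ⟪a j, w⟫ = t) : vol a w ≠ 0 := by
  have h1 : LinearIndependent ℝ (fun l : Fin (m + 1) => a l.succ - a 0) := by
    have h := (affineIndependent_iff_linearIndependent_vsub ℝ a 0).1 ha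
    have h' := h.comp (fun l : Fin (m + 1) =>
      (⟨l.succ, Fin.succ_ne_zero l⟩ : {x : Fin (m + 2) // x ≠ 0}))
      (fun x y hxy => Fin.succ_injective _ (congrArg Subtype.val hxy))
    exact h'
  have h2 : LinearIndependent ℝ
      (Fin.cons w (fun l : Fin (m + 1) => a l.succ - a 0) : Fin (m + 2) → E (m + 2)) := by
    rw [linearIndependent_finCons]
    refine ⟨h1, fun hmem => ?_⟩
    have h3 : Submodule.span ℝ (Set.range fun l : Fin (m + 1) => a l.succ - a 0) ≤
        (ℝ ∙ w)ᗮ := by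
      rw [Submodule.span_le]
      rintro _ ⟨l, rfl⟩
      rw [SetLike.mem_coe, Submodule.mem_orthogonal_singleton_iff_inner_left, inner_sub_left,
        hp, hp, sub_self]
    have h4 := h3 hmem
    rw [Submodule.mem_orthogonal_singleton_iff_inner_left] at h4
    exact hw (inner_self_eq_zero.1 h4)
  have h5 : LinearIndependent ℝ (fun i : Fin (m + 2) => (WithLp.ofLp
      ((Fin.cons w (fun l : Fin (m + 1) => a l.succ - a 0) : Fin (m + 2) → E (m + 2)) i) :
      Fin (m + 2) → ℝ)) := by
    exact h2.map' (WithLp.linearEquiv 2 ℝ (Fin (m + 2) → ℝ)).toLinearMap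
      (LinearEquiv.ker _)
  unfold vol
  have h6 : IsUnit (Matrix.of fun i j : Fin (m + 2) =>
    (Fin.cons w (fun l : Fin (m + 1) => a l.succ - a 0) : Fin (m + 2) → E (m + 2)) i j) := by
    rw [← Matrix.linearIndependent_rows_iff_isUnit]
    exact h5
  exact ((Matrix.isUnit_iff_isUnit_det _).1 h6).ne_zero

theorem continuous_vol {m : ℕ} :
    Continuous fun p : (Fin (m + 2) → E (m + 2)) × E (m + 2) => vol p.1 p.2 := by
  unfold vol
  refine Continuous.matrix_det ?_
  refine continuous_matrix fun i j => ?_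
  refine Fin.cases ?_ (fun l => ?_) i
  · simp only [Matrix.of_apply, Fin.cons_zero]
    fun_prop
  · simp only [Matrix.of_apply, Fin.cons_succ]
    fun_prop

theorem vol_neg {m : ℕ} (a : Fin (m + 2) → E (m + 2)) (w : E (m + 2)) :
    vol a (-w) = - vol a w := by
  unfold vol
  have h : (Matrix.of fun i j : Fin (m + 2) =>
      (Fin.cons (-w) (fun l : Fin (m + 1) => a l.succ - a 0) : Fin (m + 2) → E (m + 2)) i j) =
      Matrix.updateRow (Matrix.of fun i j : Fin (m + 2) =>
      (Fin.cons w (fun l : Fin (m + 1) => a l.succ - a 0) : Fin (m + 2) → E (m + 2)) i j) 0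
      ((-1 : ℝ) • (fun j => w j)) := by
    ext i j
    refine Fin.cases ?_ (fun l => ?_) i
    · rw [Matrix.updateRow_self]
      simp
    · rw [Matrix.updateRow_ne (Fin.succ_ne_zero l)]
      simp
  rw [h, Matrix.det_updateRow_smul]
  have h2 : Matrix.updateRow (Matrix.of fun i j : Fin (m + 2) =>
      (Fin.cons w (fun l : Fin (m + 1) => a l.succ - a 0) : Fin (m + 2) → E (m + 2)) i j) 0
      (fun j => w j) = (Matrix.of fun i j : Fin (m + 2) =>
      (Fin.cons w (fun l : Fin (m + 1) => a l.succ - a 0) : Fin (m + 2) → E (m + 2)) i j) := by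
    ext i j
    refine Fin.cases ?_ (fun l => ?_) i
    · rw [Matrix.updateRow_self]
      simp
    · rw [Matrix.updateRow_ne (Fin.succ_ne_zero l)]
  rw [h2]
  ring

/-- Two choices of points of the sets in the same hyperplane have the same orientation. -/
theorem vol_sign {m : ℕ} {K : Fin (m + 2) → Set (E (m + 2))} (hconv : ∀ j, Convex ℝ (K j))
    (hind : ∀ a : Fin (m + 2) → E (m + 2), (∀ j, a j ∈ K j) → AffineIndependent ℝ a)
    {w : E (m + 2)} (hw : w ≠ 0) {t : ℝ} {a b : Fin (m + 2) → E (m + 2)}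
    (ha : ∀ j, a j ∈ K j) (hb : ∀ j, b j ∈ K j) (hat : ∀ j, ⟪a j, w⟫ = t)
    (hbt : ∀ j, ⟪b j, w⟫ = t) : 0 < vol a w * vol b w := by
  have hc : Continuous (fun s : ℝ => vol (fun j => (1 - s) • a j + s • b j) w) := by
    refine continuous_vol.comp (f := fun s : ℝ =>
      ((fun j => (1 - s) • a j + s • b j : Fin (m + 2) → E (m + 2)), w)) ?_
    fun_prop
  have hne : ∀ s ∈ Set.Icc (0 : ℝ) 1, vol (fun j => (1 - s) • a j + s • b j) w ≠ 0 := by
    intro s hs
    refine vol_ne_zero (t := t) (hind _ fun j => ?_) hw fun j => ?_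
    · exact hconv j (ha j) (hb j) (by linarith [hs.2]) hs.1 (by ring)
    · rw [inner_add_left, real_inner_smul_left, real_inner_smul_left, hat, hbt]
      ring
  have h0 : vol (fun j => (1 - (0 : ℝ)) • a j + (0 : ℝ) • b j) w = vol a w := by
    congr 1
    funext j
    simp
  have h1 : vol (fun j => (1 - (1 : ℝ)) • a j + (1 : ℝ) • b j) w = vol b w := by
    congr 1
    funext j
    simp
  have hne0 := hne 0 ⟨le_refl _, zero_le_one⟩
  have hne1 := hne 1 ⟨zero_le_one, le_refl _⟩
  by_contra hcon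
  rw [not_lt] at hcon
  have hiv : (0 : ℝ) ∈ (fun s : ℝ => vol (fun j => (1 - s) • a j + s • b j) w) ''
      Set.Icc (0 : ℝ) 1 := by
    rcases le_total (vol a w) 0 with h | h
    · have hb0 : 0 ≤ vol b w := by
        by_contra hb'
        push Not at hb'
        rw [h0] at hne0
        have : vol a w < 0 := lt_of_le_of_ne h hne0
        nlinarith
      exact intermediate_value_Icc zero_le_one hc.continuousOn
        ⟨h0.trans_le h, hb0.trans_eq h1.symm⟩
    · have hb0 : vol b w ≤ 0 := by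
        by_contra hb'
        push Not at hb'
        rw [h0] at hne0
        have : 0 < vol a w := lt_of_le_of_ne h hne0.symm
        nlinarith
      exact intermediate_value_Icc' zero_le_one hc.continuousOn
        ⟨h1.trans_le hb0, h.trans_eq h0.symm⟩
  obtain ⟨s, hs, hs0⟩ := hiv
  exact hne s hs hs0

/-- The leaves of a foliation of a compact convex set by hyperplanes are linearly ordered, and
there is a last one. -/
theorem exists_top {V : Type*} [NormedAddCommGroup V] [InnerProductSpace ℝ V] {C : Set V}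
    (hC : IsCompact C) (hconv : Convex ℝ C) (hne : C.Nonempty) (U : V → V)
    (hU : ContinuousOn U C) (leaf : ∀ x ∈ C, ∀ y ∈ C, ⟪U x, y - x⟫ = 0 → U y = U x) :
    ∃ p ∈ C, ∀ q ∈ C, ⟪U p, q - p⟫ ≤ 0 := by
  have hmem : ∀ p ∈ C, ∀ q ∈ C, ∀ s ∈ Set.Icc (0 : ℝ) 1, p + s • (q - p) ∈ C :=
    fun p hp q hq s hs => hconv.add_smul_sub_mem hp hq hs
  -- the sign is constant along a segment
  have L : ∀ p ∈ C, ∀ q ∈ C, ∀ s ∈ Set.Icc (0 : ℝ) 1, ∀ s' ∈ Set.Icc (0 : ℝ) 1,
      0 < ⟪U (p + s • (q - p)), q - p⟫ → 0 < ⟪U (p + s' • (q - p)), q - p⟫ := by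
    intro p hp q hq s hs s' hs' hpos
    by_contra hcon
    rw [not_lt] at hcon
    have hcont : ContinuousOn (fun r : ℝ => ⟪U (p + r • (q - p)), q - p⟫) (Set.Icc 0 1) := by
      refine ContinuousOn.inner (𝕜 := ℝ) ?_ continuousOn_const
      refine hU.comp (f := fun r : ℝ => p + r • (q - p)) ?_ (fun r hr => hmem p hp q hq r hr)
      fun_prop
    obtain ⟨r, hr, hr0⟩ := isPreconnected_Icc.intermediate_value hs' hs hcont ⟨hcon, hpos.le⟩
    have hr0' : ⟪U (p + r • (q - p)), q - p⟫ = 0 := hr0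
    have h1 : U (p + s • (q - p)) = U (p + r • (q - p)) := by
      refine leaf _ (hmem p hp q hq r hr) _ (hmem p hp q hq s hs) ?_
      have h2 : p + s • (q - p) - (p + r • (q - p)) = (s - r) • (q - p) := by
        rw [sub_smul]
        abel
      rw [h2, real_inner_smul_right, hr0', mul_zero]
    rw [h1, hr0'] at hpos
    exact lt_irrefl _ hpos
  have e0 : ∀ p q : V, p + (0 : ℝ) • (q - p) = p := by
    intro p q
    rw [zero_smul, add_zero]
  have e1 : ∀ p q : V, p + (1 : ℝ) • (q - p) = q := by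
    intro p q
    rw [one_smul, add_sub_cancel]
  have i0 : (0 : ℝ) ∈ Set.Icc (0 : ℝ) 1 := ⟨le_refl _, zero_le_one⟩
  have i1 : (1 : ℝ) ∈ Set.Icc (0 : ℝ) 1 := ⟨zero_le_one, le_refl _⟩
  have total : ∀ p ∈ C, ∀ q ∈ C, ⟪U p, q - p⟫ ≤ 0 ∨ ⟪U q, p - q⟫ ≤ 0 := by
    intro p hp q hq
    rcases le_or_gt ⟪U p, q - p⟫ 0 with h | h
    · exact Or.inl h
    · right
      have h1 := L p hp q hq 0 i0 1 i1 (by rw [e0]; exact h)
      rw [e1] at h1
      have h2 : ⟪U q, p - q⟫ = - ⟪U q, q - p⟫ := by rw [← inner_neg_right, neg_sub]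
      rw [h2]
      linarith
  have htrans : ∀ r ∈ C, ∀ p ∈ C, ∀ q ∈ C, ⟪U r, p - r⟫ ≤ 0 → ⟪U p, q - p⟫ ≤ 0 →
      ⟪U r, q - r⟫ ≤ 0 := by
    intro r hr p hp q hq h1 h2
    by_contra h3
    rw [not_le] at h3
    have hqp : ⟪U r, q - p⟫ = ⟪U r, q - r⟫ - ⟪U r, p - r⟫ := by
      rw [← inner_sub_right]
      congr 1
      abel
    have hqp0 : 0 < ⟪U r, q - p⟫ := by rw [hqp]; linarith
    -- the point of the segment in the leaf of r
    set s : ℝ := - ⟪U r, p - r⟫ / ⟪U r, q - p⟫ with hs
    have hsI : s ∈ Set.Icc (0 : ℝ) 1 := by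
      refine ⟨div_nonneg (by linarith) hqp0.le, ?_⟩
      rw [hs, div_le_one hqp0, hqp]
      linarith
    have h4 : ⟪U r, p + s • (q - p) - r⟫ = 0 := by
      have h5 : p + s • (q - p) - r = (p - r) + s • (q - p) := by abel
      rw [h5, inner_add_right, real_inner_smul_right, hs, div_mul_cancel₀ _ hqp0.ne']
      ring
    have h5 := leaf r hr _ (hmem p hp q hq s hsI) h4
    have h6 := L p hp q hq s hsI 0 i0 (by rw [h5]; exact hqp0)
    rw [e0] at h6
    linarith
  have hfin : ∀ S : Finset V, S.Nonempty → (∀ x ∈ S, x ∈ C) →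
      ∃ p ∈ S, ∀ q ∈ S, ⟪U p, q - p⟫ ≤ 0 := by
    classical
    intro S hS
    induction hS using Finset.Nonempty.cons_induction with
    | singleton a =>
      intro _
      refine ⟨a, Finset.mem_singleton_self a, fun q hq => ?_⟩
      rw [Finset.mem_singleton] at hq
      rw [hq, sub_self, inner_zero_right]
    | cons a S ha _ ih =>
      intro hSC
      have hSC' : ∀ x ∈ S, x ∈ C := fun x hx => hSC x (Finset.mem_cons_of_mem hx)
      have haC := hSC a (Finset.mem_cons_self a S)
      obtain ⟨p, hpS, hp⟩ := ih hSC'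
      rcases total p (hSC' p hpS) a haC with h | h
      · refine ⟨p, Finset.mem_cons_of_mem hpS, fun q hq => ?_⟩
        rcases Finset.mem_cons.1 hq with rfl | hq
        · exact h
        · exact hp q hq
      · refine ⟨a, Finset.mem_cons_self a S, fun q hq => ?_⟩
        rcases Finset.mem_cons.1 hq with rfl | hq
        · rw [sub_self, inner_zero_right]
        · exact htrans a haC p (hSC' p hpS) q (hSC' q hq) h (hp q hq)
  have hclosed : ∀ q : C, IsClosed (C ∩ {p | ⟪U p, (q : V) - p⟫ ≤ 0}) := by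
    intro q
    have hcont : ContinuousOn (fun p => ⟪U p, (q : V) - p⟫) C :=
      ContinuousOn.inner (𝕜 := ℝ) hU (by fun_prop)
    exact hcont.preimage_isClosed_of_isClosed hC.isClosed (isClosed_Iic (a := (0 : ℝ)))
  obtain ⟨p, hp, hpI⟩ := hC.inter_iInter_nonempty _ hclosed (fun S => by
    classical
    by_cases hS : S.Nonempty
    · obtain ⟨p, hpS, hp⟩ := hfin (S.image Subtype.val) (hS.image _) (fun x hx => by
        obtain ⟨y, _, rfl⟩ := Finset.mem_image.1 hx
        exact y.2)
      obtain ⟨y, _, rfl⟩ := Finset.mem_image.1 hpS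
      refine ⟨y, y.2, ?_⟩
      rw [Set.mem_iInter₂]
      intro q hq
      exact ⟨y.2, hp q (Finset.mem_image_of_mem _ hq)⟩
    · obtain ⟨x, hx⟩ := hne
      refine ⟨x, hx, ?_⟩
      rw [Finset.not_nonempty_iff_eq_empty] at hS
      rw [hS]
      simp)
  refine ⟨p, hp, fun q hq => ?_⟩
  exact (Set.mem_iInter.1 hpI ⟨q, hq⟩).2

namespace TanSys

variable {m : ℕ} {K : Fin (m + 2) → Set (E (m + 2))} {F : Fin (m + 2) → E (m + 2) → ℝ}

theorem continuous (h : TanSys K F) (j : Fin (m + 2)) : Continuous (F j) := by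
  obtain ⟨C, hC⟩ := (h.compact j).isBounded.exists_norm_le
  have hC0 : 0 ≤ C := by
    obtain ⟨a, ha⟩ := h.nonempty j
    exact (norm_nonneg a).trans (hC a ha)
  have hlip : LipschitzWith C.toNNReal (F j) := by
    refine LipschitzWith.of_dist_le_mul fun u v => ?_
    obtain ⟨a, ha, hau⟩ := h.mv j u v
    rw [Real.dist_eq, hau, dist_eq_norm, Real.coe_toNNReal C hC0]
    exact (abs_real_inner_le_norm _ _).trans
      (mul_le_mul_of_nonneg_right (hC a ha) (norm_nonneg _))
  exact hlip.continuous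

theorem unique (h : TanSys K F) {ε : ℝ} (hε : ε = 1 ∨ ε = -1) {u u' : E (m + 2)} {t t' : ℝ}
    (hu : ‖u‖ = 1) (hu' : ‖u'‖ = 1) (ht : ∀ j, F j u = t) (ht' : ∀ j, F j u' = t')
    (ha : ∃ a : Fin (m + 2) → E (m + 2), (∀ j, a j ∈ K j ∧ ⟪a j, u⟫ = t) ∧ 0 < ε * vol a u)
    (ha' : ∃ a : Fin (m + 2) → E (m + 2), (∀ j, a j ∈ K j ∧ ⟪a j, u'⟫ = t') ∧ 0 < ε * vol a u') :
    u = u' ∧ t = t' := by
  suffices huu : u = u' by
    refine ⟨huu, ?_⟩
    rw [← ht 0, ← ht' 0, huu]
  by_contra hne
  -- the normals of the homotopy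
  have hw : ∀ s : ℝ, (1 - s) • u - s • u' ≠ 0 := by
    intro s hs
    rw [sub_eq_zero] at hs
    have h1 := congrArg norm hs
    rw [norm_smul, norm_smul, hu, hu', mul_one, mul_one, Real.norm_eq_abs, Real.norm_eq_abs,
      abs_eq_abs] at h1
    rcases h1 with h1 | h1
    · have h2 : s = 1 / 2 := by linarith
      rw [h2] at hs
      norm_num at hs
      exact hne hs
    · linarith
  have hKc : IsCompact (Set.univ.pi K) := isCompact_univ_pi h.compact
  -- the closed sets of times with a choice of nonnegative, nonpositive orientation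
  have hclosed : ∀ δ : ℝ, IsClosed {s : ℝ | s ∈ Set.Icc (0 : ℝ) 1 ∧
      ∃ a : Fin (m + 2) → E (m + 2), (∀ j, a j ∈ K j ∧
        ⟪a j, (1 - s) • u - s • u'⟫ = (1 - s) * t - s * t') ∧
        0 ≤ δ * vol a ((1 - s) • u - s • u')} := by
    intro δ
    have hcomp : IsCompact ((Set.Icc (0 : ℝ) 1 ×ˢ Set.univ.pi K) ∩
        {q : ℝ × (Fin (m + 2) → E (m + 2)) | (∀ j, ⟪q.2 j, (1 - q.1) • u - q.1 • u'⟫ =
          (1 - q.1) * t - q.1 * t') ∧ 0 ≤ δ * vol q.2 ((1 - q.1) • u - q.1 • u')}) := by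
      refine (isCompact_Icc.prod hKc).inter_right ?_
      have hc1 : ∀ j, Continuous fun q : ℝ × (Fin (m + 2) → E (m + 2)) =>
          ⟪q.2 j, (1 - q.1) • u - q.1 • u'⟫ := by
        intro j
        fun_prop
      have hc2 : Continuous fun q : ℝ × (Fin (m + 2) → E (m + 2)) =>
          vol q.2 ((1 - q.1) • u - q.1 • u') := by
        refine continuous_vol.comp (f := fun q : ℝ × (Fin (m + 2) → E (m + 2)) =>
          (q.2, (1 - q.1) • u - q.1 • u')) ?_
        fun_prop
      have hS : {q : ℝ × (Fin (m + 2) → E (m + 2)) | (∀ j, ⟪q.2 j, (1 - q.1) • u - q.1 • u'⟫ =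
          (1 - q.1) * t - q.1 * t') ∧ 0 ≤ δ * vol q.2 ((1 - q.1) • u - q.1 • u')} =
          (⋂ j, {q : ℝ × (Fin (m + 2) → E (m + 2)) | ⟪q.2 j, (1 - q.1) • u - q.1 • u'⟫ =
          (1 - q.1) * t - q.1 * t'}) ∩ {q | 0 ≤ δ * vol q.2 ((1 - q.1) • u - q.1 • u')} := by
        ext q
        simp only [Set.mem_ofPred_eq, Set.mem_inter_iff, Set.mem_iInter]
      rw [hS]
      refine IsClosed.inter (isClosed_iInter fun j => isClosed_eq (hc1 j) (by fun_prop)) ?_
      exact isClosed_le continuous_const (continuous_const.mul hc2)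
    have himg := (hcomp.image continuous_fst).isClosed
    convert himg using 1
    ext s
    simp only [Set.mem_ofPred_eq, Set.mem_image, Set.mem_inter_iff, Set.mem_prod, Set.mem_pi,
      Set.mem_univ, true_imp_iff, Prod.exists, exists_and_right, exists_eq_right]
    constructor
    · rintro ⟨hs, a, haj, hv⟩
      exact ⟨a, ⟨hs, fun j => (haj j).1⟩, fun j => (haj j).2, hv⟩
    · rintro ⟨a, ⟨hs, haK⟩, haj, hv⟩
      exact ⟨hs, a, fun j => ⟨haK j, haj j⟩, hv⟩
  -- they cover the interval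
  have hchoice : ∀ s ∈ Set.Icc (0 : ℝ) 1, ∃ a : Fin (m + 2) → E (m + 2), (∀ j, a j ∈ K j ∧
      ⟪a j, (1 - s) • u - s • u'⟫ = (1 - s) * t - s * t') := by
    intro s hs
    have h1 : ∀ j, ∃ a ∈ K j, ⟪a, (1 - s) • u - s • u'⟫ = (1 - s) * t - s * t' := by
      intro j
      obtain ⟨a, ha, hau⟩ := h.mv j ((1 - s) • u) (s • u')
      refine ⟨a, ha, ?_⟩
      rw [← hau, h.hom j _ (by linarith [hs.2]), h.hom j _ hs.1, ht, ht']
    choose a ha1 ha2 using h1
    exact ⟨a, fun j => ⟨ha1 j, ha2 j⟩⟩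
  have hpre : IsPreconnected (Set.Icc (0 : ℝ) 1) := isPreconnected_Icc
  rw [isPreconnected_closed_iff] at hpre
  have hinter := hpre _ _ (hclosed 1) (hclosed (-1)) (by
      intro s hs
      obtain ⟨a, haj⟩ := hchoice s hs
      rcases le_total 0 (vol a ((1 - s) • u - s • u')) with h1 | h1
      · exact Or.inl ⟨hs, a, haj, by linarith⟩
      · exact Or.inr ⟨hs, a, haj, by linarith⟩) ?_ ?_
  · obtain ⟨s, hs, ⟨_, a, haj, hav⟩, _, b, hbj, hbv⟩ := hinter
    have h1 := vol_sign h.convex h.indep (hw s) (fun j => (haj j).1) (fun j => (hbj j).1)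
      (fun j => (haj j).2) (fun j => (hbj j).2)
    nlinarith
  · obtain ⟨a, haj, hav⟩ := ha
    obtain ⟨a', haj', hav'⟩ := ha'
    rcases hε with rfl | rfl
    · exact ⟨0, ⟨le_refl _, zero_le_one⟩, ⟨le_refl _, zero_le_one⟩, a, fun j => ⟨(haj j).1, by
        simpa using (haj j).2⟩, by simpa using hav.le⟩
    · refine ⟨1, ⟨zero_le_one, le_refl _⟩, ⟨zero_le_one, le_refl _⟩, a', fun j => ⟨(haj' j).1, by
        simpa using (haj' j).2⟩, ?_⟩
      have h1 : (1 - (1 : ℝ)) • u - (1 : ℝ) • u' = -u' := by simp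
      rw [h1, vol_neg]
      linarith
  · obtain ⟨a, haj, hav⟩ := ha
    obtain ⟨a', haj', hav'⟩ := ha'
    rcases hε with rfl | rfl
    · refine ⟨1, ⟨zero_le_one, le_refl _⟩, ⟨zero_le_one, le_refl _⟩, a', fun j => ⟨(haj' j).1, by
        simpa using (haj' j).2⟩, ?_⟩
      have h1 : (1 - (1 : ℝ)) • u - (1 : ℝ) • u' = -u' := by simp
      rw [h1, vol_neg]
      linarith
    · exact ⟨0, ⟨le_refl _, zero_le_one⟩, ⟨le_refl _, zero_le_one⟩, a, fun j => ⟨(haj j).1, by
        simpa using (haj j).2⟩, by simpa using hav.le⟩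

theorem apply_zero (h : TanSys K F) (j : Fin (m + 2)) : F j 0 = 0 := by
  have h1 := h.hom j 0 (le_refl _) 0
  rwa [zero_smul, zero_mul] at h1

/-- Replacing one function by the evaluation at a point. -/
theorem update (h : TanSys K F) (i : Fin (m + 2)) {p : E (m + 2)} (hp : p ∈ K i) :
    TanSys K (Function.update F i (fun u => ⟪p, u⟫)) where
  compact := h.compact
  convex := h.convex
  nonempty := h.nonempty
  indep := h.indep
  hom j c hc u := by
    by_cases hj : j = i
    · subst hj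
      rw [Function.update_self, real_inner_smul_right]
    · rw [Function.update_of_ne hj]
      exact h.hom j c hc u
  mv j u v := by
    by_cases hj : j = i
    · subst hj
      refine ⟨p, hp, ?_⟩
      rw [Function.update_self, inner_sub_right]
    · rw [Function.update_of_ne hj]
      exact h.mv j u v

theorem exists_base (h : TanSys K F)
    (hlin : ∀ j, ∃ p ∈ K j, F j = fun u => ⟪p, u⟫) {ε : ℝ} (hε : ε = 1 ∨ ε = -1) :
    ∃ u : E (m + 2), ‖u‖ = 1 ∧ ∃ t : ℝ, (∀ j, F j u = t) ∧
      ∃ a : Fin (m + 2) → E (m + 2), (∀ j, a j ∈ K j ∧ ⟪a j, u⟫ = t) ∧ 0 < ε * vol a u := by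
  choose p hpK hpF using hlin
  -- a nonzero vector orthogonal to the differences
  obtain ⟨w, hwo, hw0⟩ : ∃ w : E (m + 2), (∀ j, ⟪p j, w⟫ = ⟪p 0, w⟫) ∧ w ≠ 0 := by
    set W : Submodule ℝ (E (m + 2)) :=
      Submodule.span ℝ (Set.range fun l : Fin (m + 1) => p l.succ - p 0) with hW
    have h1 : Module.finrank ℝ W ≤ m + 1 := by
      have := finrank_range_le_card (R := ℝ) (fun l : Fin (m + 1) => p l.succ - p 0)
      rw [Fintype.card_fin] at this
      exact this
    have h2 : Wᗮ ≠ ⊥ := by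
      intro hbot
      have h3 := Submodule.finrank_add_finrank_orthogonal W
      rw [hbot, finrank_bot, add_zero, finrank_euclideanSpace_fin] at h3
      omega
    obtain ⟨w, hwW, hw0⟩ := Submodule.exists_mem_ne_zero_of_ne_bot h2
    refine ⟨w, fun j => ?_, hw0⟩
    refine Fin.cases rfl (fun l => ?_) j
    have h4 := (Submodule.mem_orthogonal W w).1 hwW _
      (Submodule.subset_span (Set.mem_range_self l))
    rw [inner_sub_left, sub_eq_zero] at h4
    exact h4
  have hn : 0 < ‖w‖ := norm_pos_iff.2 hw0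
  have key : ∀ c : ℝ, |c| = ‖w‖⁻¹ → 0 < ε * vol p (c • w) →
      ∃ u : E (m + 2), ‖u‖ = 1 ∧ ∃ t : ℝ, (∀ j, F j u = t) ∧
      ∃ a : Fin (m + 2) → E (m + 2), (∀ j, a j ∈ K j ∧ ⟪a j, u⟫ = t) ∧ 0 < ε * vol a u := by
    intro c hc hv
    have ht : ∀ j, ⟪p j, c • w⟫ = c * ⟪p 0, w⟫ := by
      intro j
      rw [real_inner_smul_right, hwo]
    refine ⟨c • w, ?_, c * ⟪p 0, w⟫, fun j => ?_, p, fun j => ⟨hpK j, ht j⟩, hv⟩
    · rw [norm_smul, Real.norm_eq_abs, hc, inv_mul_cancel₀ hn.ne']
    · rw [hpF j]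
      exact ht j
  have hne : vol p (‖w‖⁻¹ • w) ≠ 0 := by
    refine vol_ne_zero (t := ‖w‖⁻¹ * ⟪p 0, w⟫) (h.indep p hpK) ?_ fun j => ?_
    · exact smul_ne_zero (inv_ne_zero hn.ne') hw0
    · rw [real_inner_smul_right, hwo]
  have hεne : ε * vol p (‖w‖⁻¹ • w) ≠ 0 := by
    refine mul_ne_zero ?_ hne
    rcases hε with rfl | rfl <;> norm_num
  rcases lt_or_gt_of_ne hεne with h1 | h1
  · refine key (-‖w‖⁻¹) (by rw [abs_neg, abs_of_pos (inv_pos.2 hn)]) ?_
    rw [neg_smul, vol_neg]
    linarith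
  · exact key ‖w‖⁻¹ (abs_of_pos (inv_pos.2 hn)) h1

theorem exists_aux (l : ℕ) : ∀ (F : Fin (m + 2) → E (m + 2) → ℝ), TanSys K F →
    (∀ j : Fin (m + 2), l ≤ j.val → ∃ p ∈ K j, F j = fun u => ⟪p, u⟫) →
    ∀ {ε : ℝ}, (ε = 1 ∨ ε = -1) → ∃ u : E (m + 2), ‖u‖ = 1 ∧ ∃ t : ℝ, (∀ j, F j u = t) ∧
      ∃ a : Fin (m + 2) → E (m + 2), (∀ j, a j ∈ K j ∧ ⟪a j, u⟫ = t) ∧ 0 < ε * vol a u := by
  induction l with
  | zero =>
    intro F h hlin ε hε
    exact h.exists_base (fun j => hlin j (Nat.zero_le _)) hε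
  | succ l ih =>
    intro F h hlin ε hε
    by_cases hl : l < m + 2
    · set i : Fin (m + 2) := ⟨l, hl⟩ with hi
      have hilast : ∀ j : Fin (m + 2), j ≠ i → l ≤ j.val → l + 1 ≤ j.val := by
        intro j hj hlj
        have : j.val ≠ l := fun hv => hj (Fin.ext hv)
        omega
      -- `Good p u`: `u` is the solution with the `i`-th function replaced by evaluation at `p`
      let Good : E (m + 2) → E (m + 2) → Prop := fun p u => ‖u‖ = 1 ∧
        (∀ j, j ≠ i → F j u = ⟪p, u⟫) ∧ ∃ a : Fin (m + 2) → E (m + 2),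
          (∀ j, a j ∈ K j ∧ ⟪a j, u⟫ = ⟪p, u⟫) ∧ 0 < ε * vol a u
      have hex : ∀ p ∈ K i, ∃ u, Good p u := by
        intro p hp
        obtain ⟨u, hu, t, ht, a, ha, hv⟩ := ih _ (h.update i hp) (fun j hj => by
          by_cases hji : j = i
          · subst hji
            exact ⟨p, hp, by rw [Function.update_self]⟩
          · rw [Function.update_of_ne hji]
            exact hlin j (hilast j hji hj)) hε
        have ht' : ⟪p, u⟫ = t := by
          have := ht i
          rwa [Function.update_self] at this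
        refine ⟨u, hu, fun j hj => ?_, a, fun j => ?_, hv⟩
        · have := ht j
          rw [Function.update_of_ne hj] at this
          rw [this, ht']
        · rw [ht']
          exact ha j
      have huniq : ∀ p ∈ K i, ∀ u u', Good p u → Good p u' → u = u' := by
        intro p hp u u' hu hu'
        refine ((h.update i hp).unique hε (t := ⟪p, u⟫) (t' := ⟪p, u'⟫) hu.1 hu'.1
          (fun j => ?_) (fun j => ?_) hu.2.2 hu'.2.2).1
        · by_cases hji : j = i
          · subst hji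
            rw [Function.update_self]
          · rw [Function.update_of_ne hji]
            exact hu.2.1 j hji
        · by_cases hji : j = i
          · subst hji
            rw [Function.update_self]
          · rw [Function.update_of_ne hji]
            exact hu'.2.1 j hji
      choose! U hU using hex
      have hleaf : ∀ x ∈ K i, ∀ y ∈ K i, ⟪U x, y - x⟫ = 0 → U y = U x := by
        intro x hx y hy hxy
        refine huniq y hy _ _ (hU y hy) ?_
        have h1 : ⟪y, U x⟫ = ⟪x, U x⟫ := by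
          rw [inner_sub_right, sub_eq_zero] at hxy
          rw [real_inner_comm, hxy, real_inner_comm]
        obtain ⟨g1, g2, a, ga, gv⟩ := hU x hx
        refine ⟨g1, fun j hj => ?_, a, fun j => ?_, gv⟩
        · rw [h1]
          exact g2 j hj
        · rw [h1]
          exact ga j
      have hKc : IsCompact (Set.univ.pi K) := isCompact_univ_pi h.compact
      have hcontU : ContinuousOn U (K i) := by
        rw [continuousOn_iff_isClosed]
        intro T hT
        have hcomp : IsCompact (((K i) ×ˢ (Metric.sphere (0 : E (m + 2)) 1) ×ˢ Set.univ.pi K) ∩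
            ({q : E (m + 2) × E (m + 2) × (Fin (m + 2) → E (m + 2)) |
              (∀ j, j ≠ i → F j q.2.1 = ⟪q.1, q.2.1⟫) ∧ (∀ j, ⟪q.2.2 j, q.2.1⟫ = ⟪q.1, q.2.1⟫) ∧
              0 ≤ ε * vol q.2.2 q.2.1} ∩ {q | q.2.1 ∈ T})) := by
          refine ((h.compact i).prod ((isCompact_sphere _ _).prod hKc)).inter_right ?_
          refine IsClosed.inter ?_ (hT.preimage (by fun_prop))
          have hS : {q : E (m + 2) × E (m + 2) × (Fin (m + 2) → E (m + 2)) |
              (∀ j, j ≠ i → F j q.2.1 = ⟪q.1, q.2.1⟫) ∧ (∀ j, ⟪q.2.2 j, q.2.1⟫ = ⟪q.1, q.2.1⟫) ∧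
              0 ≤ ε * vol q.2.2 q.2.1} =
              (⋂ j, ⋂ _ : j ≠ i, {q : E (m + 2) × E (m + 2) × (Fin (m + 2) → E (m + 2)) |
                F j q.2.1 = ⟪q.1, q.2.1⟫}) ∩
              ((⋂ j, {q : E (m + 2) × E (m + 2) × (Fin (m + 2) → E (m + 2)) |
                ⟪q.2.2 j, q.2.1⟫ = ⟪q.1, q.2.1⟫}) ∩ {q | 0 ≤ ε * vol q.2.2 q.2.1}) := by
            ext q
            simp only [Set.mem_ofPred_eq, Set.mem_inter_iff, Set.mem_iInter]
          rw [hS]
          refine IsClosed.inter (isClosed_iInter fun j => isClosed_iInter fun _ =>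
            isClosed_eq ((h.continuous j).comp (by fun_prop)) (by fun_prop))
            (IsClosed.inter (isClosed_iInter fun j => isClosed_eq (by fun_prop) (by fun_prop)) ?_)
          refine isClosed_le continuous_const (continuous_const.mul ?_)
          exact continuous_vol.comp (f := fun q : E (m + 2) × E (m + 2) ×
            (Fin (m + 2) → E (m + 2)) => (q.2.2, q.2.1)) (by fun_prop)
        have himg := (hcomp.image continuous_fst).isClosed
        refine ⟨_, himg, ?_⟩
        ext p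
        constructor
        · rintro ⟨hpT, hpK⟩
          obtain ⟨g1, g2, a, ga, gv⟩ := hU p hpK
          refine ⟨⟨(p, U p, a), ⟨⟨hpK, by simpa using g1, fun j _ => (ga j).1⟩,
            ⟨⟨g2, fun j => (ga j).2, gv.le⟩, hpT⟩⟩, rfl⟩, hpK⟩
        · rintro ⟨⟨⟨p', u, a⟩, ⟨⟨_, hsph, haK⟩, ⟨⟨g2, ga, gv⟩, huT⟩⟩, rfl⟩, hpK⟩
          refine ⟨?_, hpK⟩
          have hu1 : ‖u‖ = 1 := by simpa using hsph
          have hu0 : u ≠ 0 := by
            intro h0
            rw [h0, norm_zero] at hu1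
            exact zero_ne_one hu1
          have haK' : ∀ j, a j ∈ K j := fun j => haK j (Set.mem_univ j)
          have hvne : vol a u ≠ 0 := vol_ne_zero (h.indep a haK') hu0 ga
          have hg : Good p' u := by
            refine ⟨hu1, g2, a, fun j => ⟨haK' j, ga j⟩, lt_of_le_of_ne gv ?_⟩
            refine (mul_ne_zero ?_ hvne).symm
            rcases hε with rfl | rfl <;> norm_num
          have := huniq p' hpK _ _ (hU p' hpK) hg
          change U p' ∈ T
          rw [this]
          exact huT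
      obtain ⟨p1, hp1, htop⟩ := exists_top (h.compact i) (h.convex i) (h.nonempty i) U hcontU hleaf
      obtain ⟨p2, hp2, hbot⟩ := exists_top (h.compact i) (h.convex i) (h.nonempty i)
        (fun x => - U x) hcontU.neg (fun x hx y hy hxy => by
          rw [inner_neg_left, neg_eq_zero] at hxy
          rw [hleaf x hx y hy hxy])
      have hmv : ∀ p, ∃ a ∈ K i, F i (U p) = ⟪a, U p⟫ := by
        intro p
        obtain ⟨a, ha, hau⟩ := h.mv i (U p) 0
        refine ⟨a, ha, ?_⟩
        rw [h.apply_zero, sub_zero, sub_zero] at hau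
        exact hau
      have hD : ContinuousOn (fun p => F i (U p) - ⟪p, U p⟫) (K i) :=
        ((h.continuous i).comp_continuousOn hcontU).sub
          (ContinuousOn.inner (𝕜 := ℝ) continuousOn_id hcontU)
      have hD1 : F i (U p1) - ⟪p1, U p1⟫ ≤ 0 := by
        obtain ⟨a, ha, hau⟩ := hmv p1
        rw [hau, ← inner_sub_left, real_inner_comm]
        exact htop a ha
      have hD2 : 0 ≤ F i (U p2) - ⟪p2, U p2⟫ := by
        obtain ⟨a, ha, hau⟩ := hmv p2
        rw [hau, ← inner_sub_left, real_inner_comm]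
        have := hbot a ha
        rw [inner_neg_left] at this
        linarith
      obtain ⟨p, hp, hp0⟩ := (h.convex i).isPreconnected.intermediate_value hp1 hp2 hD
        ⟨hD1, hD2⟩
      have hp0' : F i (U p) = ⟪p, U p⟫ := by
        have : F i (U p) - ⟪p, U p⟫ = 0 := hp0
        linarith
      obtain ⟨g1, g2, a, ga, gv⟩ := hU p hp
      refine ⟨U p, g1, ⟪p, U p⟫, fun j => ?_, a, ga, gv⟩
      by_cases hji : j = i
      · subst hji
        exact hp0'
      · exact g2 j hji
    · exact ih F h (fun j hj => by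
        have := j.2
        omega) hε

/-- There is a common tangent of each orientation. -/
theorem exists_sol (h : TanSys K F) {ε : ℝ} (hε : ε = 1 ∨ ε = -1) :
    ∃ u : E (m + 2), ‖u‖ = 1 ∧ ∃ t : ℝ, (∀ j, F j u = t) ∧
      ∃ a : Fin (m + 2) → E (m + 2), (∀ j, a j ∈ K j ∧ ⟪a j, u⟫ = t) ∧ 0 < ε * vol a u :=
  exists_aux (m + 2) F h (fun j hj => by
    have := j.2
    omega) hε

end TanSys

end HyperplaneTransversals
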